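import Mathlib

/-!
# PSF-Luc: a polynomial that is the indicator of `ℓ ^ m ∣ i` modulo `ℓ ^ M`, up to a denominator

PLAN.  `N = ℓ ^ m`.  The binomial coefficient `e₀(i) = Nat.choose (i + N - 1) (N - 1)` is `1` mod `ℓ` if
`N ∣ i` and `0` mod `ℓ` otherwise: by Lucas (`Choose.lucas_theorem_nat` or the polynomial form); or:
in `𝔽_ℓ[[X]]`, `∑ i, e₀(i) X ^ i = (1 - X) ^ (-N) = (1 - X ^ N)⁻¹` (`PowerSeries.invOneSubPow`); or by
induction on `m` from the one digit Lucas theorem.  Put `r = ℓ ^ (M - 1)` (for `M = 0` everything is trivial,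
take `A = 0`, `D = 1`, `e = 0`), `e = e₀ ^ r`, `D = ((N - 1)!) ^ r`,
`A = (∏ k ∈ range (N - 1), (X + (k + 1))) ^ r`: `(N - 1)! e₀(i) = ∏ k < N - 1, (i + k + 1)`
(`Nat.ascFactorial_eq_factorial_mul_choose`).  Finally `x ≡ 1 (ℓ)` implies `x ^ ℓ ^ (M-1) ≡ 1 (ℓ ^ M)` and
`x ≡ 0 (ℓ)` implies `x ^ ℓ ^ (M - 1) ≡ 0 (ℓ ^ M)` as `ℓ ^ (M - 1) ≥ M`
(`dvd_sub_pow_of_dvd_sub`: `ℓ ∣ x - 1 → ℓ ^ (k + 1) ∣ x ^ ℓ ^ k - 1`).
-/

namespace Pool.Agent.PSF

open Polynomial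

/-- In characteristic `ℓ`: `∑ choose (i + N - 1) (N - 1) X ^ i = (1 - X ^ N)⁻¹`. -/
private theorem luc_choose {ℓ : ℕ} (hℓ : ℓ.Prime) (m i : ℕ) :
    ((Nat.choose (ℓ ^ m - 1 + i) (ℓ ^ m - 1) : ℕ) : ZMod ℓ) = if ℓ ^ m ∣ i then 1 else 0 := by
  have : Fact ℓ.Prime := ⟨hℓ⟩
  have hN : 0 < ℓ ^ m := pow_pos hℓ.pos m
  set N := ℓ ^ m with hNdef
  obtain ⟨d, hd⟩ : ∃ d, N = d + 1 := ⟨N - 1, by omega⟩
  have h1 : (PowerSeries.mk fun n => (Nat.choose (d + n) d : ZMod ℓ)) * (1 - PowerSeries.X) ^ (d + 1) = 1 :=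
    PowerSeries.mk_add_choose_mul_one_sub_pow_eq_one (S := ZMod ℓ) d
  have hcp : CharP (PowerSeries (ZMod ℓ)) ℓ :=
    charP_of_injective_ringHom (f := (PowerSeries.C : ZMod ℓ →+* PowerSeries (ZMod ℓ)))
      (PowerSeries.C_injective) ℓ
  have h2 : ((1 : PowerSeries (ZMod ℓ)) - PowerSeries.X) ^ (d + 1) = 1 - PowerSeries.X ^ N := by
    rw [← hd, hNdef, sub_pow_char_pow, one_pow]
  have h3 : (PowerSeries.mk fun n => (if N ∣ n then (1 : ZMod ℓ) else 0)) * (1 - PowerSeries.X ^ N) = 1 := by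
    ext n
    rw [mul_sub, mul_one, map_sub, PowerSeries.coeff_mul_X_pow', PowerSeries.coeff_mk, PowerSeries.coeff_one]
    by_cases hn : N ≤ n
    · rw [if_pos hn, PowerSeries.coeff_mk]
      have hn0 : n ≠ 0 := by omega
      rw [if_neg hn0]
      have : N ∣ n - N ↔ N ∣ n := by
        constructor
        · intro h
          have := Nat.dvd_add h (dvd_refl N)
          rwa [Nat.sub_add_cancel hn] at this
        · intro h
          exact Nat.dvd_sub h (dvd_refl N)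
      by_cases h : N ∣ n
      · rw [if_pos h, if_pos (this.mpr h)]; simp
      · rw [if_neg h, if_neg (fun h' => h (this.mp h'))]; simp
    · rw [if_neg hn, sub_zero]
      by_cases h0 : n = 0
      · rw [h0]; simp
      · rw [if_neg h0]
        rw [if_neg]
        intro h
        exact hn (Nat.le_of_dvd (Nat.pos_of_ne_zero h0) h)
  have h4 : (PowerSeries.mk fun n => (Nat.choose (d + n) d : ZMod ℓ))
      = (PowerSeries.mk fun n => (if N ∣ n then (1 : ZMod ℓ) else 0)) := by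
    calc (PowerSeries.mk fun n => (Nat.choose (d + n) d : ZMod ℓ))
        = (PowerSeries.mk fun n => (Nat.choose (d + n) d : ZMod ℓ)) *
          ((PowerSeries.mk fun n => (if N ∣ n then (1 : ZMod ℓ) else 0)) * (1 - PowerSeries.X ^ N)) := by
          rw [h3, mul_one]
      _ = ((PowerSeries.mk fun n => (Nat.choose (d + n) d : ZMod ℓ)) * (1 - PowerSeries.X ^ N)) *
          (PowerSeries.mk fun n => (if N ∣ n then (1 : ZMod ℓ) else 0)) := by ring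
      _ = (PowerSeries.mk fun n => (if N ∣ n then (1 : ZMod ℓ) else 0)) := by
          rw [← h2, h1, one_mul]
  have h5 := congrArg (PowerSeries.coeff i) h4
  rw [PowerSeries.coeff_mk, PowerSeries.coeff_mk] at h5
  have hd' : N - 1 = d := by omega
  rw [hd', h5]

theorem luc {ℓ : ℕ} (hℓ : ℓ.Prime) (m M : ℕ) :
    ∃ (A : ℤ[X]) (D : ℕ) (e : ℕ → ℤ), D ≠ 0 ∧ (∀ i : ℕ, A.eval (i : ℤ) = (D : ℤ) * e i) ∧
      (∀ i : ℕ, ℓ ^ m ∣ i → (ℓ : ℤ) ^ M ∣ e i - 1) ∧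
      (∀ i : ℕ, ¬ ℓ ^ m ∣ i → (ℓ : ℤ) ^ M ∣ e i) := by
  rcases Nat.eq_zero_or_pos M with rfl | hM
  · exact ⟨0, 1, 0, one_ne_zero, by simp, by simp, by simp⟩
  have : Fact ℓ.Prime := ⟨hℓ⟩
  obtain ⟨k, rfl⟩ : ∃ k, M = k + 1 := ⟨M - 1, by omega⟩
  set r := ℓ ^ k with hr
  set d := ℓ ^ m - 1 with hd
  have hfac : ∀ i : ℕ, ((ascPochhammer ℤ d).comp (X + 1)).eval (i : ℤ)
      = (d.factorial : ℤ) * ((Nat.choose (d + i) d : ℕ) : ℤ) := by
    intro i
    rw [eval_comp]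
    have : (X + 1 : ℤ[X]).eval (i : ℤ) = ((i + 1 : ℕ) : ℤ) := by simp
    rw [this, ascPochhammer_nat_eq_natCast_ascFactorial, Nat.ascFactorial_eq_factorial_mul_choose,
      Nat.add_comm i d]
    push_cast
    ring
  refine ⟨((ascPochhammer ℤ d).comp (X + 1)) ^ r, d.factorial ^ r,
    fun i => ((Nat.choose (d + i) d : ℕ) : ℤ) ^ r, pow_ne_zero _ (Nat.factorial_ne_zero _), ?_, ?_, ?_⟩
  · intro i
    rw [eval_pow, hfac, mul_pow]
    push_cast
    ring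
  · intro i hi
    have h1 : ((ℓ : ℕ) : ℤ) ∣ ((Nat.choose (d + i) d : ℕ) : ℤ) - 1 := by
      rw [← ZMod.intCast_zmod_eq_zero_iff_dvd]
      have := luc_choose hℓ m i
      rw [if_pos hi] at this
      push_cast
      rw [this, sub_self]
    have := dvd_sub_pow_of_dvd_sub h1 k
    rw [one_pow] at this
    exact this
  · intro i hi
    have h1 : ((ℓ : ℕ) : ℤ) ∣ ((Nat.choose (d + i) d : ℕ) : ℤ) := by
      rw [← ZMod.intCast_zmod_eq_zero_iff_dvd]
      have := luc_choose hℓ m i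
      rw [if_neg hi] at this
      push_cast
      exact this
    have h2 : k + 1 ≤ r := Nat.lt_pow_self hℓ.one_lt
    exact dvd_trans (pow_dvd_pow _ h2) (pow_dvd_pow_of_dvd h1 r)

end Pool.Agent.PSF
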