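import Pool.Agent.PSF.Vdm
import Pool.Agent.PSF.Luc

/-!
# PSF-Meas: a measure on `ℤ_ℓ²` with vanishing projections along infinitely many lines is zero

PLAN.  Fix `m, M`; `A, D, e` from `luc hℓ m M`; `Δ, s, g` from `vdm hQ A A`.
1. Iterating `hdist` (induction on `k`):
   `h m 0 0 = ∑ a < ℓ ^ k, ∑ b < ℓ ^ k, h (m + k) (a ℓ ^ m) (b ℓ ^ m)`; more generally for all `i, j`:
   `h m i j = ∑ a < ℓ ^ k, ∑ b < ℓ ^ k, h (m + k) (i + a ℓ ^ m) (j + b ℓ ^ m)`.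
2. For `n = m + k`: let `T = ∑ i < ℓ ^ n, ∑ j < ℓ ^ n, (e i * e j) • h n i j` (integer multiples).
   As `e i * e j ≡ [ℓ ^ m ∣ i] [ℓ ^ m ∣ j]` mod `ℓ ^ M`, `T = h m 0 0 + ℓ ^ M • w` for some `w`
   (the `i < ℓ ^ n` divisible by `ℓ ^ m` are the `a ℓ ^ m`, `a < ℓ ^ k`).
3. `(Δ D ^ 2) • T = ∑ i, ∑ j, (Δ A(i) A(j)) • h n i j = ∑ q ∈ s, ∑ i, ∑ j, g_q(q i + j) • h n i j`, and
   `g_q(q i + j) ≡ g_q(k)` mod `ℓ ^ n` for `k = (q i + j) % ℓ ^ n` (`Polynomial` `sub_dvd_eval_sub`); so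
   modulo `ℓ ^ n V` it is `∑ q, ∑ k < ℓ ^ n, g_q(k) • ∑ i, ∑ j, [q i + j ≡ k] h n i j = 0` by `hline`.
   Hence `(Δ D ^ 2) • (h m 0 0 + ℓ ^ M • w) = ℓ ^ n • w'`.
4. Write `Δ D ^ 2 = ℓ ^ c * Δ'` with `Δ'` prime to `ℓ` and take `k` with `n ≥ c + M`; by `htf`
   `Δ' • (h m 0 0 + ℓ ^ M • w) = ℓ ^ (n - c) • w'`, so `Δ' • h m 0 0 ∈ ℓ ^ M V`, and
   `ℓ ^ M • h m 0 0 ∈ ℓ ^ M V`; Bezout: `h m 0 0 ∈ ℓ ^ M V`.  As `M` is arbitrary, `hsep` gives the claim.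
-/

namespace Pool.Agent.PSF

universe v

private theorem ms_reindex {V : Type v} [AddCommGroup V] (f : ℕ → V) (N L : ℕ) :
    ∑ x ∈ Finset.range (N * L), f x =
      ∑ i ∈ Finset.range N, ∑ a ∈ Finset.range L, f (i + a * N) := by
  rw [Finset.sum_comm]
  induction L with
  | zero => simp
  | succ L ih =>
    rw [Nat.mul_succ, Finset.sum_range_succ, ← ih, Finset.sum_range_add]
    congr 1
    refine Finset.sum_congr rfl fun i _ => ?_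
    rw [add_comm i, mul_comm L N]

private theorem ms_dist {ℓ : ℕ} (hℓ : ℓ.Prime) {V : Type v} [AddCommGroup V] (h : ℕ → ℕ → ℕ → V)
    (hdist : ∀ n i j, h n i j = ∑ a ∈ Finset.range ℓ, ∑ b ∈ Finset.range ℓ,
      h (n + 1) (i + a * ℓ ^ n) (j + b * ℓ ^ n)) (m k : ℕ) :
    ∑ i ∈ Finset.range (ℓ ^ (m + k)), ∑ j ∈ Finset.range (ℓ ^ (m + k)),
      (if ℓ ^ m ∣ i ∧ ℓ ^ m ∣ j then h (m + k) i j else 0) = h m 0 0 := by
  induction k with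
  | zero =>
    have hpos : 0 < ℓ ^ m := pow_pos hℓ.pos m
    have hz : ∀ x ∈ Finset.range (ℓ ^ m), x ≠ 0 → ¬ ℓ ^ m ∣ x := by
      intro x hx hx0 hd
      exact absurd (Nat.le_of_dvd (Nat.pos_of_ne_zero hx0) hd) (not_le.2 (Finset.mem_range.1 hx))
    rw [add_zero, Finset.sum_eq_single_of_mem 0 (Finset.mem_range.2 hpos),
      Finset.sum_eq_single_of_mem 0 (Finset.mem_range.2 hpos), if_pos ⟨dvd_zero _, dvd_zero _⟩]
    · intro j hj hj0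
      rw [if_neg fun hc => hz j hj hj0 hc.2]
    · intro i hi hi0
      refine Finset.sum_eq_zero fun j _ => ?_
      rw [if_neg fun hc => hz i hi hi0 hc.1]
  | succ k ih =>
    have hN : ℓ ^ (m + (k + 1)) = ℓ ^ (m + k) * ℓ := by rw [← add_assoc, pow_succ]
    have hdN : ℓ ^ m ∣ ℓ ^ (m + k) := pow_dvd_pow ℓ (Nat.le_add_right m k)
    have hd : ∀ i a : ℕ, ℓ ^ m ∣ i + a * ℓ ^ (m + k) ↔ ℓ ^ m ∣ i := fun i a =>
      Nat.dvd_add_left (Dvd.dvd.mul_left hdN a)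
    rw [hN, ms_reindex]
    rw [← ih]
    refine Finset.sum_congr rfl fun i _ => ?_
    calc ∑ a ∈ Finset.range ℓ, ∑ j ∈ Finset.range (ℓ ^ (m + k) * ℓ),
          (if ℓ ^ m ∣ i + a * ℓ ^ (m + k) ∧ ℓ ^ m ∣ j then
            h (m + (k + 1)) (i + a * ℓ ^ (m + k)) j else 0)
        = ∑ a ∈ Finset.range ℓ, ∑ j ∈ Finset.range (ℓ ^ (m + k)), ∑ b ∈ Finset.range ℓ,
          (if ℓ ^ m ∣ i ∧ ℓ ^ m ∣ j then
            h (m + k + 1) (i + a * ℓ ^ (m + k)) (j + b * ℓ ^ (m + k)) else 0) := by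
          refine Finset.sum_congr rfl fun a _ => ?_
          rw [ms_reindex]
          refine Finset.sum_congr rfl fun j _ => Finset.sum_congr rfl fun b _ => ?_
          rw [← add_assoc m k 1]
          exact if_congr (by rw [hd, hd]) rfl rfl
      _ = ∑ j ∈ Finset.range (ℓ ^ (m + k)),
          (if ℓ ^ m ∣ i ∧ ℓ ^ m ∣ j then h (m + k) i j else 0) := by
          rw [Finset.sum_comm]
          refine Finset.sum_congr rfl fun j _ => ?_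
          by_cases hc : ℓ ^ m ∣ i ∧ ℓ ^ m ∣ j
          · rw [if_pos hc, hdist (m + k) i j]
            refine Finset.sum_congr rfl fun a _ => Finset.sum_congr rfl fun b _ => ?_
            rw [if_pos hc]
          · rw [if_neg hc]
            refine Finset.sum_eq_zero fun a _ => Finset.sum_eq_zero fun b _ => ?_
            rw [if_neg hc]

/-- sums of multiples that are congruent modulo `r` -/
private theorem ms_congr {V : Type v} [AddCommGroup V] {α : Type} (s : Finset α) (r : ℤ)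
    (c d : α → ℤ) (hcd : ∀ i ∈ s, r ∣ c i - d i) (x : α → V) :
    ∃ w : V, ∑ i ∈ s, c i • x i = ∑ i ∈ s, d i • x i + r • w := by
  classical
  choose! t ht using hcd
  refine ⟨∑ i ∈ s, t i • x i, ?_⟩
  rw [Finset.smul_sum, ← Finset.sum_add_distrib]
  refine Finset.sum_congr rfl fun i hi => ?_
  rw [smul_smul, ← ht i hi, ← add_smul]
  congr 1
  ring

private theorem ms_line {ℓ : ℕ} (hℓ : ℓ.Prime) {V : Type v} [AddCommGroup V]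
    (h : ℕ → ℕ → V) (n q : ℕ) (g : Polynomial ℤ)
    (hline : ∀ k : ℕ, ∑ i ∈ Finset.range (ℓ ^ n), ∑ j ∈ Finset.range (ℓ ^ n),
      (if q * i + j ≡ k [MOD ℓ ^ n] then h i j else 0) = 0) :
    ∃ w : V, ∑ x ∈ Finset.range (ℓ ^ n) ×ˢ Finset.range (ℓ ^ n),
      (g.eval ((q : ℤ) * x.1 + x.2)) • h x.1 x.2 = ((ℓ : ℤ) ^ n) • w := by
  have hpos : 0 < ℓ ^ n := pow_pos hℓ.pos n
  obtain ⟨w, hw⟩ := ms_congr (Finset.range (ℓ ^ n) ×ˢ Finset.range (ℓ ^ n)) ((ℓ : ℤ) ^ n)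
    (fun x => g.eval ((q : ℤ) * x.1 + x.2))
    (fun x => g.eval (((q * x.1 + x.2) % ℓ ^ n : ℕ) : ℤ)) (by
      intro x _
      refine dvd_trans ?_ (Polynomial.sub_dvd_eval_sub _ _ g)
      have h1 : ((q * x.1 + x.2 : ℕ) : ℤ) = (ℓ : ℤ) ^ n * (((q * x.1 + x.2) / ℓ ^ n : ℕ) : ℤ) +
          (((q * x.1 + x.2) % ℓ ^ n : ℕ) : ℤ) := by
        exact_mod_cast (Nat.div_add_mod (q * x.1 + x.2) (ℓ ^ n)).symm
      have e : (q : ℤ) * x.1 + x.2 = ((q * x.1 + x.2 : ℕ) : ℤ) := by push_cast; ring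
      have h2 : ((q * x.1 + x.2 : ℕ) : ℤ) - (((q * x.1 + x.2) % ℓ ^ n : ℕ) : ℤ) =
          (ℓ : ℤ) ^ n * (((q * x.1 + x.2) / ℓ ^ n : ℕ) : ℤ) := by linarith
      rw [e, h2]
      exact dvd_mul_right _ _) (fun x => h x.1 x.2)
  refine ⟨w, ?_⟩
  rw [hw]
  have h2 : ∑ x ∈ Finset.range (ℓ ^ n) ×ˢ Finset.range (ℓ ^ n),
      g.eval (((q * x.1 + x.2) % ℓ ^ n : ℕ) : ℤ) • h x.1 x.2 = 0 := by
    have h3 : ∀ x ∈ Finset.range (ℓ ^ n) ×ˢ Finset.range (ℓ ^ n),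
        g.eval (((q * x.1 + x.2) % ℓ ^ n : ℕ) : ℤ) • h x.1 x.2 =
          ∑ k ∈ Finset.range (ℓ ^ n), g.eval (k : ℤ) •
            (if q * x.1 + x.2 ≡ k [MOD ℓ ^ n] then h x.1 x.2 else 0) := by
      intro x _
      rw [Finset.sum_eq_single_of_mem ((q * x.1 + x.2) % ℓ ^ n)
        (Finset.mem_range.2 (Nat.mod_lt _ hpos))]
      · rw [if_pos (Nat.mod_modEq _ _).symm]
      · intro k hk hne
        rw [if_neg, smul_zero]
        intro hc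
        apply hne
        have h4 : (q * x.1 + x.2) % ℓ ^ n = k % ℓ ^ n := hc
        rw [h4, Nat.mod_eq_of_lt (Finset.mem_range.1 hk)]
    rw [Finset.sum_congr rfl h3, Finset.sum_comm]
    refine Finset.sum_eq_zero fun k _ => ?_
    rw [← Finset.smul_sum, Finset.sum_product, hline k, smul_zero]
  rw [h2, zero_add]

theorem meas_zero {ℓ : ℕ} (hℓ : ℓ.Prime) {V : Type v} [AddCommGroup V]
    (htf : ∀ (n : ℕ) (v : V), n ≠ 0 → n • v = 0 → v = 0)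
    (hsep : ∀ v : V, (∀ M : ℕ, ∃ w : V, v = (ℓ ^ M) • w) → v = 0) (h : ℕ → ℕ → ℕ → V)
    (hper1 : ∀ n i j, h n (i + ℓ ^ n) j = h n i j) (hper2 : ∀ n i j, h n i (j + ℓ ^ n) = h n i j)
    (hdist : ∀ n i j, h n i j = ∑ a ∈ Finset.range ℓ, ∑ b ∈ Finset.range ℓ,
      h (n + 1) (i + a * ℓ ^ n) (j + b * ℓ ^ n))
    {Q : Set ℕ} (hQ : Q.Infinite)
    (hline : ∀ q ∈ Q, ∀ n k : ℕ, ∑ i ∈ Finset.range (ℓ ^ n), ∑ j ∈ Finset.range (ℓ ^ n),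
      (if q * i + j ≡ k [MOD ℓ ^ n] then h n i j else 0) = 0) (m : ℕ) : h m 0 0 = 0 := by
  classical
  refine hsep _ fun M => ?_
  obtain ⟨A, D, e, hD, hAe, he1, he0⟩ := luc hℓ m M
  obtain ⟨Δ, s, g, hΔ, hsQ, hg⟩ := vdm hQ A A
  obtain ⟨c, Δ', hΔ', hfac⟩ := Nat.exists_eq_pow_mul_and_not_dvd
    (mul_ne_zero hΔ (pow_ne_zero 2 hD)) ℓ hℓ.ne_one
  have hℓ0 : (ℓ : ℕ) ≠ 0 := hℓ.ne_zero
  -- the level
  set k := c + M with hk
  set n := m + k with hn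
  set S := Finset.range (ℓ ^ n) ×ˢ Finset.range (ℓ ^ n) with hS
  -- step 2
  obtain ⟨w, hw⟩ := ms_congr S ((ℓ : ℤ) ^ M) (fun x => e x.1 * e x.2)
    (fun x => if ℓ ^ m ∣ x.1 ∧ ℓ ^ m ∣ x.2 then 1 else 0) (by
      intro x _
      by_cases hc : ℓ ^ m ∣ x.1 ∧ ℓ ^ m ∣ x.2
      · rw [if_pos hc]
        have h1 := he1 x.1 hc.1
        have h2 := he1 x.2 hc.2
        have h3 : e x.1 * e x.2 - 1 = e x.1 * (e x.2 - 1) + (e x.1 - 1) := by ring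
        rw [h3]
        exact dvd_add (Dvd.dvd.mul_left h2 _) h1
      · rw [if_neg hc, sub_zero]
        rw [not_and_or] at hc
        rcases hc with hc | hc
        · exact Dvd.dvd.mul_right (he0 _ hc) _
        · exact Dvd.dvd.mul_left (he0 _ hc) _) (fun x => h n x.1 x.2)
  have hT : ∑ x ∈ S, (e x.1 * e x.2) • h n x.1 x.2 = h m 0 0 + ((ℓ : ℤ) ^ M) • w := by
    rw [hw]
    congr 1
    rw [hS, Finset.sum_product, ← ms_dist hℓ h hdist m k]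
    refine Finset.sum_congr rfl fun i _ => Finset.sum_congr rfl fun j _ => ?_
    dsimp only
    split_ifs
    · rw [one_smul]
    · rw [zero_smul]
  -- step 3
  have h3 : ∀ q : ℕ, ∃ w : V, q ∈ s → ∑ x ∈ S,
      ((g q).eval ((q : ℤ) * x.1 + x.2)) • h n x.1 x.2 = ((ℓ : ℤ) ^ n) • w := by
    intro q
    by_cases hq : q ∈ s
    · obtain ⟨w, hw⟩ := ms_line hℓ (h n) n q (g q) (fun k => hline q (hsQ hq) n k)
      exact ⟨w, fun _ => hw⟩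
    · exact ⟨0, fun hq' => absurd hq' hq⟩
  choose w3 hw3 using h3
  have h4 : ((Δ * D ^ 2 : ℕ) : ℤ) • (h m 0 0 + ((ℓ : ℤ) ^ M) • w) =
      ((ℓ : ℤ) ^ n) • ∑ q ∈ s, w3 q := by
    rw [← hT, Finset.smul_sum, Finset.smul_sum, ← Finset.sum_congr rfl fun q hq => hw3 q hq,
      Finset.sum_comm]
    refine Finset.sum_congr rfl fun x _ => ?_
    rw [← Finset.sum_smul, ← hg, hAe, hAe, smul_smul]
    congr 1
    push_cast
    ring
  -- step 4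
  have h5 : ((Δ' : ℕ) : ℤ) • (h m 0 0 + ((ℓ : ℤ) ^ M) • w) =
      ((ℓ : ℤ) ^ (m + M)) • ∑ q ∈ s, w3 q := by
    have h6 : (ℓ ^ c) • (((Δ' : ℕ) : ℤ) • (h m 0 0 + ((ℓ : ℤ) ^ M) • w) -
        ((ℓ : ℤ) ^ (m + M)) • ∑ q ∈ s, w3 q) = 0 := by
      rw [← natCast_zsmul, smul_sub, smul_smul, smul_smul, sub_eq_zero]
      have e1 : ((ℓ ^ c : ℕ) : ℤ) * ((Δ' : ℕ) : ℤ) = ((Δ * D ^ 2 : ℕ) : ℤ) := by
        rw [hfac]
        push_cast
        ring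
      have e2 : ((ℓ ^ c : ℕ) : ℤ) * (ℓ : ℤ) ^ (m + M) = (ℓ : ℤ) ^ n := by
        push_cast
        rw [← pow_add, hn, hk]
        congr 1
        ring
      rw [e1, e2]
      exact h4
    exact sub_eq_zero.1 (htf _ _ (pow_ne_zero c hℓ0) h6)
  have hcop : IsCoprime ((Δ' : ℕ) : ℤ) ((ℓ : ℤ) ^ M) := by
    have h6 : Nat.Coprime Δ' (ℓ ^ M) :=
      Nat.Coprime.pow_right M ((Nat.Prime.coprime_iff_not_dvd hℓ).2 hΔ').symm
    have h7 := Nat.isCoprime_iff_coprime.2 h6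
    push_cast at h7
    exact h7
  obtain ⟨u, t, hut⟩ := hcop
  refine ⟨u • (((ℓ : ℤ) ^ m) • ∑ q ∈ s, w3 q - ((Δ' : ℕ) : ℤ) • w) + t • h m 0 0, ?_⟩
  rw [← natCast_zsmul]
  have h8 : ((Δ' : ℕ) : ℤ) • h m 0 0 = ((ℓ : ℤ) ^ M) •
      (((ℓ : ℤ) ^ m) • ∑ q ∈ s, w3 q - ((Δ' : ℕ) : ℤ) • w) := by
    rw [smul_sub, smul_smul, smul_smul, ← pow_add, add_comm M m, ← h5, smul_add, smul_smul,
      mul_comm ((ℓ : ℤ) ^ M), add_sub_cancel_right]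
  calc h m 0 0 = (u * ((Δ' : ℕ) : ℤ) + t * (ℓ : ℤ) ^ M) • h m 0 0 := by rw [hut, one_smul]
    _ = u • (((Δ' : ℕ) : ℤ) • h m 0 0) + (t * (ℓ : ℤ) ^ M) • h m 0 0 := by
        rw [add_smul, mul_smul]
    _ = u • (((ℓ : ℤ) ^ M) • (((ℓ : ℤ) ^ m) • ∑ q ∈ s, w3 q - ((Δ' : ℕ) : ℤ) • w)) +
        (t * (ℓ : ℤ) ^ M) • h m 0 0 := by rw [h8]
    _ = ((ℓ ^ M : ℕ) : ℤ) • (u • (((ℓ : ℤ) ^ m) • ∑ q ∈ s, w3 q - ((Δ' : ℕ) : ℤ) • w) +
        t • h m 0 0) := by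
        push_cast
        rw [smul_add, smul_comm u, smul_smul _ t, mul_comm t]

end Pool.Agent.PSF
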