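import Pool.Agent.PSF.Sym

/-!
# PSF-TSys: compatible systems of roots and the distribution relation

PLAN.
* `exists_roots`: `X n = u ^ ℓ ^ (m - n)` for `n ≤ m`; for `n ≥ m` choose successively `ℓ`-th roots (`hroot`:
  every radical has an `ℓ`-th root which is again a radical).
* `exists_zeta`: `Z 0 = 1`, `Z 1` a primitive `ℓ`-th root of unity, `Z (n + 1)` any `ℓ`-th root of `Z n`
  (it lies in `L`, since `L` contains all `ℓ ^ (n + 1)`-th roots of unity); it is primitive of order `ℓ ^ (n + 1)`.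
* `tdist`: `ω = Z (n + 1) ^ ℓ ^ n` is a primitive `ℓ`-th root of unity, and for `t = Z (n+1) ^ i X (n+1)`:
  `∏ a < ℓ, (1 - Z (n+1) ^ (i + a ℓ ^ n) X (n+1)) = ∏ a < ℓ, (1 - ω ^ a t) = 1 - t ^ ℓ = 1 - Z n ^ i X n`.
  All factors are nonzero (`X 0 ≠ 1`).  Then `prod_left`, `prod_right`.
-/

namespace Pool.Agent.PSF

universe u v

variable {ℓ : ℕ} {K L : Type u} [Field K] [Field L] [Algebra K L]

private theorem tsy_root (hroot : ∀ x : L, IsRadl ℓ K L x → ∃ y : L, y ^ ℓ = x) (x : L)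
    (hx : IsRadl ℓ K L x) : ∃ y : L, IsRadl ℓ K L y ∧ y ^ ℓ = x := by
  obtain ⟨y, hy⟩ := hroot x hx
  obtain ⟨n, c, hc⟩ := hx
  refine ⟨y, ⟨n + 1, c, ?_⟩, hy⟩
  rw [← hc, ← hy, ← pow_mul, pow_succ, mul_comm]

private theorem tsy_pow {x : L} (hx : IsRadl ℓ K L x) (m : ℕ) : IsRadl ℓ K L (x ^ m) := by
  obtain ⟨n, c, hc⟩ := hx
  refine ⟨n, c ^ m, ?_⟩
  rw [map_pow, ← hc, ← pow_mul, ← pow_mul, mul_comm]

theorem exists_roots (hℓ : ℓ.Prime)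
    (hroot : ∀ x : L, IsRadl ℓ K L x → ∃ y : L, y ^ ℓ = x) {u : L} (hu : IsRadl ℓ K L u) (m : ℕ) :
    ∃ X : ℕ → L, X m = u ∧ (∀ n, X (n + 1) ^ ℓ = X n) ∧ ∀ n, IsRadl ℓ K L (X n) := by
  have step := tsy_root hroot
  let F : ℕ → {x : L // IsRadl ℓ K L x} := fun n =>
    Nat.rec (motive := fun _ => {x : L // IsRadl ℓ K L x}) ⟨u, hu⟩
      (fun _ z => ⟨(step z.1 z.2).choose, (step z.1 z.2).choose_spec.1⟩) n
  have hF0 : (F 0).1 = u := rfl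
  have hF : ∀ n, (F (n + 1)).1 ^ ℓ = (F n).1 := fun n =>
    (step (F n).1 (F n).2).choose_spec.2
  have hFn : ∀ n, (F n).1 ^ ℓ ^ n = u := by
    intro n
    induction n with
    | zero => rw [pow_zero, pow_one, hF0]
    | succ n ih =>
      rw [pow_succ, mul_comm, pow_mul, hF, ih]
  refine ⟨fun n => (F n).1 ^ ℓ ^ m, hFn m, ?_, ?_⟩
  · intro n
    show ((F (n + 1)).1 ^ ℓ ^ m) ^ ℓ = (F n).1 ^ ℓ ^ m
    rw [← pow_mul, mul_comm, pow_mul, hF]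
  · intro n
    exact tsy_pow (F n).2 _

private theorem tsy_zstep (hℓ : ℓ.Prime) (hμ : ∀ M : ℕ, ∃ ζ : L, IsPrimitiveRoot ζ (ℓ ^ M))
    (n : ℕ) (z : L) (hz : IsPrimitiveRoot z (ℓ ^ n)) :
    ∃ y : L, IsPrimitiveRoot y (ℓ ^ (n + 1)) ∧ y ^ ℓ = z := by
  obtain ⟨ζ, hζ⟩ := hμ (n + 1)
  rcases Nat.eq_zero_or_pos n with rfl | hn
  · refine ⟨ζ, hζ, ?_⟩
    rw [pow_zero, IsPrimitiveRoot.one_right_iff] at hz
    rw [hz]
    have := hζ.pow_eq_one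
    rwa [zero_add, pow_one] at this
  · have hpos : 0 < ℓ ^ (n + 1) := pow_pos hℓ.pos _
    have h1 : IsPrimitiveRoot (ζ ^ ℓ) (ℓ ^ n) := hζ.pow hpos (by rw [pow_succ, mul_comm])
    have : NeZero (ℓ ^ n) := ⟨(pow_pos hℓ.pos _).ne'⟩
    obtain ⟨i, _, hi⟩ := h1.eq_pow_of_pow_eq_one hz.pow_eq_one
    have hy : (ζ ^ i) ^ ℓ = z := by
      rw [← hi, ← pow_mul, ← pow_mul, mul_comm]
    refine ⟨ζ ^ i, ?_, hy⟩
    have : Fact ℓ.Prime := ⟨hℓ⟩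
    have h2 : ¬ (ζ ^ i) ^ ℓ ^ n = 1 := by
      obtain ⟨k, rfl⟩ : ∃ k, n = k + 1 := ⟨n - 1, by omega⟩
      rw [pow_succ ℓ k, mul_comm, pow_mul, hy]
      apply hz.pow_ne_one_of_pos_of_lt (pow_pos hℓ.pos _).ne'
      exact Nat.pow_lt_pow_right hℓ.one_lt (by omega)
    have h3 : (ζ ^ i) ^ ℓ ^ (n + 1) = 1 := by
      rw [pow_succ ℓ n, mul_comm, pow_mul, hy, hz.pow_eq_one]
    have h4 := orderOf_eq_prime_pow h2 h3
    rw [← h4]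
    exact IsPrimitiveRoot.orderOf _

theorem exists_zeta (hℓ : ℓ.Prime) (hμ : ∀ M : ℕ, ∃ ζ : L, IsPrimitiveRoot ζ (ℓ ^ M)) :
    ∃ Z : ℕ → L, (∀ n, IsPrimitiveRoot (Z n) (ℓ ^ n)) ∧ ∀ n, Z (n + 1) ^ ℓ = Z n := by
  have step := tsy_zstep (L := L) hℓ hμ
  let F : (n : ℕ) → {z : L // IsPrimitiveRoot z (ℓ ^ n)} := fun n =>
    Nat.rec (motive := fun n => {z : L // IsPrimitiveRoot z (ℓ ^ n)})
      ⟨1, by rw [pow_zero, IsPrimitiveRoot.one_right_iff]⟩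
      (fun n z => ⟨(step n z.1 z.2).choose, (step n z.1 z.2).choose_spec.1⟩) n
  exact ⟨fun n => (F n).1, fun n => (F n).2, fun n => (step n (F n).1 (F n).2).choose_spec.2⟩

private theorem tsy_prod {ω : L} {m : ℕ} (hm : 0 < m) (hω : IsPrimitiveRoot ω m) (t : L) :
    ∏ a ∈ Finset.range m, (1 - ω ^ a * t) = 1 - t ^ m := by
  have h1 := X_pow_sub_C_eq_prod hω hm (α := t) (a := t ^ m) rfl
  have h2 := congrArg (Polynomial.eval 1) h1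
  rw [Polynomial.eval_prod] at h2
  simp only [Polynomial.eval_sub, Polynomial.eval_pow, Polynomial.eval_X, Polynomial.eval_C,
    one_pow] at h2
  exact h2.symm

private theorem tsy_fac (hℓ : ℓ.Prime) {Z X : ℕ → L}
    (hZ : ∀ n, IsPrimitiveRoot (Z n) (ℓ ^ n)) (hZ' : ∀ n, Z (n + 1) ^ ℓ = Z n)
    (hX : ∀ n, X (n + 1) ^ ℓ = X n) (n i : ℕ) :
    ∏ a ∈ Finset.range ℓ, (1 - Z (n + 1) ^ (i + a * ℓ ^ n) * X (n + 1)) = 1 - Z n ^ i * X n := by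
  have hω : IsPrimitiveRoot (Z (n + 1) ^ ℓ ^ n) ℓ :=
    (hZ (n + 1)).pow (pow_pos hℓ.pos _) (pow_succ ℓ n)
  have h1 := tsy_prod hℓ.pos hω (Z (n + 1) ^ i * X (n + 1))
  rw [mul_pow, hX, ← pow_mul, mul_comm i ℓ, pow_mul, hZ'] at h1
  rw [← h1]
  refine Finset.prod_congr rfl fun a _ => ?_
  rw [← mul_assoc, ← pow_mul, ← pow_add]
  congr 3
  ring

private theorem tsy_ne (hℓ : ℓ.Prime) {Z X : ℕ → L}
    (hZ : ∀ n, IsPrimitiveRoot (Z n) (ℓ ^ n))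
    (hX : ∀ n, X (n + 1) ^ ℓ = X n) (hX1 : X 0 ≠ 1) (n i : ℕ) : 1 - Z n ^ i * X n ≠ 0 := by
  intro h
  apply hX1
  have h1 : ∀ n, X n ^ ℓ ^ n = X 0 := by
    intro n
    induction n with
    | zero => rw [pow_zero, pow_one]
    | succ n ih => rw [pow_succ, mul_comm, pow_mul, hX, ih]
  have h2 : Z n ^ i * X n = 1 := (sub_eq_zero.1 h).symm
  have h3 := congrArg (fun x => x ^ ℓ ^ n) h2
  simp only [one_pow] at h3
  rw [mul_pow, h1, ← pow_mul, mul_comm i, pow_mul, (hZ n).pow_eq_one, one_pow, one_mul] at h3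
  exact h3

theorem tdist {V : Type v} [AddCommGroup V] (S : SymSys ℓ L V) (hℓ : ℓ.Prime) {Z X Y : ℕ → L}
    (hZ : ∀ n, IsPrimitiveRoot (Z n) (ℓ ^ n)) (hZ' : ∀ n, Z (n + 1) ^ ℓ = Z n)
    (hX : ∀ n, X (n + 1) ^ ℓ = X n) (hY : ∀ n, Y (n + 1) ^ ℓ = Y n) (hX1 : X 0 ≠ 1)
    (hY1 : Y 0 ≠ 1) (n i j : ℕ) :
    S.β (1 - Z n ^ i * X n) (1 - Z n ^ j * Y n) =
      ∑ a ∈ Finset.range ℓ, ∑ b ∈ Finset.range ℓ,
        S.β (1 - Z (n + 1) ^ (i + a * ℓ ^ n) * X (n + 1))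
          (1 - Z (n + 1) ^ (j + b * ℓ ^ n) * Y (n + 1)) := by
  have hx := tsy_ne hℓ hZ hX hX1
  have hy := tsy_ne hℓ hZ hY hY1
  have e1 := tsy_fac hℓ hZ hZ' hX n i
  have e2 := tsy_fac hℓ hZ hZ' hY n j
  rw [← e1, S.prod_left _ _ (fun a _ => hx (n + 1) _) (hy n j)]
  refine Finset.sum_congr rfl fun a _ => ?_
  rw [← e2, S.prod_right _ _ (fun b _ => hy (n + 1) _) (hx (n + 1) _)]

end Pool.Agent.PSF
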