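import Pool.Agent.PSF.TDiv
import Pool.Agent.PSF.TSys
import Pool.Agent.PSF.Meas

/-!
# PSF-Binom: all symbols `(1 - u, 1 - v)` of radicals vanish

Assembly: the line relations (`tline` with `q = p ^ e` in characteristic `p`, `tdiv` when `K` is `p`-divisible)
and the distribution relation (`tdist`) feed `meas_zero`; roots of unity are treated separately (`1 - u` is then
a root of unity in characteristic `p`, and lies in `K` in the second case).
-/

namespace Pool.Agent.PSF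

universe u v

/-- The assumption of the binomial theorem: `K` has positive characteristic, or `K` contains all
roots of unity of `ℓ`-power and of `p`-power order and `Kˣ` is `p`-divisible, for a prime `p ≠ ℓ`. -/
def HypP (ℓ : ℕ) (K : Type u) [Field K] : Prop :=
  (∃ p : ℕ, p.Prime ∧ CharP K p) ∨
    ((∀ n : ℕ, ∃ ζ : K, IsPrimitiveRoot ζ (ℓ ^ n)) ∧ ∃ p : ℕ, p.Prime ∧ p ≠ ℓ ∧
      (∀ a : K, ∃ b : K, b ^ p = a) ∧ ∀ n : ℕ, ∃ ζ : K, IsPrimitiveRoot ζ (p ^ n))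

variable {ℓ : ℕ} {K L : Type u} [Field K] [Field L] [Algebra K L]

private lemma rad_kill {V : Type v} [AddCommGroup V] (S : SymSys ℓ L V) (hℓ : ℓ.Prime)
    (hkill : ∀ c : K, c ≠ 0 → ∀ b : L, b ≠ 0 → S.β (algebraMap K L c) b = 0) {x : L}
    (hx : IsRadl ℓ K L x) (hx0 : x ≠ 0) {b : L} (hb : b ≠ 0) : S.β x b = 0 := by
  obtain ⟨n, c, hc⟩ := hx
  have hc0 : c ≠ 0 := by
    rintro rfl
    rw [map_zero] at hc
    exact pow_ne_zero _ hx0 hc
  apply S.torsionFree (ℓ ^ n) _ (pow_ne_zero n hℓ.ne_zero)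
  rw [← S.pow_left hx0 hb, hc]
  exact hkill c hc0 b hb

private lemma one_sub_torsion {p : ℕ} (hp : p.Prime) [CharP L p] {u : L} (hu1 : u ≠ 1) {r : ℕ}
    (hr : r ≠ 0) (h : u ^ r = 1) : ∃ t : ℕ, t ≠ 0 ∧ (1 - u) ^ t = 1 := by
  have : Fact p.Prime := ⟨hp⟩
  obtain ⟨a, r', hr', hrr⟩ := Nat.exists_eq_pow_mul_and_not_dvd hr p hp.ne_one
  have h1 : u ^ r' = 1 := by
    have h2 : (u ^ r' - 1) ^ p ^ a = 0 := by
      rw [sub_pow_char_pow, one_pow, ← pow_mul, mul_comm, ← hrr, h, sub_self]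
    exact sub_eq_zero.mp ((pow_eq_zero_iff (pow_ne_zero a hp.ne_zero)).mp h2)
  have hr0 : r' ≠ 0 := by
    rintro rfl
    exact hr' (dvd_zero p)
  have hcop : Nat.Coprime p r' := (Nat.Prime.coprime_iff_not_dvd hp).mpr hr'
  have h3 : p ^ r'.totient ≡ 1 [MOD r'] := Nat.ModEq.pow_totient hcop
  have h4 : u ^ p ^ r'.totient = u := by
    have h6 := pow_eq_pow_of_modEq h3 h1
    rwa [pow_one] at h6
  have h5 : (1 - u) ^ p ^ r'.totient = 1 - u := by
    rw [sub_pow_char_pow, one_pow, h4]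
  have h7 : 1 < p ^ r'.totient :=
    Nat.one_lt_pow (Nat.totient_pos.mpr (Nat.pos_of_ne_zero hr0)).ne' hp.one_lt
  have h8 : (1 : L) - u ≠ 0 := sub_ne_zero.mpr (Ne.symm hu1)
  refine ⟨p ^ r'.totient - 1, by omega, ?_⟩
  have h9 : (1 - u) ^ (p ^ r'.totient - 1) * (1 - u) = 1 * (1 - u) := by
    rw [← pow_succ, Nat.sub_add_cancel h7.le, h5, one_mul]
  exact mul_right_cancel₀ h8 h9

private lemma qinf {p : ℕ} (hp : p.Prime) {x y : L} (hx0 : x ≠ 0)
    (hx : ∀ r : ℕ, r ≠ 0 → x ^ r ≠ 1) :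
    {q : ℕ | ∃ e : ℕ, q = p ^ e ∧ x ^ q * y ≠ 1}.Infinite := by
  have key : ∀ e e' : ℕ, e < e' → x ^ p ^ e * y = 1 → x ^ p ^ e' * y = 1 → False := by
    intro e e' hlt h1 h2
    have hy : y ≠ 0 := by
      rintro rfl
      rw [mul_zero] at h1
      exact zero_ne_one h1
    have h3 : x ^ p ^ e' = x ^ p ^ e := mul_right_cancel₀ hy (h2.trans h1.symm)
    have h4 : p ^ e < p ^ e' := Nat.pow_lt_pow_right hp.one_lt hlt
    have h5 : x ^ (p ^ e' - p ^ e) * x ^ p ^ e = 1 * x ^ p ^ e := by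
      rw [← pow_add, Nat.sub_add_cancel h4.le, h3, one_mul]
    exact hx (p ^ e' - p ^ e) (by omega) (mul_right_cancel₀ (pow_ne_zero _ hx0) h5)
  have hfin : {e : ℕ | x ^ p ^ e * y = 1}.Finite := by
    apply Set.Subsingleton.finite
    intro e he e' he'
    rcases lt_trichotomy e e' with h | h | h
    · exact (key e e' h he he').elim
    · exact h
    · exact (key e' e h he' he).elim
  have hinf : {e : ℕ | x ^ p ^ e * y = 1}ᶜ.Infinite := hfin.infinite_compl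
  have himg := hinf.image (f := fun e => p ^ e) (Nat.pow_right_injective hp.two_le).injOn
  refine himg.mono ?_
  rintro _ ⟨e, he, rfl⟩
  exact ⟨e, rfl, he⟩

private lemma rootOfUnity_mem (hℓ : ℓ.Prime) (hz : ∀ n : ℕ, ∃ ζ : K, IsPrimitiveRoot ζ (ℓ ^ n))
    {u : L} (hu : IsRadl ℓ K L u) {s : ℕ} (hs : s ≠ 0) (h : u ^ s = 1) :
    ∃ c : K, u = algebraMap K L c := by
  obtain ⟨a, s', hs', hss⟩ := Nat.exists_eq_pow_mul_and_not_dvd hs ℓ hℓ.ne_one
  obtain ⟨m, c, hc⟩ := hu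
  obtain ⟨ζ, hζ⟩ := hz a
  have hu0 : u ≠ 0 := by
    rintro rfl
    rw [zero_pow hs] at h
    exact zero_ne_one h
  have hζL : IsPrimitiveRoot (algebraMap K L ζ) (ℓ ^ a) :=
    hζ.map_of_injective (algebraMap K L).injective
  have : NeZero (ℓ ^ a) := ⟨pow_ne_zero a hℓ.ne_zero⟩
  have h1 : (u ^ s') ^ ℓ ^ a = 1 := by rw [← pow_mul, mul_comm, ← hss, h]
  obtain ⟨i, -, hi⟩ := hζL.eq_pow_of_pow_eq_one h1
  have hcop : Nat.Coprime s' (ℓ ^ m) :=
    (Nat.Coprime.pow_left m ((Nat.Prime.coprime_iff_not_dvd hℓ).mpr hs')).symm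
  have hbez : (1 : ℤ) = s' * Nat.gcdA s' (ℓ ^ m) + (ℓ ^ m : ℕ) * Nat.gcdB s' (ℓ ^ m) := by
    rw [← Nat.gcd_eq_gcd_ab, hcop]
    rfl
  refine ⟨(ζ ^ i) ^ Nat.gcdA s' (ℓ ^ m) * c ^ Nat.gcdB s' (ℓ ^ m), ?_⟩
  rw [map_mul, map_zpow₀, map_zpow₀, map_pow, hi, ← hc, ← zpow_natCast, ← zpow_natCast, ← zpow_mul,
    ← zpow_mul, ← zpow_add₀ hu0, ← hbez, zpow_one]

private lemma sys_pow {X : ℕ → L} (hX : ∀ n, X (n + 1) ^ ℓ = X n) (n : ℕ) :
    X n ^ ℓ ^ n = X 0 := by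
  induction n with
  | zero => rw [pow_zero, pow_one]
  | succ n ih => rw [pow_succ', pow_mul, hX n, ih]

theorem binom (hℓ : ℓ.Prime) (hK : (ℓ : K) ≠ 0) {V : Type v} [AddCommGroup V] (S : SymSys ℓ L V)
    (hkill : ∀ c : K, c ≠ 0 → ∀ b : L, b ≠ 0 → S.β (algebraMap K L c) b = 0)
    (hroot : ∀ x : L, IsRadl ℓ K L x → ∃ y : L, y ^ ℓ = x)
    (hμ : ∀ M : ℕ, ∃ ζ : L, IsPrimitiveRoot ζ (ℓ ^ M)) (hP : HypP ℓ K) {u v : L}
    (hu : IsRadl ℓ K L u) (hv : IsRadl ℓ K L v) (hu1 : u ≠ 1) (hv1 : v ≠ 1) :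
    S.β (1 - u) (1 - v) = 0 := by
  classical
  have hu1' : (1 : L) - u ≠ 0 := sub_ne_zero.mpr (Ne.symm hu1)
  have hv1' : (1 : L) - v ≠ 0 := sub_ne_zero.mpr (Ne.symm hv1)
  by_cases hu0 : u = 0
  · rw [hu0, sub_zero]
    exact S.one_left hv1'
  by_cases hv0 : v = 0
  · rw [hv0, sub_zero]
    exact S.one_right hu1'
  have hrk : ∀ x : L, IsRadl ℓ K L x → x ≠ 0 → ∀ b : L, b ≠ 0 → S.β x b = 0 :=
    fun x hx hx0 b hb => rad_kill S hℓ hkill hx hx0 hb
  obtain ⟨m₁, x₁, hx₁⟩ := id hu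
  obtain ⟨m₂, y₁, hy₁⟩ := id hv
  set m : ℕ := m₁ + m₂ with hm
  obtain ⟨X, hXm, hXs, hXr⟩ := exists_roots hℓ hroot hu m
  obtain ⟨Y, hYm, hYs, hYr⟩ := exists_roots hℓ hroot hv m
  obtain ⟨Z, hZ, hZs⟩ := exists_zeta hℓ hμ
  have hX0 : X 0 = algebraMap K L (x₁ ^ ℓ ^ m₂) := by
    rw [← sys_pow hXs m, hXm, hm, pow_add, pow_mul, hx₁, map_pow]
  have hY0 : Y 0 = algebraMap K L (y₁ ^ ℓ ^ m₁) := by
    rw [← sys_pow hYs m, hYm, hm, add_comm, pow_add, pow_mul, hy₁, map_pow]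
  obtain ⟨x, hx⟩ : ∃ x : K, X 0 = algebraMap K L x := ⟨_, hX0⟩
  obtain ⟨y, hy⟩ : ∃ y : K, Y 0 = algebraMap K L y := ⟨_, hY0⟩
  clear hX0 hY0
  have hℓn : ∀ n : ℕ, ℓ ^ n ≠ 0 := fun n => pow_ne_zero n hℓ.ne_zero
  have hXpow : ∀ n, X n ^ ℓ ^ n = X 0 := sys_pow hXs
  have hYpow : ∀ n, Y n ^ ℓ ^ n = Y 0 := sys_pow hYs
  have hX0 : X 0 ≠ 0 := by
    rw [← hXpow m, hXm]
    exact pow_ne_zero _ hu0
  have hY0 : Y 0 ≠ 0 := by
    rw [← hYpow m, hYm]
    exact pow_ne_zero _ hv0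
  have hXn : ∀ n, X n ≠ 0 := by
    intro n h0
    apply hX0
    rw [← hXpow n, h0, zero_pow (hℓn n)]
  have hYn : ∀ n, Y n ≠ 0 := by
    intro n h0
    apply hY0
    rw [← hYpow n, h0, zero_pow (hℓn n)]
  have hper : ∀ n i, Z n ^ (i + ℓ ^ n) = Z n ^ i := by
    intro n i
    rw [pow_add, (hZ n).pow_eq_one, mul_one]
  have hXtor : (∀ r : ℕ, r ≠ 0 → u ^ r ≠ 1) → ∀ r : ℕ, r ≠ 0 → X 0 ^ r ≠ 1 := by
    intro hu' r hr h1
    rw [← hXpow m, hXm, ← pow_mul] at h1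
    exact hu' _ (mul_ne_zero (hℓn m) hr) h1
  have hYtor : (∀ r : ℕ, r ≠ 0 → v ^ r ≠ 1) → ∀ r : ℕ, r ≠ 0 → Y 0 ^ r ≠ 1 := by
    intro hv' r hr h1
    rw [← hYpow m, hYm, ← pow_mul] at h1
    exact hv' _ (mul_ne_zero (hℓn m) hr) h1
  have hkX1 : X 0 ≠ 1 → ∀ b : L, b ≠ 0 → S.β (1 - X 0) b = 0 := by
    intro h1 b hb
    have h2 : (1 : L) - X 0 = algebraMap K L (1 - x) := by rw [map_sub, map_one, hx]
    rw [h2]
    apply hkill _ _ b hb
    intro h3
    rw [h3, map_zero] at h2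
    exact h1 (sub_eq_zero.mp h2).symm
  have hkY1 : Y 0 ≠ 1 → ∀ b : L, b ≠ 0 → S.β (1 - Y 0) b = 0 := by
    intro h1 b hb
    have h2 : (1 : L) - Y 0 = algebraMap K L (1 - y) := by rw [map_sub, map_one, hy]
    rw [h2]
    apply hkill _ _ b hb
    intro h3
    rw [h3, map_zero] at h2
    exact h1 (sub_eq_zero.mp h2).symm
  have hfinish : S.β (1 - Z m ^ 0 * X m) (1 - Z m ^ 0 * Y m) = S.β (1 - u) (1 - v) := by
    rw [pow_zero, one_mul, one_mul, hXm, hYm]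
  rcases hP with ⟨p, hp, hchar⟩ | ⟨hμK, p, hp, hpℓ, hdiv, hμp⟩
  · -- positive characteristic
    have := hchar
    have : Fact p.Prime := ⟨hp⟩
    have hcharL : CharP L p := charP_of_injective_algebraMap (algebraMap K L).injective p
    by_cases hut : ∃ r : ℕ, r ≠ 0 ∧ u ^ r = 1
    · obtain ⟨r, hr, h1⟩ := hut
      obtain ⟨t, ht, h2⟩ := one_sub_torsion hp hu1 hr h1
      exact S.torsion_left hu1' hv1' ht h2
    by_cases hvt : ∃ r : ℕ, r ≠ 0 ∧ v ^ r = 1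
    · obtain ⟨r, hr, h1⟩ := hvt
      obtain ⟨t, ht, h2⟩ := one_sub_torsion hp hv1 hr h1
      exact S.torsion_right hu1' hv1' ht h2
    push Not at hut hvt
    have hXt := hXtor hut
    have hYt := hYtor hvt
    have hX1 : X 0 ≠ 1 := by
      have h1 := hXt 1 one_ne_zero
      rwa [pow_one] at h1
    have hY1 : Y 0 ≠ 1 := by
      have h1 := hYt 1 one_ne_zero
      rwa [pow_one] at h1
    have hpℓ : p ≠ ℓ := by
      rintro rfl
      exact hK (CharP.cast_eq_zero K p)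
    rw [← hfinish]
    refine meas_zero hℓ S.torsionFree S.sep
      (fun n i j => S.β (1 - Z n ^ i * X n) (1 - Z n ^ j * Y n)) ?_ ?_ ?_
      (qinf (y := Y 0) hp hX0 hXt) ?_ m
    · intro n i j
      simp only [hper]
    · intro n i j
      simp only [hper]
    · intro n i j
      exact tdist S hℓ hZ hZs hXs hYs hX1 hY1 n i j
    · rintro q ⟨e, rfl, hq⟩ n k
      refine tline S (Nat.pos_of_ne_zero (hℓn n)) (Nat.pos_of_ne_zero (pow_ne_zero e hp.ne_zero))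
        (Nat.Coprime.pow e n ((Nat.coprime_primes hp hℓ).mpr hpℓ)) ?_ (hZ n) (hXn n) (hYn n) ?_ ?_
        ?_ ?_ ?_ ?_ k
      · intro t
        rw [sub_pow_char_pow, one_pow]
      · rw [hXpow]
        exact hX1
      · rw [hYpow]
        exact hY1
      · rw [hXpow, hYpow]
        exact hq
      · exact hrk _ (hXr n) (hXn n)
      · rw [hXpow]
        exact hkX1 hX1
      · rw [hYpow]
        exact hkY1 hY1
  · -- the divisible case
    have hlem : ∀ w : L, IsRadl ℓ K L w → w ≠ 1 → (∃ r : ℕ, r ≠ 0 ∧ w ^ r = 1) →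
        ∀ b : L, b ≠ 0 → S.β (1 - w) b = 0 := by
      rintro w hw hw1 ⟨r, hr, h1⟩ b hb
      obtain ⟨c, hc⟩ := rootOfUnity_mem hℓ hμK hw hr h1
      have h2 : (1 : L) - w = algebraMap K L (1 - c) := by rw [map_sub, map_one, hc]
      rw [h2]
      apply hkill _ _ b hb
      intro h3
      rw [h3, map_zero] at h2
      exact hw1 (sub_eq_zero.mp h2).symm
    by_cases hut : ∃ r : ℕ, r ≠ 0 ∧ u ^ r = 1
    · exact hlem u hu hu1 hut _ hv1'
    by_cases hvt : ∃ r : ℕ, r ≠ 0 ∧ v ^ r = 1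
    · rw [S.symm hu1' hv1', hlem v hv hv1 hvt _ hu1', neg_zero]
    push Not at hut hvt
    have hXt := hXtor hut
    have hYt := hYtor hvt
    have hX1 : X 0 ≠ 1 := by
      have h1 := hXt 1 one_ne_zero
      rwa [pow_one] at h1
    have hY1 : Y 0 ≠ 1 := by
      have h1 := hYt 1 one_ne_zero
      rwa [pow_one] at h1
    have hdivp : ∀ (e : ℕ) (a : K), ∃ b : K, b ^ p ^ e = a := by
      intro e
      induction e with
      | zero => exact fun a => ⟨a, by rw [pow_zero, pow_one]⟩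
      | succ e ih =>
        intro a
        obtain ⟨b, hb⟩ := hdiv a
        obtain ⟨c, hc⟩ := ih b
        exact ⟨c, by rw [pow_succ, pow_mul, hc, hb]⟩
    rw [← hfinish]
    refine meas_zero hℓ S.torsionFree S.sep
      (fun n i j => S.β (1 - Z n ^ j * X n) (1 - Z n ^ i * Y n)) ?_ ?_ ?_
      (qinf (y := X 0) hp hY0 hYt) ?_ m
    · intro n i j
      simp only [hper]
    · intro n i j
      simp only [hper]
    · intro n i j
      have h1 := tdist S hℓ hZ hZs hXs hYs hX1 hY1 n j i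
      rw [Finset.sum_comm] at h1
      exact h1
    · rintro q ⟨e, rfl, hq⟩ n k
      obtain ⟨z, hz⟩ := hdivp e x
      obtain ⟨η, hη⟩ := hμp e
      have hηL : IsPrimitiveRoot (algebraMap K L η) (p ^ e) :=
        hη.map_of_injective (algebraMap K L).injective
      have hpe : p ^ e ≠ 0 := pow_ne_zero e hp.ne_zero
      have hzL : (algebraMap K L z) ^ p ^ e = X 0 := by rw [← map_pow, hz, hx]
      have hz0 : algebraMap K L z ≠ 0 := by
        intro h0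
        rw [h0, zero_pow hpe] at hzL
        exact hX0 hzL.symm
      have hη0 : algebraMap K L η ≠ 0 := hηL.ne_zero hpe
      have h1 := tdiv S (Nat.pos_of_ne_zero (hℓn n)) (Nat.pos_of_ne_zero hpe)
        (Nat.Coprime.pow e n ((Nat.coprime_primes hp hℓ).mpr hpℓ)) (X := X n) (Y := Y n)
        (z := algebraMap K L z) (hZ n) hηL (hXn n) (hYn n) (by rw [hXpow]; exact hX1)
        (by rw [hYpow]; exact hY1) (by rw [hXpow, hYpow, mul_comm]; exact hq)
        (by rw [hXpow]; exact hzL) ?_ ?_ (by rw [hYpow]; exact hkY1 hY1) k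
      · rw [Finset.sum_comm] at h1
        refine Eq.trans ?_ h1
        refine Finset.sum_congr rfl fun i _ => Finset.sum_congr rfl fun j _ => ?_
        rw [add_comm]
      · intro a b hb
        have h2 : (1 : L) - algebraMap K L η ^ a * algebraMap K L z =
            algebraMap K L (1 - η ^ a * z) := by
          rw [map_sub, map_one, map_mul, map_pow]
        rw [h2]
        apply hkill _ _ b hb
        intro h3
        rw [h3, map_zero] at h2
        have h4 : algebraMap K L η ^ a * algebraMap K L z = 1 := (sub_eq_zero.mp h2).symm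
        apply hX1
        have h5 : (algebraMap K L η ^ a * algebraMap K L z) ^ p ^ e = 1 := by rw [h4, one_pow]
        rwa [mul_pow, ← pow_mul, mul_comm a, pow_mul, hηL.pow_eq_one, one_pow, one_mul, hzL] at h5
      · intro a W hW b hb
        refine hrk W ⟨n, η ^ a * z, ?_⟩ ?_ b hb
        · rw [hW, map_mul, map_pow]
        · rintro rfl
          rw [zero_pow (hℓn n)] at hW
          exact mul_ne_zero (pow_ne_zero a hη0) hz0 hW.symm

end Pool.Agent.PSF
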