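import Mathlib

/-!
# Project PSF: Kummer cocycles modulo coboundaries of finite level (definitions)

`Ω / L` is a Galois extension with `Ω` separably closed, `G = Gal(Ω / L) = Ω ≃ₐ[L] Ω`.
-/

namespace Pool.Agent.PSF

open Polynomial

universe u

section

variable {L Ω : Type u} [Field L] [Field Ω] [Algebra L Ω]

/-- The Kummer character: `g α = ζ ^ (kc n ζ a g) * α` for all `α` with `α ^ n = a`, with
`kc n ζ a g < n`. -/
noncomputable def kc (n : ℕ) (ζ a : L) (g : Ω ≃ₐ[L] Ω) : ℕ :=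
  open Classical in
  if h : ∃ k : ℕ, k < n ∧ ∀ α : Ω, α ^ n = algebraMap L Ω a → g α = algebraMap L Ω ζ ^ k * α
  then Classical.choose h else 0

/-- A cochain of finite level: `c g` only depends on the restriction of `g` to a finite
subextension. -/
def FinLevel (c : (Ω ≃ₐ[L] Ω) → Ωˣ) : Prop :=
  ∃ E : IntermediateField L Ω, FiniteDimensional L E ∧
    ∀ g g' : Ω ≃ₐ[L] Ω, (∀ x ∈ E, g x = g' x) → c g = c g'

/-- The action of `G` on the units of `Ω`. -/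
def act (g : Ω ≃ₐ[L] Ω) : Ωˣ →* Ωˣ := Units.map (g : Ω →* Ω)

@[simp] lemma act_val (g : Ω ≃ₐ[L] Ω) (x : Ωˣ) : ((act g x : Ωˣ) : Ω) = g (x : Ω) := rfl

/-- The coboundary of a `1`-cochain. -/
def cob (c : (Ω ≃ₐ[L] Ω) → Ωˣ) : (Ω ≃ₐ[L] Ω) → (Ω ≃ₐ[L] Ω) → Ωˣ :=
  fun g h => c g * act g (c h) * (c (g * h))⁻¹

lemma FinLevel.one : FinLevel (fun _ : Ω ≃ₐ[L] Ω => (1 : Ωˣ)) :=
  ⟨⊥, inferInstance, fun _ _ _ => rfl⟩

lemma FinLevel.mul {c d : (Ω ≃ₐ[L] Ω) → Ωˣ} (hc : FinLevel c) (hd : FinLevel d) :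
    FinLevel (fun g => c g * d g) := by
  obtain ⟨E, hE, h⟩ := hc
  obtain ⟨E', hE', h'⟩ := hd
  refine ⟨E ⊔ E', inferInstance, fun g g' hg => ?_⟩
  dsimp only
  rw [h g g' fun x hx => hg x ((le_sup_left : E ≤ E ⊔ E') hx),
    h' g g' fun x hx => hg x ((le_sup_right : E' ≤ E ⊔ E') hx)]

lemma FinLevel.inv {c : (Ω ≃ₐ[L] Ω) → Ωˣ} (hc : FinLevel c) : FinLevel (fun g => (c g)⁻¹) := by
  obtain ⟨E, hE, h⟩ := hc
  refine ⟨E, hE, fun g g' hg => ?_⟩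
  dsimp only
  rw [h g g' hg]

variable (L Ω) in
/-- The group of coboundaries of cochains of finite level. -/
def Bsub : Subgroup ((Ω ≃ₐ[L] Ω) → (Ω ≃ₐ[L] Ω) → Ωˣ) where
  carrier := {f | ∃ c, FinLevel c ∧ f = cob c}
  mul_mem' := by
    rintro f f' ⟨c, hc, rfl⟩ ⟨d, hd, rfl⟩
    refine ⟨_, hc.mul hd, ?_⟩
    funext g h
    simp only [Pi.mul_apply, cob, map_mul, mul_inv]
    ac_rfl
  one_mem' := ⟨_, FinLevel.one, by funext g h; simp [cob]⟩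
  inv_mem' := by
    rintro f ⟨c, hc, rfl⟩
    refine ⟨_, hc.inv, ?_⟩
    funext g h
    simp only [Pi.inv_apply, cob, map_inv, mul_inv]

variable (L Ω) in
/-- Functions `G × G → Ωˣ` modulo coboundaries of finite level, written additively. -/
def H2 : Type u := Additive (((Ω ≃ₐ[L] Ω) → (Ω ≃ₐ[L] Ω) → Ωˣ) ⧸ Bsub L Ω)

noncomputable instance : AddCommGroup (H2 L Ω) :=
  inferInstanceAs (AddCommGroup (Additive (((Ω ≃ₐ[L] Ω) → (Ω ≃ₐ[L] Ω) → Ωˣ) ⧸ Bsub L Ω)))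

variable (L Ω) in
/-- The class of a function. -/
def mkH : Additive ((Ω ≃ₐ[L] Ω) → (Ω ≃ₐ[L] Ω) → Ωˣ) →+ H2 L Ω :=
  MonoidHom.toAdditive (QuotientGroup.mk' (Bsub L Ω))

lemma mkH_eq_zero {f : (Ω ≃ₐ[L] Ω) → (Ω ≃ₐ[L] Ω) → Ωˣ} :
    mkH L Ω (Additive.ofMul f) = 0 ↔ ∃ c, FinLevel c ∧ f = cob c :=
  QuotientGroup.eq_one_iff (N := Bsub L Ω) f

variable (Ω) in
/-- The unit of `Ω` given by `ζ ∈ L`. -/
noncomputable def zu (ζ : L) : Ωˣ :=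
  open Classical in
  if h : algebraMap L Ω ζ = 0 then 1 else Units.mk0 (algebraMap L Ω ζ) h

variable (Ω) in
/-- The Kummer cocycle of the symbol `(a, b)_ζ`. -/
noncomputable def cocy (n : ℕ) (ζ a b : L) : (Ω ≃ₐ[L] Ω) → (Ω ≃ₐ[L] Ω) → Ωˣ :=
  fun g h => zu Ω ζ ^ (kc n ζ b g * kc n ζ a h)

variable (Ω) in
/-- The class of the Kummer cocycle. -/
noncomputable def cls (n : ℕ) (ζ a b : L) : H2 L Ω :=
  mkH L Ω (Additive.ofMul (cocy Ω n ζ a b))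

variable (L Ω) in
/-- Compatible sequences: `v 0 = 0`, `v M = ℓ • v (M + 1)`. -/
def Vsub (ℓ : ℕ) : AddSubgroup (ℕ → H2 L Ω) where
  carrier := {v | v 0 = 0 ∧ ∀ M, v M = ℓ • v (M + 1)}
  add_mem' := by
    rintro v w ⟨hv, hv'⟩ ⟨hw, hw'⟩
    refine ⟨by rw [Pi.add_apply, hv, hw, add_zero], fun M => ?_⟩
    rw [Pi.add_apply, Pi.add_apply, hv' M, hw' M, smul_add]
  zero_mem' := ⟨rfl, fun M => by simp⟩
  neg_mem' := by
    rintro v ⟨hv, hv'⟩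
    refine ⟨by rw [Pi.neg_apply, hv, neg_zero], fun M => ?_⟩
    rw [Pi.neg_apply, Pi.neg_apply, hv' M, smul_neg]

variable (Ω) in
/-- `b` is a norm from the Kummer algebra `L[X] / (X ^ n - a)`, with `σ X = ζ X`. -/
def NormCond (n : ℕ) (ζ a b : L) : Prop :=
  ∃ z : L[X], ∀ α : Ω, α ^ n = algebraMap L Ω a →
    ∏ i ∈ Finset.range n, aeval (algebraMap L Ω ζ ^ i * α) z = algebraMap L Ω b

end

end Pool.Agent.PSF
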