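import Pool.Agent.PSF.CohDefs
import Pool.Agent.Helper26.CyclicAlgebra

/-!
# PSF-CritA: the norm condition splits the cyclic algebra

`isSplit_of_kumNorm` is applied to the class of `z`. The homomorphisms from the Kummer algebra to `Ω` given by
the roots `α` of `X ^ n - a` send `σ^i z` to `z (ζ⁻ⁱ α)`, so the norm to `b`; they are jointly injective as
`X ^ n - a` is the product of the different linear factors `X - ζ ^ j α`.
-/

namespace Pool.Agent.PSF

open Pool.Agent.Helper26 Polynomial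

universe u

variable {L Ω : Type u} [Field L] [Field Ω] [Algebra L Ω]

/-- the homomorphism from the Kummer algebra given by a root -/
private noncomputable def kev {n : ℕ} {a : L} (α : Ω) (h : α ^ n = algebraMap L Ω a) :
    Kum n a →ₐ[L] Ω :=
  AdjoinRoot.liftAlgHom (X ^ n - C a : L[X]) (Algebra.ofId L Ω) α (by
    rw [eval₂_sub, eval₂_pow, eval₂_X, eval₂_C, h]
    exact sub_self _)

private theorem kev_root {n : ℕ} {a : L} (α : Ω) (h : α ^ n = algebraMap L Ω a) :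
    kev α h (AdjoinRoot.root (X ^ n - C a : L[X])) = α := by
  rw [kev, AdjoinRoot.liftAlgHom_root]

private theorem kev_mk {n : ℕ} {a : L} (α : Ω) (h : α ^ n = algebraMap L Ω a) (W : L[X]) :
    kev α h (AdjoinRoot.mk (X ^ n - C a : L[X]) W) = aeval α W := by
  rw [← AdjoinRoot.aeval_eq, ← aeval_algHom_apply, kev_root]

private theorem kev_norm {n : ℕ} {ζ a : L} (hζ : ζ ^ n = 1) (α : Ω)
    (h : α ^ n = algebraMap L Ω a) (z : L[X]) :
    kev α h (kumNorm hζ (AdjoinRoot.mk (X ^ n - C a : L[X]) z) n) =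
      ∏ i ∈ Finset.range n, aeval ((algebraMap L Ω ζ)⁻¹ ^ i * α) z := by
  rw [kumNorm, map_prod]
  refine Finset.prod_congr rfl fun i _ => ?_
  rw [← AdjoinRoot.aeval_eq, ← aeval_algHom_apply, ← aeval_algHom_apply, AlgHom.coe_pow,
    kumSigma_iter_root, map_smul, kev_root, Algebra.smul_def, map_pow, map_inv₀]

theorem isSplit_of_normCond [IsSepClosed Ω] {n : ℕ} (hn : (n : L) ≠ 0) {ζ : L}
    (hζ : IsPrimitiveRoot ζ n) {a b : L} (ha : a ≠ 0) (hb : b ≠ 0) (h : NormCond Ω n ζ a b) :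
    IsSplit n ζ a b := by
  classical
  obtain ⟨z, hz⟩ := h
  have hn0 : 0 < n := Nat.pos_of_ne_zero (by rintro rfl; simp at hn)
  refine isSplit_of_kumNorm hn0 hζ hn ha hb (AdjoinRoot.mk _ z) ?_
  have hζΩ : IsPrimitiveRoot (algebraMap L Ω ζ) n :=
    hζ.map_of_injective (algebraMap L Ω).injective
  have hζ0 : algebraMap L Ω ζ ≠ 0 := hζΩ.ne_zero hn0.ne'
  have hnΩ : NeZero (n : Ω) := ⟨by
    rw [← map_natCast (algebraMap L Ω) n]
    exact (_root_.map_ne_zero _).2 hn⟩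
  obtain ⟨α₀, hα₀⟩ := IsSepClosed.exists_pow_nat_eq (algebraMap L Ω a) n
  have hα0 : α₀ ≠ 0 := by
    rintro rfl
    rw [zero_pow hn0.ne'] at hα₀
    exact ha ((map_eq_zero (algebraMap L Ω)).1 hα₀.symm)
  -- the value of the norm at a root
  have key : ∀ (α : Ω) (hα : α ^ n = algebraMap L Ω a),
      kev α hα (kumNorm hζ.pow_eq_one (AdjoinRoot.mk (X ^ n - C a : L[X]) z) n) =
        algebraMap L Ω b := by
    intro α hα
    have h1 : ((algebraMap L Ω ζ)⁻¹ ^ (n - 1) * α) ^ n = algebraMap L Ω a := by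
      rw [mul_pow, hα, ← pow_mul, mul_comm (n - 1) n, pow_mul, inv_pow, hζΩ.pow_eq_one, inv_one,
        one_pow, one_mul]
    have h2 := hz _ h1
    rw [kev_norm, ← h2, ← Finset.prod_range_reflect]
    refine Finset.prod_congr rfl fun i hi => ?_
    have hi' := Finset.mem_range.1 hi
    have h3 : (algebraMap L Ω ζ)⁻¹ ^ (n - 1) =
        (algebraMap L Ω ζ)⁻¹ ^ (n - 1 - i) * (algebraMap L Ω ζ)⁻¹ ^ i := by
      rw [← pow_add]
      congr 1
      omega
    have h4 : (algebraMap L Ω ζ) ^ i * (algebraMap L Ω ζ)⁻¹ ^ i = 1 := by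
      rw [← mul_pow, mul_inv_cancel₀ hζ0, one_pow]
    have h5 : (algebraMap L Ω ζ) ^ i * ((algebraMap L Ω ζ)⁻¹ ^ (n - 1) * α) =
        (algebraMap L Ω ζ)⁻¹ ^ (n - 1 - i) * α := by
      rw [h3]
      calc _ = (algebraMap L Ω ζ)⁻¹ ^ (n - 1 - i) *
            ((algebraMap L Ω ζ) ^ i * (algebraMap L Ω ζ)⁻¹ ^ i) * α := by ring
        _ = _ := by rw [h4, mul_one]
    rw [h5]
  rw [← sub_eq_zero]
  obtain ⟨W, hW⟩ := AdjoinRoot.mk_surjective (kumNorm hζ.pow_eq_one
    (AdjoinRoot.mk (X ^ n - C a : L[X]) z) n - algebraMap L (Kum n a) b)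
  have hWα : ∀ α : Ω, α ^ n = algebraMap L Ω a → aeval α W = 0 := by
    intro α hα
    rw [← kev_mk α hα W, hW, map_sub, key α hα, AlgHom.commutes, sub_self]
  rw [← hW, AdjoinRoot.mk_eq_zero, ← map_dvd_map' (algebraMap L Ω)]
  have h6 : (X ^ n - C a : L[X]).map (algebraMap L Ω) =
      ∏ i ∈ Finset.range n, (X - C (algebraMap L Ω ζ ^ i * α₀)) := by
    rw [Polynomial.map_sub, Polynomial.map_pow, map_X, map_C]
    exact X_pow_sub_C_eq_prod hζΩ hn0 hα₀
  rw [h6]
  refine Finset.prod_dvd_of_coprime ?_ ?_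
  · intro i hi j hj hij
    refine isCoprime_X_sub_C_of_isUnit_sub (IsUnit.mk0 _ (sub_ne_zero.2 fun h7 => hij ?_))
    exact hζΩ.pow_inj (Finset.mem_range.1 hi) (Finset.mem_range.1 hj) (mul_right_cancel₀ hα0 h7)
  · intro i _
    rw [dvd_iff_isRoot, IsRoot.def, eval_map_algebraMap]
    apply hWα
    rw [mul_pow, hα₀, ← pow_mul, mul_comm i n, pow_mul, hζΩ.pow_eq_one, one_pow, one_mul]

end Pool.Agent.PSF
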