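import Pool.Agent.PSF.CohDefs
import Pool.Agent.Helper26.CyclicAlgebra

/-!
# PSF-CritB: split cyclic algebras satisfy the norm condition

PLAN.  Let `U, V ∈ M_n(L)` be the images of the generators: `U ^ n = a`, `V ^ n = b`,
`U V = ζ V U`; both are invertible.
1. If `p ∈ L[X]`, `deg p < n`, `p(U) = 0` then `p = 0`: conjugation by powers of `V` gives
   `∑ i, ζ ^ (i j) p_i U ^ i = 0` for all `j < n`; multiply by `ζ ^ (-j k)` and sum over `j`:
   `n p_k U ^ k = 0`.
2. Let `α ^ n = a` in `Ω` and `π_j := ∑ i < n, (ζ ^ j α) ^ (-i) U ^ i ∈ M_n(Ω)` (`j < n`).  By 1 (over `Ω`: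
   the powers `U ^ i`, `i < n`, are linearly independent over `L`, hence over `Ω`) `π_j ≠ 0`, so
   `W_j := {e ∈ L^n | π_j e = 0}` is a proper `L`-subspace (`π_j` kills a basis otherwise).
   `L` is infinite (assumption), so there is `e ∈ L^n` outside all `W_j`
   (a vector space over an infinite field is not a finite union of proper subspaces:
   `Subspace.biUnion_ne_univ_of_top_notMem` or similar).
3. `e, U e, …, U^(n-1) e` is a basis of `L^n`: a relation `q(U) e = 0`, `deg q < n`, gives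
   `0 = π_j q(U) e = q(ζ ^ j α) π_j e` (as `U π_j = ζ ^ j α π_j`), so `q(ζ ^ j α) = 0` for all `j < n` and
   `q = 0`.  So `V e = z(U) e` for some `z ∈ L[X]`.
4. `V^k e = ∏ i < k, z(ζ^(-i) U) e` by induction (`V U = ζ⁻¹ U V`), so
   `b e = V^n e = N(U) e` with `N = ∏ i < n, z(ζ^(-i) X)`; applying `π_j`:
   `b π_j e = N(ζ ^ j α) π_j e`, so `∏ i < n, z(ζ^(j-i) α) = b`; with `j = 0` and the
   permutation `i ↦ n - i` this is `NormCond` for `α`; same for every other root.
-/

namespace Pool.Agent.PSF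

open Pool.Agent.Helper26

universe u

variable {L Ω : Type u} [Field L] [Field Ω] [Algebra L Ω]

section aux

open Polynomial

private lemma comm_aeval {A : Type u} [Ring A] [Algebra L A] {U V : A} {ζ : L} (h0 : ζ ≠ 0)
    (h : U * V = ζ • (V * U)) (p : L[X]) :
    V * aeval U p = aeval U (p.comp (C ζ⁻¹ * X)) * V := by
  have h1 : V * U = ζ⁻¹ • (U * V) := by
    rw [h, smul_smul, inv_mul_cancel₀ h0, one_smul]
  have h2 : ∀ k : ℕ, V * U ^ k = (ζ⁻¹ ^ k) • (U ^ k * V) := by
    intro k
    induction k with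
    | zero => simp
    | succ k ih =>
      rw [pow_succ, ← mul_assoc, ih, smul_mul_assoc, mul_assoc, h1, mul_smul_comm, smul_smul,
        ← mul_assoc, ← pow_succ, ← pow_succ]
  induction p using Polynomial.induction_on' with
  | add p q hp hq => rw [map_add, mul_add, hp, hq, add_comp, map_add, add_mul]
  | monomial k c =>
    rw [monomial_comp, mul_pow, ← C_pow, ← mul_assoc, ← C_mul, aeval_monomial, map_mul, aeval_C,
      map_pow, aeval_X, ← Algebra.smul_def, ← Algebra.smul_def, mul_smul_comm, h2, smul_smul,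
      smul_mul_assoc]

private lemma comp_C_mul_comp (z : L[X]) (r s : L) :
    (z.comp (C r * X)).comp (C s * X) = z.comp (C (r * s) * X) := by
  rw [comp_assoc, mul_comp, C_comp, X_comp, ← mul_assoc, ← C_mul]

private lemma n_le_of_aeval {A : Type u} [Ring A] [Nontrivial A] [Algebra L A] {n : ℕ}
    (hn : 0 < n) {ζ : L} (hζ : IsPrimitiveRoot ζ n) {a : L} (ha : a ≠ 0) {U V : A}
    (hU : U ^ n = algebraMap L A a) (hV : IsUnit V) (h : U * V = ζ • (V * U)) {q : L[X]}
    (hq : q ≠ 0) (hqU : aeval U q = 0) : n ≤ q.natDegree := by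
  have h0 : ζ ≠ 0 := hζ.ne_zero hn.ne'
  have hint : IsIntegral L U := by
    refine ⟨X ^ n - C a, monic_X_pow_sub_C a hn.ne', ?_⟩
    rw [← aeval_def, map_sub, map_pow, aeval_X, aeval_C, hU, sub_self]
  have hmon := minpoly.monic hint
  have hdiv : minpoly L U ∣ (minpoly L U).comp (C ζ⁻¹ * X) := by
    apply minpoly.dvd
    have h1 := comm_aeval h0 h (minpoly L U)
    rw [minpoly.aeval, mul_zero] at h1
    exact hV.mul_left_eq_zero.mp h1.symm
  have hdeg : ((minpoly L U).comp (C ζ⁻¹ * X)).natDegree = (minpoly L U).natDegree := by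
    rw [natDegree_comp, natDegree_C_mul_X _ (inv_ne_zero h0), mul_one]
  have hlc : ((minpoly L U).comp (C ζ⁻¹ * X)).leadingCoeff = ζ⁻¹ ^ (minpoly L U).natDegree := by
    rw [leadingCoeff, hdeg, comp_C_mul_X_coeff, coeff_natDegree, hmon.leadingCoeff, one_mul]
  have heq := eq_leadingCoeff_mul_of_monic_of_dvd_of_natDegree_le hmon hdiv hdeg.le
  have h0' : (minpoly L U).coeff 0 ≠ 0 := by
    intro h0'
    have hX : (X : L[X]) ∣ X ^ n - C a := by
      refine (X_dvd_iff.mpr h0').trans (minpoly.dvd L U ?_)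
      rw [map_sub, map_pow, aeval_X, aeval_C, hU, sub_self]
    rw [X_dvd_iff, coeff_sub, coeff_X_pow, coeff_C_zero, if_neg hn.ne, zero_sub,
      neg_eq_zero] at hX
    exact ha hX
  have hone : ζ⁻¹ ^ (minpoly L U).natDegree = 1 := by
    have h3 := congrArg (fun p : L[X] => p.coeff 0) heq
    simp only [comp_C_mul_X_coeff, pow_zero, mul_one, coeff_C_mul, hlc] at h3
    exact mul_right_cancel₀ h0' (by rw [one_mul, ← h3])
  have hone' : ζ ^ (minpoly L U).natDegree = 1 := by
    rw [inv_pow, inv_eq_one] at hone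
    exact hone
  have hle : n ≤ (minpoly L U).natDegree :=
    Nat.le_of_dvd (minpoly.natDegree_pos hint) ((hζ.pow_eq_one_iff_dvd _).mp hone')
  exact hle.trans (natDegree_le_of_dvd (minpoly.dvd L U hqU) hq)

private lemma exists_vec [Infinite L] {E : Type u} [AddCommGroup E] [Module L E] {n : ℕ}
    (hn : 0 < n) (a : L) (U : Module.End L E)
    (hU : U ^ n = algebraMap L (Module.End L E) a)
    (hmin : ∀ q : L[X], q ≠ 0 → aeval U q = 0 → n ≤ q.natDegree) :
    ∃ e : E, ∀ q : L[X], aeval U q e = 0 → (X ^ n - C a) ∣ q := by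
  classical
  have hm0 : (X ^ n - C a : L[X]) ≠ 0 := (monic_X_pow_sub_C a hn.ne').ne_zero
  have hmd : (X ^ n - C a : L[X]).natDegree = n := natDegree_X_pow_sub_C
  have hch : ∀ π : L[X], ∃ d : L[X],
      π ∈ UniqueFactorizationMonoid.normalizedFactors (X ^ n - C a) → X ^ n - C a = π * d := by
    intro π
    by_cases h : π ∈ UniqueFactorizationMonoid.normalizedFactors (X ^ n - C a)
    · obtain ⟨d, hd⟩ := UniqueFactorizationMonoid.dvd_of_mem_normalizedFactors h
      exact ⟨d, fun _ => hd⟩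
    · exact ⟨0, fun h' => absurd h' h⟩
  choose d hd using hch
  have hne : ∀ π ∈ UniqueFactorizationMonoid.normalizedFactors (X ^ n - C a),
      aeval U (d π) ≠ 0 := by
    intro π hπ h0
    have h1 := hd π hπ
    have hd0 : d π ≠ 0 := by
      intro h
      rw [h, mul_zero] at h1
      exact hm0 h1
    have hirr := UniqueFactorizationMonoid.irreducible_of_normalized_factor π hπ
    have h2 := hmin (d π) hd0 h0
    have h3 : (X ^ n - C a : L[X]).natDegree = π.natDegree + (d π).natDegree := by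
      rw [h1, natDegree_mul hirr.ne_zero hd0]
    have h4 := hirr.natDegree_pos
    omega
  have hnotmem : (⊤ : Submodule L E) ∉
      (UniqueFactorizationMonoid.normalizedFactors (X ^ n - C a)).toFinset.image
        (fun π => LinearMap.ker (aeval U (d π))) := by
    intro hmem
    rw [Finset.mem_image] at hmem
    obtain ⟨π, hπ, hk⟩ := hmem
    rw [Multiset.mem_toFinset] at hπ
    exact hne π hπ (LinearMap.ker_eq_top.mp hk)
  have hcov := Subspace.biUnion_ne_univ_of_top_notMem hnotmem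
  obtain ⟨e, he⟩ := (Set.ne_univ_iff_exists_notMem _).mp hcov
  have he' : ∀ π ∈ UniqueFactorizationMonoid.normalizedFactors (X ^ n - C a),
      aeval U (d π) e ≠ 0 := by
    intro π hπ h0
    apply he
    simp only [Set.mem_iUnion]
    refine ⟨LinearMap.ker (aeval U (d π)), ?_, ?_⟩
    · exact Finset.mem_image.mpr ⟨π, Multiset.mem_toFinset.mpr hπ, rfl⟩
    · exact LinearMap.mem_ker.mpr h0
  refine ⟨e, fun q hq => ?_⟩
  have hm : aeval U (X ^ n - C a : L[X]) = 0 := by
    rw [map_sub, map_pow, aeval_X, aeval_C, hU, sub_self]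
  have hg : aeval U (EuclideanDomain.gcd q (X ^ n - C a)) e = 0 := by
    rw [EuclideanDomain.gcd_eq_gcd_ab, mul_comm q, mul_comm (X ^ n - C a : L[X]), map_add,
      map_mul, map_mul, hm, mul_zero, add_zero, Module.End.mul_apply, hq, map_zero]
  obtain ⟨h, hh⟩ := EuclideanDomain.gcd_dvd_right q (X ^ n - C a)
  by_cases hu : IsUnit h
  · have h1 : (X ^ n - C a : L[X]) ∣ EuclideanDomain.gcd q (X ^ n - C a) := by
      obtain ⟨w, rfl⟩ := hu
      exact ⟨((w⁻¹ : (L[X])ˣ) : L[X]), by
        conv_rhs => rw [hh]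
        rw [mul_assoc, Units.mul_inv, mul_one]⟩
    exact h1.trans (EuclideanDomain.gcd_dvd_left _ _)
  · exfalso
    have hh0 : h ≠ 0 := by
      intro h0
      rw [h0, mul_zero] at hh
      exact hm0 hh
    obtain ⟨p, hp, hpd⟩ := WfDvdMonoid.exists_irreducible_factor hu hh0
    have hpm : p ∣ X ^ n - C a := by
      rw [hh]
      exact hpd.mul_left _
    obtain ⟨π, hπ, hass⟩ := UniqueFactorizationMonoid.exists_mem_normalizedFactors_of_dvd hm0 hp hpm
    obtain ⟨h', hh'⟩ := hass.symm.dvd.trans hpd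
    have hirr := UniqueFactorizationMonoid.irreducible_of_normalized_factor π hπ
    have h5 : d π = EuclideanDomain.gcd q (X ^ n - C a) * h' := by
      apply mul_left_cancel₀ hirr.ne_zero
      rw [← hd π hπ]
      conv_lhs => rw [hh, hh']
      ring
    apply he' π hπ
    rw [h5, mul_comm, map_mul, Module.End.mul_apply, hg, map_zero]

private lemma exists_poly_of_vec {n : ℕ} (hn : 0 < n) (a : L)
    (U : Module.End L (Fin n → L)) (e : Fin n → L)
    (he : ∀ q : L[X], aeval U q e = 0 → (X ^ n - C a) ∣ q) (w : Fin n → L) :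
    ∃ z : L[X], aeval U z e = w := by
  have hdeg : (X ^ n - C a : L[X]).degree = n := degree_X_pow_sub_C hn a
  set g : (Fin n → L) →ₗ[L] (Fin n → L) :=
    (LinearMap.applyₗ e ∘ₗ (aeval U : L[X] →ₐ[L] Module.End L (Fin n → L)).toLinearMap) ∘ₗ
      (degreeLT L n).subtype ∘ₗ (degreeLTEquiv L n).symm.toLinearMap with hg
  have hga : ∀ c, g c = aeval U ((degreeLTEquiv L n).symm c : L[X]) e := fun c => rfl
  have hinj : Function.Injective g := by
    rw [injective_iff_map_eq_zero]
    intro c hc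
    rw [hga] at hc
    have h1 := he _ hc
    have h2 : (((degreeLTEquiv L n).symm c : degreeLT L n) : L[X]) = 0 := by
      by_contra hne
      have h3 := degree_le_of_dvd h1 hne
      rw [hdeg] at h3
      exact absurd (mem_degreeLT.mp ((degreeLTEquiv L n).symm c).2) (not_lt.mpr h3)
    have h3 : (degreeLTEquiv L n).symm c = 0 := Subtype.ext h2
    rwa [LinearEquiv.map_eq_zero_iff] at h3
  obtain ⟨c, hc⟩ := (LinearMap.injective_iff_surjective.mp hinj) w
  exact ⟨_, by rw [← hga, hc]⟩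

private lemma pow_apply_eq {E : Type u} [AddCommGroup E] [Module L E] {U V : Module.End L E}
    {ζ : L} (h0 : ζ ≠ 0) (h : U * V = ζ • (V * U)) {e : E} {z : L[X]}
    (hz : aeval U z e = V e) (k : ℕ) :
    (V ^ k) e = aeval U (∏ i ∈ Finset.range k, z.comp (C (ζ⁻¹ ^ i) * X)) e := by
  induction k with
  | zero => simp
  | succ k ih =>
    have h1 : (∏ i ∈ Finset.range (k + 1), z.comp (C (ζ⁻¹ ^ i) * X)) =
        (∏ i ∈ Finset.range k, z.comp (C (ζ⁻¹ ^ i) * X)).comp (C ζ⁻¹ * X) * z := by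
      rw [Finset.prod_range_succ', prod_comp, pow_zero, C_1, one_mul, comp_X]
      refine congrArg (fun t => t * z) (Finset.prod_congr rfl fun i _ => ?_)
      rw [comp_C_mul_comp, ← pow_succ]
    rw [pow_succ', Module.End.mul_apply, ih, ← Module.End.mul_apply, comm_aeval h0 h, h1,
      Module.End.mul_apply, map_mul, Module.End.mul_apply, hz]

end aux

open Polynomial in
theorem normCond_of_isSplit [Infinite L] [IsSepClosed Ω] {n : ℕ} (hn : (n : L) ≠ 0) {ζ : L}
    (hζ : IsPrimitiveRoot ζ n) {a b : L} (ha : a ≠ 0) (hb : b ≠ 0) (h : IsSplit n ζ a b) :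
    NormCond Ω n ζ a b := by
  obtain ⟨φ⟩ := h
  have hn0 : 0 < n := by
    rcases Nat.eq_zero_or_pos n with h | h
    · rw [h, Nat.cast_zero] at hn
      exact absurd rfl hn
    · exact h
  have _ : NeZero n := ⟨hn0.ne'⟩
  have hζ0 : ζ ≠ 0 := hζ.ne_zero hn0.ne'
  set ψ : CyclicAlgebra n ζ a b ≃ₐ[L] Module.End L (Fin n → L) :=
    φ.trans Matrix.toLinAlgEquiv' with hψ
  set U : Module.End L (Fin n → L) := ψ (genU n ζ a b) with hUdef
  set V : Module.End L (Fin n → L) := ψ (genV n ζ a b) with hVdef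
  have hU : U ^ n = algebraMap L _ a := by
    rw [hUdef, ← map_pow, genU_pow, AlgEquiv.commutes]
  have hV : V ^ n = algebraMap L _ b := by
    rw [hVdef, ← map_pow, genV_pow, AlgEquiv.commutes]
  have hUV : U * V = ζ • (V * U) := by
    rw [hUdef, hVdef, ← map_mul, genU_mul_genV, map_smul, map_mul]
  have hVu : IsUnit V := by
    apply (isUnit_pow_iff hn0.ne').mp
    rw [hV]
    exact (IsUnit.mk0 b hb).map (algebraMap L (Module.End L (Fin n → L)))
  obtain ⟨e, he⟩ := exists_vec hn0 a U hU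
    (fun q hq hqU => n_le_of_aeval hn0 hζ ha hU hVu hUV hq hqU)
  obtain ⟨z, hz⟩ := exists_poly_of_vec hn0 a U e he (V e)
  have hk := pow_apply_eq hζ0 hUV hz n
  have hdvd : (X ^ n - C a : L[X]) ∣
      (∏ i ∈ Finset.range n, z.comp (C (ζ⁻¹ ^ i) * X)) - C b := by
    apply he
    rw [map_sub, LinearMap.sub_apply, ← hk, hV, aeval_C, sub_self]
  refine ⟨z, fun α hα => ?_⟩
  have hζΩ : algebraMap L Ω ζ ^ n = 1 := by rw [← map_pow, hζ.pow_eq_one, map_one]
  have key : ∀ β : Ω, β ^ n = algebraMap L Ω a →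
      ∏ i ∈ Finset.range n, aeval (algebraMap L Ω (ζ⁻¹ ^ i) * β) z = algebraMap L Ω b := by
    intro β hβ
    obtain ⟨r, hr⟩ := hdvd
    have h1 := congrArg (aeval β) hr
    rw [map_sub, map_prod, map_mul, aeval_C, map_sub, map_pow, aeval_X, aeval_C, hβ, sub_self,
      zero_mul, sub_eq_zero] at h1
    rw [← h1]
    refine Finset.prod_congr rfl fun i _ => ?_
    rw [aeval_comp, map_mul, aeval_C, aeval_X]
  have hz0 : algebraMap L Ω ζ ≠ 0 := by
    rw [Ne, map_eq_zero]
    exact hζ0
  have h2 := key (algebraMap L Ω ζ ^ (n - 1) * α) (by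
    rw [mul_pow, ← pow_mul, mul_comm (n - 1), pow_mul, hζΩ, one_pow, one_mul, hα])
  rw [← h2, ← Finset.prod_range_reflect]
  refine Finset.prod_congr rfl fun i hi => ?_
  rw [Finset.mem_range] at hi
  have h3 : algebraMap L Ω ζ ^ (n - 1) = algebraMap L Ω ζ ^ i * algebraMap L Ω ζ ^ (n - 1 - i) := by
    rw [← pow_add]
    exact congrArg _ (by omega)
  have h4 : algebraMap L Ω (ζ⁻¹ ^ i) * (algebraMap L Ω ζ ^ (n - 1) * α) =
      algebraMap L Ω ζ ^ (n - 1 - i) * α := by
    rw [h3, map_pow, map_inv₀, ← mul_assoc, ← mul_assoc, inv_pow,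
      inv_mul_cancel₀ (pow_ne_zero _ hz0), one_mul]
  rw [h4]

end Pool.Agent.PSF
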