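import Pool.Agent.PSF.Defs

/-!
# PSF-ExtP: elements of `F(C)` when a power of `C` lies in `F`

Elementary facts about `ext F C` and the description of its elements as polynomials in `C`
(`exists_poly`).
-/

namespace Pool.Agent.PSF

universe u

variable {K L : Type u} [Field K] [Field L] [Algebra K L]

lemma le_ext (F : IntermediateField K L) (C : L) : F ≤ ext F C := by
  exact fun x hx => IntermediateField.subset_adjoin K _ (Set.mem_insert_of_mem C hx)

lemma self_mem_ext (F : IntermediateField K L) (C : L) : C ∈ ext F C := by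
  exact IntermediateField.subset_adjoin K _ (Set.mem_insert C _)

lemma ext_le {F E : IntermediateField K L} {C : L} (hF : F ≤ E) (hC : C ∈ E) : ext F C ≤ E := by
  unfold ext
  rw [IntermediateField.adjoin_le_iff]
  exact Set.insert_subset hC hF

lemma ext_eq_of_mem {F : IntermediateField K L} {C : L} (hC : C ∈ F) : ext F C = F := by
  exact le_antisymm (ext_le le_rfl hC) (le_ext F C)

/-- Transport to an ambient field. -/
lemma coe_mem_adjoin {E : IntermediateField K L} {C x : E}
    (hx : x ∈ ext (⊥ : IntermediateField K E) C) :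
    (x : L) ∈ IntermediateField.adjoin K {(C : L)} := by
  have h : ext (⊥ : IntermediateField K E) C ≤
      (IntermediateField.adjoin K {(C : L)}).comap E.val :=
    ext_le bot_le (IntermediateField.subset_adjoin K {(C : L)} (Set.mem_singleton _))
  exact h hx

lemma adjoin_le_ext (C : L) :
    IntermediateField.adjoin K {C} = ext (⊥ : IntermediateField K L) C := by
  refine le_antisymm ?_ ?_
  · rw [IntermediateField.adjoin_le_iff]
    exact Set.singleton_subset_iff.2 (self_mem_ext _ _)
  · exact ext_le bot_le (IntermediateField.subset_adjoin K _ (Set.mem_singleton _))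

theorem exists_poly {F : IntermediateField K L} {C : L} {n : ℕ} (hn : 0 < n) (hC : C ^ n ∈ F)
    {z : L} (hz : z ∈ ext F C) :
    ∃ x : ℕ → L, (∀ i, x i ∈ F) ∧ z = ∑ i ∈ Finset.range n, x i * C ^ i := by
  set q : Polynomial F := Polynomial.X ^ n - Polynomial.C ⟨C ^ n, hC⟩ with hq
  have hqm : q.Monic := Polynomial.monic_X_pow_sub_C _ hn.ne'
  have hq0 : Polynomial.aeval C q = 0 := by
    rw [hq, map_sub, map_pow, Polynomial.aeval_X, Polynomial.aeval_C]
    exact sub_self _
  have hint : IsIntegral F C := ⟨q, hqm, by rwa [Polynomial.aeval_def] at hq0⟩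
  have h1 : ext F C ≤ (IntermediateField.adjoin F {C}).restrictScalars K := by
    refine ext_le ?_ ?_
    · intro x hx
      exact (IntermediateField.adjoin F {C}).algebraMap_mem ⟨x, hx⟩
    · exact IntermediateField.subset_adjoin F _ (Set.mem_singleton _)
  have h2 : z ∈ (IntermediateField.adjoin F {C}).toSubalgebra := h1 hz
  rw [IntermediateField.adjoin_simple_toSubalgebra_of_isAlgebraic hint.isAlgebraic,
    Algebra.adjoin_singleton_eq_range_aeval] at h2
  obtain ⟨p, rfl⟩ := h2
  refine ⟨fun i => ((p %ₘ q).coeff i : L), fun i => ((p %ₘ q).coeff i).2, ?_⟩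
  have h3 : Polynomial.aeval C p = Polynomial.aeval C (p %ₘ q) := by
    conv_lhs => rw [← Polynomial.modByMonic_add_div p q]
    rw [map_add, map_mul, hq0, zero_mul, add_zero]
  have h4 : (p %ₘ q).natDegree < n := by
    have h5 := Polynomial.natDegree_modByMonic_lt p hqm (by
      intro h
      have h6 : q.natDegree = n := Polynomial.natDegree_X_pow_sub_C
      rw [h, Polynomial.natDegree_one] at h6
      exact hn.ne h6)
    rwa [Polynomial.natDegree_X_pow_sub_C] at h5
  change Polynomial.aeval C p = _
  rw [h3, Polynomial.aeval_eq_sum_range' h4]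
  exact Finset.sum_congr rfl fun i _ => rfl

end Pool.Agent.PSF
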