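import Pool.Agent.PSF.Sym
import Pool.Agent.PSF.ExtP

/-!
# PSF-Cyc1: the cyclic case of the first layer

PLAN.  `F = ⊥`, `C ^ ℓ ∈ ⊥`.  Induction principle `hlin ⊥ C` for `x`, then for `y`:
`β c y = 0` for `c ∈ ⊥` (`hkill`), `β x c = 0` by `S.symm`, and for `a, b ∈ ⊥`: `β (C - a) (C - b)` is
`β y y = 0` if `a = b`, and otherwise `β (a - b) (C - b) - β (a - b) (C - a) = 0` (`S.sub_sub`, `hkill`).
-/

namespace Pool.Agent.PSF

universe u v

variable {ℓ : ℕ} {K E : Type u} [Field K] [Field E] [Algebra K E] {V : Type v} [AddCommGroup V]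

theorem cyc_one (S : SymSys ℓ E V) (hlin : LinGen ℓ K E)
    (hkill : ∀ c : K, c ≠ 0 → ∀ b : E, b ≠ 0 → S.β (algebraMap K E c) b = 0) {C : E}
    (hC : InB K E (C ^ ℓ)) {x y : E} (hx : x ∈ ext (⊥ : IntermediateField K E) C)
    (hy : y ∈ ext (⊥ : IntermediateField K E) C) (hx0 : x ≠ 0) (hy0 : y ≠ 0) : S.β x y = 0 := by
  have hCl : C ^ ℓ ∈ (⊥ : IntermediateField K E) := by
    obtain ⟨c, hc⟩ := hC
    rw [hc]
    exact IntermediateField.algebraMap_mem _ c
  have hk1 : ∀ a ∈ (⊥ : IntermediateField K E), a ≠ 0 → ∀ b : E, b ≠ 0 → S.β a b = 0 := by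
    intro a ha ha0 b hb
    obtain ⟨c, rfl⟩ := IntermediateField.mem_bot.mp ha
    exact hkill c (by rintro rfl; exact ha0 (map_zero _)) b hb
  have hk2 : ∀ a ∈ (⊥ : IntermediateField K E), a ≠ 0 → ∀ b : E, b ≠ 0 → S.β b a = 0 := by
    intro a ha ha0 b hb
    rw [S.symm hb ha0, hk1 a ha ha0 b hb, neg_zero]
  have hgen : ∀ a ∈ (⊥ : IntermediateField K E), C - a ≠ 0 →
      ∀ z ∈ ext (⊥ : IntermediateField K E) C, z ≠ 0 → S.β (C - a) z = 0 := by
    intro a ha ha0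
    refine hlin ⊥ C hCl (fun z => S.β (C - a) z = 0) ?_ ?_ ?_ ?_
    · intro z hz hz0
      exact hk2 z hz hz0 _ ha0
    · intro b hb hb0
      show S.β (C - a) (C - b) = 0
      by_cases hab : a = b
      · rw [hab]
        exact S.self hb0
      · have h0 : a - b ≠ 0 := sub_ne_zero.mpr hab
        have h1 : a - b ∈ (⊥ : IntermediateField K E) := sub_mem ha hb
        rw [S.sub_sub ha0 hb0 hab, hk1 _ h1 h0 _ hb0, hk1 _ h1 h0 _ ha0, sub_zero]
    · intro z z' hz hz' h1 h2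
      show S.β (C - a) (z * z') = 0
      rw [S.mul_right ha0 hz hz']
      rw [show S.β (C - a) z = 0 from h1, show S.β (C - a) z' = 0 from h2, add_zero]
    · intro z hz h1
      show S.β (C - a) z⁻¹ = 0
      rw [S.inv_right ha0 hz, show S.β (C - a) z = 0 from h1, neg_zero]
  refine hlin ⊥ C hCl (fun z => S.β z y = 0) ?_ ?_ ?_ ?_ x hx hx0
  · intro z hz hz0
    exact hk1 z hz hz0 _ hy0
  · intro a ha ha0
    exact hgen a ha ha0 y hy hy0
  · intro z z' hz hz' h1 h2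
    show S.β (z * z') y = 0
    rw [S.mul_left hz hz' hy0]
    rw [show S.β z y = 0 from h1, show S.β z' y = 0 from h2, add_zero]
  · intro z hz h1
    show S.β z⁻¹ y = 0
    rw [S.inv_left hz hy0, show S.β z y = 0 from h1, neg_zero]

end Pool.Agent.PSF
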