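import Pool.Agent.PSF.Defs
import Pool.Agent.PSF.ExtP

/-!
# PSF-CycK: cyclic subextensions of Kummer extensions are generated by one radical

The fixed field of `H` is Galois over `K` with group the quotient by `H`, which is cyclic of order
dividing `n`; Kummer theory (`exists_root_adjoin_eq_top_of_isCyclic`) gives the generator.
-/

namespace Pool.Agent.PSF

universe u

private theorem ck_cyc {n : ℕ} {G : Type u} [Group G] (hexp : ∀ g : G, g ^ n = 1) (H : Subgroup G) [H.Normal]
    (hH : ∃ g, H ⊔ Subgroup.zpowers g = ⊤) :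
    IsCyclic (G ⧸ H) ∧ Nat.card (G ⧸ H) ∣ n := by
  obtain ⟨g, hg⟩ := hH
  have h1 : IsCyclic (G ⧸ H) := by
    refine ⟨⟨QuotientGroup.mk' H g, fun y => ?_⟩⟩
    obtain ⟨x, rfl⟩ := QuotientGroup.mk'_surjective H y
    have hx : x ∈ H ⊔ Subgroup.zpowers g := by
      rw [hg]
      exact Subgroup.mem_top x
    have h2 : QuotientGroup.mk' H x ∈ (H ⊔ Subgroup.zpowers g).map (QuotientGroup.mk' H) :=
      Subgroup.mem_map_of_mem _ hx
    rw [Subgroup.map_sup, QuotientGroup.map_mk'_self, bot_sup_eq, MonoidHom.map_zpowers] at h2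
    exact h2
  refine ⟨h1, ?_⟩
  rw [← IsCyclic.exponent_eq_card]
  refine Monoid.exponent_dvd_of_forall_pow_eq_one fun y => ?_
  obtain ⟨x, rfl⟩ := QuotientGroup.mk'_surjective H y
  rw [← map_pow, hexp, map_one]

theorem exists_gen {n : ℕ} (hn : 0 < n) {K E : Type u} [Field K] [Field E] [Algebra K E]
    [FiniteDimensional K E] [IsGalois K E] (hcomm : ∀ g h : E ≃ₐ[K] E, g * h = h * g)
    (hexp : ∀ g : E ≃ₐ[K] E, g ^ n = 1) {ζ : K} (hζ : IsPrimitiveRoot ζ n)
    (H : Subgroup (E ≃ₐ[K] E)) (hH : ∃ g, H ⊔ Subgroup.zpowers g = ⊤) :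
    ∃ C : E, InB K E (C ^ n) ∧
      ∀ x ∈ IntermediateField.fixedField H, x ∈ ext (⊥ : IntermediateField K E) C := by
  have hN : H.Normal := ⟨fun h hh g => by rwa [hcomm g h, mul_assoc, mul_inv_cancel, mul_one]⟩
  obtain ⟨h1, h2⟩ := ck_cyc hexp H hH
  have e := IsGalois.normalAutEquivQuotient H
  have h3 : IsCyclic ((IntermediateField.fixedField H) ≃ₐ[K] (IntermediateField.fixedField H)) :=
    isCyclic_of_surjective e e.surjective
  have h4 : Module.finrank K (IntermediateField.fixedField H) ∣ n := by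
    rw [← IsGalois.card_aut_eq_finrank, ← Nat.card_congr e.toEquiv]
    exact h2
  have h5 : (primitiveRoots (Module.finrank K (IntermediateField.fixedField H)) K).Nonempty := by
    obtain ⟨k, hk⟩ := h4
    refine ⟨ζ ^ k, (mem_primitiveRoots Module.finrank_pos).2 ?_⟩
    exact hζ.pow hn (by rw [hk, mul_comm])
  obtain ⟨α, ⟨c, hc⟩, hα⟩ := exists_root_adjoin_eq_top_of_isCyclic K
    (IntermediateField.fixedField H) h5
  refine ⟨(α : E), ?_, fun x hx => ?_⟩
  · obtain ⟨k, hk⟩ := h4
    refine ⟨c ^ k, ?_⟩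
    have h6 : α ^ n = algebraMap K (IntermediateField.fixedField H) (c ^ k) := by
      rw [map_pow, hc, ← pow_mul, ← hk]
    have h7 := congrArg (fun y : IntermediateField.fixedField H => (y : E)) h6
    exact h7
  · rw [← adjoin_le_ext]
    have h8 : (⟨x, hx⟩ : IntermediateField.fixedField H) ∈ IntermediateField.adjoin K {α} := by
      rw [hα]
      exact IntermediateField.mem_top
    have h9 : ((IntermediateField.fixedField H).val ⟨x, hx⟩) ∈
        (IntermediateField.adjoin K {α}).map (IntermediateField.fixedField H).val :=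
      ⟨_, h8, rfl⟩
    rw [IntermediateField.adjoin_map, Set.image_singleton] at h9
    exact h9

end Pool.Agent.PSF
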