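import Mathlib

/-!
# Project PSF: symbol systems over a field
-/

namespace Pool.Agent.PSF

universe u v

/-- A symbol system over the field `L` with values in the torsion free abelian group `V`: a map
`β`, bimultiplicative on nonzero elements, satisfying the Steinberg relation; `V` is `ℓ`-adically
separated. -/
structure SymSys (ℓ : ℕ) (L : Type u) [Field L] (V : Type v) [AddCommGroup V] where
  /-- the symbol -/
  β : L → L → V
  mul_left : ∀ {a a' b : L}, a ≠ 0 → a' ≠ 0 → b ≠ 0 → β (a * a') b = β a b + β a' b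
  mul_right : ∀ {a b b' : L}, a ≠ 0 → b ≠ 0 → b' ≠ 0 → β a (b * b') = β a b + β a b'
  steinberg : ∀ {a b : L}, a ≠ 0 → b ≠ 0 → a + b = 1 → β a b = 0
  torsionFree : ∀ (n : ℕ) (v : V), n ≠ 0 → n • v = 0 → v = 0
  sep : ∀ v : V, (∀ M : ℕ, ∃ w : V, v = (ℓ ^ M) • w) → v = 0

/-- Restriction of a symbol system along a homomorphism of fields. -/
def SymSys.comap {ℓ : ℕ} {L : Type u} [Field L] {V : Type v} [AddCommGroup V]
    (S : SymSys ℓ L V) {E : Type*} [Field E] (ι : E →+* L) : SymSys ℓ E V where
  β x y := S.β (ι x) (ι y)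
  mul_left ha ha' hb := by
    rw [map_mul]
    exact S.mul_left (by simpa using ha) (by simpa using ha') (by simpa using hb)
  mul_right ha hb hb' := by
    rw [map_mul]
    exact S.mul_right (by simpa using ha) (by simpa using hb) (by simpa using hb')
  steinberg ha hb hab := S.steinberg (by simpa using ha) (by simpa using hb) (by
    rw [← map_add, hab, map_one])
  torsionFree := S.torsionFree
  sep := S.sep

variable (ℓ : ℕ) (K L : Type u) [Field K] [Field L] [Algebra K L]

/-- `x ∈ L` lies in the image of `K`. -/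
def InB (x : L) : Prop := ∃ c : K, x = algebraMap K L c

/-- `x ∈ L` is a radical over `K`: some `ℓ ^ n`-th power of `x` lies in `K`. -/
def IsRadl (x : L) : Prop := ∃ n : ℕ, InB K L (x ^ ℓ ^ n)

variable {K L}

/-- The field `F(C)`, for an intermediate field `F` of `L / K` and `C` in `L`. -/
def ext (F : IntermediateField K L) (C : L) : IntermediateField K L :=
  IntermediateField.adjoin K (insert C (F : Set L))

variable (K L)

/-- Generation by linear polynomials: if `C ^ ℓ ∈ F` then the group `F(C)ˣ` is generated by `Fˣ`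
and the elements `C - a`, `a ∈ F` (stated as an induction principle). -/
def LinGen : Prop :=
  ∀ (F : IntermediateField K L) (C : L), C ^ ℓ ∈ F → ∀ P : L → Prop,
    (∀ x ∈ F, x ≠ 0 → P x) → (∀ a ∈ F, C - a ≠ 0 → P (C - a)) →
    (∀ x y, x ≠ 0 → y ≠ 0 → P x → P y → P (x * y)) → (∀ x, x ≠ 0 → P x → P x⁻¹) →
    ∀ z ∈ ext F C, z ≠ 0 → P z

/-- The three cases in which `LinGen` is known. -/
def Lin (ℓ : ℕ) (K : Type u) [Field K] : Prop :=
  ℓ = 2 ∨ ℓ = 3 ∨ ∀ f : Polynomial K, Irreducible f → ∃ k : ℕ, f.natDegree = ℓ ^ k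

end Pool.Agent.PSF
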