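import Pool.Agent.PSF.Kc

/-!
# PSF-F1: norms give coboundaries

Let `α ^ n = a`, `γ ^ n = b` in `Ω`, `z ∈ L[X]` as in `NormCond` and
`e k = ∏ i ∈ range k, z(ζ ^ i α)`.  The cochain `c g = γ ^ k_g / e(k_g)`, `k_g = kc n ζ a g`, is of
finite level and its coboundary is the Kummer cocycle.
-/

namespace Pool.Agent.PSF

universe u

variable {L Ω : Type u} [Field L] [Field Ω] [Algebra L Ω]

open Polynomial Finset

private lemma f1_zu [IsSepClosed Ω] {n : ℕ} (hn : (n : L) ≠ 0) {ζ : L} (hζ : IsPrimitiveRoot ζ n) :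
    ((zu Ω ζ : Ωˣ) : Ω) = algebraMap L Ω ζ := by
  have hn0 : n ≠ 0 := by rintro rfl; exact hn Nat.cast_zero
  have h : algebraMap L Ω ζ ≠ 0 := by
    rw [Ne, map_eq_zero_iff _ (algebraMap L Ω).injective]
    exact hζ.ne_zero hn0
  unfold zu
  rw [dif_neg h]
  rfl

theorem cls_eq_zero_of_norm [IsSepClosed Ω] {n : ℕ} (hn : (n : L) ≠ 0) {ζ : L}
    (hζ : IsPrimitiveRoot ζ n) {a b : L} (ha : a ≠ 0) (hb : b ≠ 0) (h : NormCond Ω n ζ a b) :
    cls Ω n ζ a b = 0 := by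
  have hn0 : n ≠ 0 := by rintro rfl; exact hn Nat.cast_zero
  have hinj := (algebraMap L Ω).injective
  obtain ⟨z, hz⟩ := h
  obtain ⟨α, hα⟩ := exists_root hn (algebraMap L Ω a)
  obtain ⟨γ, hγ⟩ := exists_root hn (algebraMap L Ω b)
  have hb' : algebraMap L Ω b ≠ 0 := by rwa [Ne, map_eq_zero_iff _ hinj]
  have hγ0 : γ ≠ 0 := by
    rintro rfl
    rw [zero_pow hn0] at hγ
    exact hb' hγ.symm
  have hZ : algebraMap L Ω ζ ^ n = 1 := by rw [← map_pow, hζ.pow_eq_one, map_one]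
  -- the partial norms
  obtain ⟨e, he⟩ : ∃ e : ℕ → Ω, ∀ k, e k = ∏ i ∈ range k, aeval (algebraMap L Ω ζ ^ i * α) z :=
    ⟨_, fun _ => rfl⟩
  have hen : e n = algebraMap L Ω b := by rw [he]; exact hz α hα
  have hg1 : ∀ (g : Ω ≃ₐ[L] Ω) (i : ℕ), g (aeval (algebraMap L Ω ζ ^ i * α) z) =
      aeval (algebraMap L Ω ζ ^ (kc n ζ a g + i) * α) z := by
    intro g i
    have h1 := (kc_spec hn hζ ha g).2 α hα
    have h2 : g (algebraMap L Ω ζ ^ i * α) = algebraMap L Ω ζ ^ (kc n ζ a g + i) * α := by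
      rw [map_mul, map_pow, AlgEquiv.commutes, h1, pow_add]
      ring
    rw [← h2]
    exact (Polynomial.aeval_algHom_apply (g : Ω →ₐ[L] Ω) _ z).symm
  have hg : ∀ (g : Ω ≃ₐ[L] Ω) (m : ℕ), e (kc n ζ a g) * g (e m) = e (kc n ζ a g + m) := by
    intro g m
    rw [he, he, he, prod_range_add, map_prod]
    exact congrArg _ (prod_congr rfl fun i _ => hg1 g i)
  have hper : ∀ k, e (k + n) = algebraMap L Ω b * e k := by
    intro k
    rw [add_comm, he (n + k), prod_range_add, ← he, hen, he k]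
    refine congrArg _ (prod_congr rfl fun i _ => ?_)
    rw [pow_add, hZ, one_mul]
  have he0 : ∀ k, k ≤ n → e k ≠ 0 := by
    intro k hk h0
    obtain ⟨j, rfl⟩ := Nat.exists_eq_add_of_le hk
    have h1 := hen
    rw [he, prod_range_add, ← he, h0, zero_mul] at h1
    exact hb' h1.symm
  have hkl : ∀ g : Ω ≃ₐ[L] Ω, kc n ζ a g < n := fun g => (kc_spec hn hζ ha g).1
  have hF : Function.Periodic (fun k => γ ^ k / e k) n := by
    intro k
    show γ ^ (k + n) / e (k + n) = γ ^ k / e k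
    rw [hper, pow_add, hγ, mul_comm (γ ^ k), mul_div_mul_left _ _ hb']
  unfold cls
  rw [mkH_eq_zero]
  refine ⟨fun g => Units.mk0 (γ ^ kc n ζ a g / e (kc n ζ a g))
    (div_ne_zero (pow_ne_zero _ hγ0) (he0 _ (hkl g).le)), ?_, ?_⟩
  · obtain ⟨E, hE, -, h1⟩ := kc_fin (Ω := Ω) hn hζ ha
    refine ⟨E, hE, fun g g' hgg => ?_⟩
    have h2 := h1 g g' hgg
    ext
    simp only [Units.val_mk0, h2]
  · funext g h
    ext
    have h1 := kc_comp (Ω := Ω) hn hζ ha g h
    have h2 : γ ^ kc n ζ a (g * h) / e (kc n ζ a (g * h)) =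
        γ ^ (kc n ζ a g + kc n ζ a h) / e (kc n ζ a g + kc n ζ a h) := by
      have h3 := hF.map_mod_nat (kc n ζ a (g * h))
      have h4 := hF.map_mod_nat (kc n ζ a g + kc n ζ a h)
      rw [show kc n ζ a (g * h) % n = (kc n ζ a g + kc n ζ a h) % n from h1] at h3
      exact h3.symm.trans h4
    have h5 : g γ = algebraMap L Ω ζ ^ kc n ζ b g * γ := (kc_spec hn hζ hb g).2 γ hγ
    have h6 := hg g (kc n ζ a h)
    have h7 : g (e (kc n ζ a h)) ≠ 0 := by
      rw [Ne, map_eq_zero_iff _ g.injective]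
      exact he0 _ (hkl h).le
    have h8 := he0 _ (hkl g).le
    simp only [cocy, cob, Units.val_mul, Units.val_pow_eq_pow_val, f1_zu hn hζ, act_val,
      Units.val_mk0, Units.val_inv_eq_inv_val]
    rw [h2, ← h6, map_div₀, map_pow, h5]
    have h9 : γ ^ (kc n ζ a g + kc n ζ a h) ≠ 0 := pow_ne_zero _ hγ0
    field_simp
    ring

theorem cls_steinberg [IsSepClosed Ω] {n : ℕ} (hn : (n : L) ≠ 0) {ζ : L}
    (hζ : IsPrimitiveRoot ζ n) {a b : L} (ha : a ≠ 0) (hb : b ≠ 0) (hab : a + b = 1) :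
    cls Ω n ζ a b = 0 := by
  have hn0 : n ≠ 0 := by rintro rfl; exact hn Nat.cast_zero
  refine cls_eq_zero_of_norm hn hζ ha hb ⟨1 - X, fun α hα => ?_⟩
  have hζ' : IsPrimitiveRoot (algebraMap L Ω ζ) n :=
    hζ.map_of_injective (algebraMap L Ω).injective
  have h1 := X_pow_sub_C_eq_prod hζ' (Nat.pos_of_ne_zero hn0) hα
  have h2 := congrArg (Polynomial.eval 1) h1
  rw [eval_prod] at h2
  simp only [eval_sub, eval_pow, eval_X, eval_C, one_pow] at h2
  have h3 : algebraMap L Ω b = 1 - algebraMap L Ω a := by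
    rw [← map_one (algebraMap L Ω), ← hab, map_add]
    ring
  rw [h3, h2]
  refine prod_congr rfl fun i _ => ?_
  rw [map_sub, map_one, aeval_X]

end Pool.Agent.PSF
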