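import Pool.Agent.PSF.Kc

/-!
# PSF-F2e: interpolation of an equivariant family

PLAN.  Fix `α ^ n = a` in `Ω`, `α ≠ 0`.  The nodes `ζ ^ j α`, `j < n`, are distinct.  Let `z ∈ Ω[X]`
(`Lagrange.interpolate`) be the polynomial of degree `< n` with `z(ζ ^ j α) = w j` for `j < n`, hence for
all `j : ℕ` (both sides have period `n`).  For `g ∈ G` the polynomial `z.map g` has the values
`z.map g (ζ ^ (j + k(g)) α) = g (z(ζ ^ j α)) = g (w j) = w (j + k(g))`, so `z.map g = z` (same degree
bound, same values at the `n` nodes).  So all coefficients of `z` are fixed by `G`, hence in `L`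
(`Ω / L` Galois: `InfiniteGalois.mem_bot_iff_fixed` / `IsGalois` fixed field is `⊥`), and
`z = z₀.map (algebraMap L Ω)`.  For another root `α' = ζ ^ s α`,
`∏ i < n, z(ζ ^ i α') = ∏ i < n, w (i + s) = ∏ j < n, w j = b` by periodicity.
-/

namespace Pool.Agent.PSF

universe u

variable {L Ω : Type u} [Field L] [Field Ω] [Algebra L Ω]

private lemma f2e_prod_shift {M : Type*} [CommMonoid M] (n : ℕ) (w : ℕ → M)
    (hper : ∀ j, w (j + n) = w j) (s : ℕ) :
    ∏ i ∈ Finset.range n, w (i + s) = ∏ i ∈ Finset.range n, w i := by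
  induction s with
  | zero => rfl
  | succ s ih =>
    rw [← ih]
    rcases n with _ | m
    · simp
    · rw [Finset.prod_range_succ, Finset.prod_range_succ' (fun i => w (i + s))]
      have h1 : w (m + (s + 1)) = w (0 + s) := by
        rw [← hper (0 + s)]
        congr 1
        omega
      rw [h1]
      have h2 : ∀ i ∈ Finset.range m, w (i + (s + 1)) = w (i + 1 + s) := by
        intro i _
        congr 1
        omega
      rw [Finset.prod_congr rfl h2]

theorem normCond_of_equivariant [IsGalois L Ω] [IsSepClosed Ω] {n : ℕ} (hn : (n : L) ≠ 0) {ζ : L}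
    (hζ : IsPrimitiveRoot ζ n) {a b : L} (ha : a ≠ 0) (w : ℕ → Ω) (hper : ∀ j, w (j + n) = w j)
    (hw : ∀ (g : Ω ≃ₐ[L] Ω) (j : ℕ), g (w j) = w (j + kc n ζ a g))
    (hprod : ∏ j ∈ Finset.range n, w j = algebraMap L Ω b) : NormCond Ω n ζ a b := by
  classical
  have hn0 : n ≠ 0 := by
    rintro rfl
    exact hn (by simp)
  have hζ' : IsPrimitiveRoot (algebraMap L Ω ζ) n :=
    hζ.map_of_injective (algebraMap L Ω).injective
  obtain ⟨α, hα⟩ := exists_root (Ω := Ω) hn (algebraMap L Ω a)
  have ha' : algebraMap L Ω a ≠ 0 := by simpa using ha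
  have hα0 : α ≠ 0 := by
    rintro rfl
    rw [zero_pow hn0] at hα
    exact ha' hα.symm
  set v : ℕ → Ω := fun j => algebraMap L Ω ζ ^ j * α with hv
  have hvper : ∀ j m, v (j + m * n) = v j := by
    intro j m
    show algebraMap L Ω ζ ^ (j + m * n) * α = algebraMap L Ω ζ ^ j * α
    rw [pow_add, mul_comm m n, pow_mul, hζ'.pow_eq_one, one_pow, mul_one]
  have hwper : ∀ j m, w (j + m * n) = w j := by
    intro j m
    induction m with
    | zero => simp
    | succ m ih =>
      rw [← ih, ← hper (j + m * n)]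
      congr 1
      ring
  have hinj : Set.InjOn v (Finset.range n : Set ℕ) := by
    intro i hi j hj hij
    have h1 : algebraMap L Ω ζ ^ i = algebraMap L Ω ζ ^ j := mul_right_cancel₀ hα0 hij
    exact hζ'.pow_inj (by simpa using hi) (by simpa using hj) h1
  set z : Polynomial Ω := Lagrange.interpolate (Finset.range n) v w with hz
  have hzdeg : z.degree < (Finset.range n).card := Lagrange.degree_interpolate_lt w hinj
  have hzv : ∀ j, z.eval (v j) = w j := by
    intro j
    have h1 : j = j % n + (j / n) * n := by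
      rw [mul_comm]
      exact (Nat.mod_add_div j n).symm
    rw [h1, hvper, hwper]
    exact Lagrange.eval_interpolate_at_node w hinj
      (Finset.mem_range.mpr (Nat.mod_lt _ (Nat.pos_of_ne_zero hn0)))
  have hfix : ∀ g : Ω ≃ₐ[L] Ω, z.map (g : Ω →+* Ω) = z := by
    intro g
    obtain ⟨-, hk⟩ := kc_spec hn hζ ha g
    set k := kc n ζ a g with hkd
    have hgα : g α = algebraMap L Ω ζ ^ k * α := hk α hα
    have hgv : ∀ j, g (v j) = v (j + k) := by
      intro j
      show g (algebraMap L Ω ζ ^ j * α) = algebraMap L Ω ζ ^ (j + k) * α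
      rw [map_mul, map_pow, AlgEquiv.commutes, hgα, pow_add, mul_assoc]
    have heval : ∀ j, (z.map (g : Ω →+* Ω)).eval (v (j + k)) = w (j + k) := by
      intro j
      rw [← hgv j, ← hw g j, ← hzv j, Polynomial.eval_map]
      exact Polynomial.eval₂_at_apply (g : Ω →+* Ω) (v j)
    apply Polynomial.eq_of_degrees_lt_of_eval_index_eq (Finset.range n) hinj
    · exact lt_of_le_of_lt Polynomial.degree_map_le hzdeg
    · exact hzdeg
    · intro i _
      rw [hzv i]
      have h2 : i + k * (n - 1) + k = i + k * n := by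
        obtain ⟨m, rfl⟩ := Nat.exists_eq_succ_of_ne_zero hn0
        simp only [Nat.succ_eq_add_one, Nat.add_sub_cancel]
        ring
      have h3 := heval (i + k * (n - 1))
      rw [h2, hvper, hwper] at h3
      exact h3
  have hlift : z ∈ Polynomial.lifts (algebraMap L Ω) := by
    rw [Polynomial.lifts_iff_coeff_lifts]
    intro m
    rw [InfiniteGalois.mem_range_algebraMap_iff_fixed]
    intro g
    have h1 : (z.map (g : Ω →+* Ω)).coeff m = z.coeff m := by rw [hfix g]
    rw [Polynomial.coeff_map] at h1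
    exact h1
  obtain ⟨z₀, hz₀⟩ := (Polynomial.mem_lifts _).mp hlift
  refine ⟨z₀, fun α' hα' => ?_⟩
  have h1 : (α' / α) ^ n = 1 := by
    rw [div_pow, hα', hα, div_self ha']
  have : NeZero n := ⟨hn0⟩
  obtain ⟨s, -, hs⟩ := hζ'.eq_pow_of_pow_eq_one h1
  have h2 : α' = algebraMap L Ω ζ ^ s * α := by
    rw [hs, div_mul_cancel₀ _ hα0]
  have h3 : ∀ i ∈ Finset.range n,
      Polynomial.aeval (algebraMap L Ω ζ ^ i * α') z₀ = w (i + s) := by
    intro i _
    rw [← hzv (i + s), ← hz₀, Polynomial.eval_map_algebraMap]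
    have h4 : algebraMap L Ω ζ ^ i * α' = v (i + s) := by
      rw [h2]
      show algebraMap L Ω ζ ^ i * (algebraMap L Ω ζ ^ s * α) = algebraMap L Ω ζ ^ (i + s) * α
      rw [pow_add, mul_assoc]
    rw [h4]
  rw [Finset.prod_congr rfl h3, f2e_prod_shift n w hper s, hprod]

end Pool.Agent.PSF
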