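import Pool.Agent.PSF.CohDefs

/-!
# PSF-H90: Hilbert 90 for cochains of finite level on a subgroup

PLAN.  Let `c` be of finite level `E` and satisfy the cocycle identity on the subgroup `H`.
Let `E'` be a finite Galois extension of `L` inside `Ω` containing `E` and all values `c g`
(there are finitely many values: `c g` only depends on `g|_E`, and there are finitely many
`L`-embeddings `E → Ω`; take the normal closure of `E ⊔ adjoin (values)`; `Ω / L` is Galois, hence
algebraic and separable).  Let `R` be the (finite) image of `H` in `Gal(E'/L) = E' ≃ₐ[L] E'`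
(restriction `AlgEquiv.restrictNormalHom E'`).  `c` descends to `R` (it only depends on the
restriction to `E ≤ E'`).  By linear independence of characters
(`linearIndependent_monoidHom`) there is `x ∈ E'` with `s := ∑ r ∈ R, c(r) * r x ≠ 0`.  For
`h ∈ H`: `h s = ∑ h(c r) (h r) x = c(h)⁻¹ ∑ c(h r) (h r) x = c(h)⁻¹ s`.  So `t = s⁻¹` satisfies
`h t = c(h) t`.
-/

namespace Pool.Agent.PSF

universe u

variable {L Ω : Type u} [Field L] [Field Ω] [Algebra L Ω]

theorem hilbert90 [IsGalois L Ω] (H : Subgroup (Ω ≃ₐ[L] Ω)) (c : (Ω ≃ₐ[L] Ω) → Ωˣ)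
    (hc : FinLevel c) (hco : ∀ g ∈ H, ∀ h ∈ H, c (g * h) = c g * act g (c h)) :
    ∃ t : Ωˣ, ∀ h ∈ H, c h = act h t * t⁻¹ := by
  classical
  obtain ⟨E, hE, hlev⟩ := hc
  set K : IntermediateField L Ω := IntermediateField.normalClosure L E Ω with hK
  have hEK : E ≤ K := IntermediateField.le_normalClosure E
  have : FiniteDimensional L K := by
    rw [hK]; infer_instance
  have : Normal L K := by
    rw [hK]; infer_instance
  let res : (Ω ≃ₐ[L] Ω) →* (K ≃ₐ[L] K) := AlgEquiv.restrictNormalHom K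
  have hres : ∀ (g : Ω ≃ₐ[L] Ω) (x : K), ((res g x : K) : Ω) = g x := fun g x =>
    AlgEquiv.restrictNormalHom_apply K g x
  let R : Subgroup (K ≃ₐ[L] K) := H.map res
  have : Fintype R := Fintype.ofFinite R
  have hlift : ∀ r : R, ∃ g : Ω ≃ₐ[L] Ω, g ∈ H ∧ res g = r.1 := fun r => by
    obtain ⟨g, hg, hgr⟩ := r.2
    exact ⟨g, hg, hgr⟩
  choose σ hσH hσ using hlift
  -- `c` only depends on the image in `R`
  have hdep : ∀ g g' : Ω ≃ₐ[L] Ω, res g = res g' → c g = c g' := by
    intro g g' h
    refine hlev g g' fun x hx => ?_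
    have h1 := hres g ⟨x, hEK hx⟩
    have h2 := hres g' ⟨x, hEK hx⟩
    rw [h] at h1
    exact h1.symm.trans h2
  -- the characters
  let χ : R → (K →* Ω) := fun r => ((K.val : K →+* Ω) : K →* Ω).comp ((r.1 : K →+* K) : K →* K)
  have hχ : ∀ (r : R) (x : K), χ r x = ((r.1 x : K) : Ω) := fun r x => rfl
  have hχinj : Function.Injective χ := by
    intro r r' h
    apply Subtype.ext
    apply AlgEquiv.ext
    intro x
    apply Subtype.ext
    have := DFunLike.congr_fun h x
    rw [hχ, hχ] at this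
    exact this
  have hli : LinearIndependent Ω (fun r : R => (χ r : K → Ω)) :=
    (linearIndependent_monoidHom K Ω).comp χ hχinj
  have hne : ∃ x : K, ∑ r : R, (c (σ r) : Ω) * ((r.1 x : K) : Ω) ≠ 0 := by
    by_contra hcon
    push Not at hcon
    have hzero : ∑ r : R, (c (σ r) : Ω) • (χ r : K → Ω) = 0 := by
      funext x
      rw [Finset.sum_apply]
      simp only [Pi.smul_apply, smul_eq_mul, hχ, Pi.zero_apply]
      exact hcon x
    have := Fintype.linearIndependent_iff.1 hli (fun r => (c (σ r) : Ω)) hzero 1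
    exact (c (σ 1)).ne_zero this
  obtain ⟨x, hx⟩ := hne
  set s : Ω := ∑ r : R, (c (σ r) : Ω) * ((r.1 x : K) : Ω) with hs
  have key : ∀ h ∈ H, (c h : Ω) * h s = s := by
    intro h hh
    have hmem : res h ∈ R := ⟨h, hh, rfl⟩
    rw [hs, map_sum, Finset.mul_sum]
    refine Fintype.sum_equiv (Equiv.mulLeft (⟨res h, hmem⟩ : R)) _ _ ?_
    intro r
    have e1 : c (σ (Equiv.mulLeft (⟨res h, hmem⟩ : R) r)) = c (h * σ r) := by
      apply hdep
      rw [hσ, map_mul, hσ]
      rfl
    rw [e1, hco h hh (σ r) (hσH r), map_mul]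
    have e2 : ((((Equiv.mulLeft (⟨res h, hmem⟩ : R) r).1 x : K)) : Ω) = h ((r.1 x : K) : Ω) := by
      have : (Equiv.mulLeft (⟨res h, hmem⟩ : R) r).1 x = res h (r.1 x) := rfl
      rw [this, hres]
    rw [e2, Units.val_mul, act_val]
    ring
  refine ⟨(Units.mk0 s hx)⁻¹, fun h hh => ?_⟩
  apply Units.ext
  rw [inv_inv, Units.val_mul, act_val, Units.val_inv_eq_inv_val, Units.val_mk0, map_inv₀]
  have hhs : h s ≠ 0 := by
    intro h0
    apply hx
    have := key h hh
    rw [h0, mul_zero] at this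
    exact this.symm
  rw [inv_mul_eq_div, eq_div_iff hhs]
  exact key h hh

end Pool.Agent.PSF
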