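import Pool.Agent.PSF.Kc
import Pool.Agent.PSF.H90

/-!
# PSF-F2n: normalisation of a splitting cochain

PLAN.  `cls Ω n ζ a b = 0` means `cocy Ω n ζ a b = cob c` with `c` of finite level (`mkH_eq_zero`).
`H = {g | kc n ζ a g = 0}` is a subgroup (`kc_comp`, `kc_spec`: it is the stabiliser of a root `α` of
`X ^ n - a`).  For `g, h ∈ H` the cocycle is `1` (`kc n ζ a h = 0`), so
`c (g * h) = c g * act g (c h)`; `hilbert90` gives `t` with `c h = act h t * t⁻¹` on `H`.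
Put `c' g = c g * (act g t * t⁻¹)⁻¹`: `cob c' = cob c` and `c' = 1` on `H`.
-/

namespace Pool.Agent.PSF

universe u

variable {L Ω : Type u} [Field L] [Field Ω] [Algebra L Ω]

theorem exists_normalized [IsGalois L Ω] [IsSepClosed Ω] {n : ℕ} (hn : (n : L) ≠ 0) {ζ : L}
    (hζ : IsPrimitiveRoot ζ n) {a b : L} (ha : a ≠ 0) (hb : b ≠ 0) (h : cls Ω n ζ a b = 0) :
    ∃ c : (Ω ≃ₐ[L] Ω) → Ωˣ, cocy Ω n ζ a b = cob c ∧ ∀ g, kc n ζ a g = 0 → c g = 1 := by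
  obtain ⟨c, hc, hcb⟩ := mkH_eq_zero.mp h
  have hz : ∀ g : Ω ≃ₐ[L] Ω, kc n ζ a g ≡ 0 [MOD n] → kc n ζ a g = 0 := by
    intro g hg
    have h2 := (kc_spec hn hζ ha g).1
    have h3 : kc n ζ a g % n = 0 % n := hg
    rw [Nat.mod_eq_of_lt h2, Nat.zero_mod] at h3
    exact h3
  have h1 : kc n ζ a (1 : Ω ≃ₐ[L] Ω) = 0 := by
    obtain ⟨α, hα⟩ := exists_root hn (algebraMap L Ω a)
    exact hz 1 (kc_unique hn hζ ha 1 hα (by simp))
  have hmul : ∀ g g' : Ω ≃ₐ[L] Ω, kc n ζ a g = 0 → kc n ζ a g' = 0 → kc n ζ a (g * g') = 0 := by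
    intro g g' hg hg'
    have h2 := kc_comp hn hζ ha g g'
    rw [hg, hg'] at h2
    exact hz _ h2
  have hinv : ∀ g : Ω ≃ₐ[L] Ω, kc n ζ a g = 0 → kc n ζ a g⁻¹ = 0 := by
    intro g hg
    have h2 := kc_comp hn hζ ha g g⁻¹
    rw [mul_inv_cancel, h1, hg, zero_add] at h2
    exact hz _ h2.symm
  let H : Subgroup (Ω ≃ₐ[L] Ω) :=
    { carrier := {g | kc n ζ a g = 0}
      mul_mem' := fun {g g'} hg hg' => hmul g g' hg hg'
      one_mem' := h1
      inv_mem' := fun {g} hg => hinv g hg }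
  have hco : ∀ g ∈ H, ∀ g' ∈ H, c (g * g') = c g * act g (c g') := by
    intro g _ g' hg'
    have hg0 : kc n ζ a g' = 0 := hg'
    have h2 := congrFun (congrFun hcb g) g'
    simp only [cocy, cob, hg0, mul_zero, pow_zero] at h2
    exact (mul_inv_eq_one.mp h2.symm).symm
  obtain ⟨t, ht⟩ := hilbert90 H c hc hco
  refine ⟨fun g => c g * (act g t * t⁻¹)⁻¹, ?_, ?_⟩
  · rw [hcb]
    funext g g'
    have h3 : act (g * g') t = act g (act g' t) := by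
      ext
      simp
    simp only [cob, map_mul, map_inv, mul_inv, inv_inv, h3]
    have h4 : ∀ x y z u v w : Ωˣ, x * y * z⁻¹ = x * (u⁻¹ * w) * (y * (v⁻¹ * u)) * (z⁻¹ * (v * w⁻¹)) := by
      intro x y z u v w
      have : x * (u⁻¹ * w) * (y * (v⁻¹ * u)) * (z⁻¹ * (v * w⁻¹)) =
          x * y * z⁻¹ * (u⁻¹ * u) * (w * w⁻¹) * (v⁻¹ * v) := by ac_rfl
      rw [this]
      simp
    exact h4 _ _ _ _ _ _
  · intro g hg
    change c g * (act g t * t⁻¹)⁻¹ = 1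
    rw [ht g hg, mul_inv_cancel]

end Pool.Agent.PSF
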