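import Pool.Agent.PSF.Kc

/-!
# PSF-F2w: from a normalised splitting cochain to an equivariant family with product `b`

PLAN.  Write `k(g) = kc n ζ a g`, `χ(g) = kc n ζ b g`, `H = {g | k(g) = 0}` (a normal subgroup by
`kc_comp`), `γ ^ n = b`.  The hypothesis says `c g * g (c h) = c (g h) * ζ ^ (χ(g) k(h))`.
1. For `h ∈ H`: `c (g h) = c g`.  And `c (h g) = h (c g) * ζ ^ (-χ(h) k(g))`, while
   `c (h g) = c (g (g⁻¹ h g)) = c g`.  So `h (c g) = ζ ^ (χ(h) k(g)) c g`, and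
   `β(g) := γ ^ k(g) / c g` is fixed by `H` (`h γ = ζ ^ χ(h) γ`).
2. If `k(g) = 0` for all `g`: take `w j = b` if `n ∣ j` and `w j = 1` otherwise.
   Otherwise let `m` be the smallest positive value of `k`; then `m ∣ k(g)` for all `g` and `m ∣ n`
   (Euclid with powers of `σ`, `kc_comp`), `k(σ) = m`, `d = n / m`, `β = β(σ)`.
3. `∏ i < d, σ^i β = b`: `∏ i < d, σ^i (γ ^ m) = γ ^ (m d) ζ ^ (m ∑ i < d, χ(σ^i))`, and by the
   identity `c (σ^(i+1)) = c (σ^i) * σ^i (c σ) * ζ ^ (-χ(σ^i) m)`, so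
   `∏ i < d, σ^i (c σ) = c (σ^d) ζ ^ (m ∑ χ(σ^i)) = ζ ^ (m ∑ χ(σ^i))` as `σ^d ∈ H` (`c 1 = 1`).
4. Define `w j = σ^(j / m) β` if `m ∣ j`, and `w j = 1` if `m ∤ j`, for all `j : ℕ`.  Periodic:
   `w (j + n) = σ^(j/m + d) β = σ^(j/m) (σ^d β) = w j` as `σ^d ∈ H`.  For `g ∈ G`, `k(g) = m k'`:
   `g σ^i = σ^(i + k') h` with `h ∈ H` (`kc_comp`), so `g (w (m i)) = σ^(i+k') β = w (m i + k(g))`;
   if `m ∤ j` then `m ∤ j + k(g)`.
-/

namespace Pool.Agent.PSF

universe u

variable {L Ω : Type u} [Field L] [Field Ω] [Algebra L Ω]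

theorem exists_equivariant [IsGalois L Ω] [IsSepClosed Ω] {n : ℕ} (hn : (n : L) ≠ 0) {ζ : L}
    (hζ : IsPrimitiveRoot ζ n) {a b : L} (ha : a ≠ 0) (hb : b ≠ 0) (c : (Ω ≃ₐ[L] Ω) → Ωˣ)
    (hc : cocy Ω n ζ a b = cob c) (h1 : ∀ g, kc n ζ a g = 0 → c g = 1) :
    ∃ w : ℕ → Ω, (∀ j, w (j + n) = w j) ∧
      (∀ (g : Ω ≃ₐ[L] Ω) (j : ℕ), g (w j) = w (j + kc n ζ a g)) ∧
      ∏ j ∈ Finset.range n, w j = algebraMap L Ω b := by
  classical
  have hn0 : n ≠ 0 := by
    rintro rfl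
    simp at hn
  have hnpos : 0 < n := Nat.pos_of_ne_zero hn0
  have : NeZero n := ⟨hn0⟩
  have hζ0 : ζ ≠ 0 := hζ.ne_zero hn0
  have hz0 : algebraMap L Ω ζ ≠ 0 := (map_ne_zero (algebraMap L Ω)).2 hζ0
  have hcc : ∀ g h : Ω ≃ₐ[L] Ω, (c g : Ω) * g (c h : Ω) =
      (c (g * h) : Ω) * algebraMap L Ω ζ ^ (kc n ζ b g * kc n ζ a h) := by
    intro g h
    have e := congrFun (congrFun hc g) h
    have e' : cocy Ω n ζ a b g h * c (g * h) = c g * act g (c h) := by
      rw [e]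
      unfold cob
      rw [inv_mul_cancel_right]
    have e2 := congrArg Units.val e'
    simp only [Units.val_mul, act_val, cocy, Units.val_pow_eq_pow_val] at e2
    have hzu : ((zu Ω ζ : Ωˣ) : Ω) = algebraMap L Ω ζ := by
      unfold zu
      rw [dif_neg hz0]
      rfl
    rw [hzu] at e2
    rw [← e2, mul_comm]
  set K : (Ω ≃ₐ[L] Ω) → ZMod n := fun g => (kc n ζ a g : ZMod n) with hK
  have Kmul : ∀ g h : Ω ≃ₐ[L] Ω, K (g * h) = K g + K h := by
    intro g h
    have h2 := (ZMod.natCast_eq_natCast_iff _ _ _).2 (kc_comp hn hζ ha g h)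
    rw [Nat.cast_add] at h2
    exact h2
  have K1 : K (1 : Ω ≃ₐ[L] Ω) = 0 := by
    have h2 := Kmul 1 1
    rw [mul_one] at h2
    exact add_left_cancel (a := K 1) (by rw [add_zero]; exact h2.symm)
  have Kinv : ∀ g, K g⁻¹ = - K g := by
    intro g
    have h2 := Kmul g⁻¹ g
    rw [inv_mul_cancel, K1] at h2
    exact eq_neg_of_add_eq_zero_left h2.symm
  have Kpow : ∀ g (i : ℕ), K (g ^ i) = i * K g := by
    intro g i
    induction i with
    | zero => rw [pow_zero, K1, Nat.cast_zero, zero_mul]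
    | succ i ih =>
      rw [pow_succ, Kmul, ih]
      push_cast
      ring
  have klt : ∀ g : Ω ≃ₐ[L] Ω, kc n ζ a g < n := fun g => (kc_spec hn hζ ha g).1
  have kval : ∀ (g : Ω ≃ₐ[L] Ω) (r : ℕ), r < n → K g = (r : ZMod n) → kc n ζ a g = r := by
    intro g r hr h
    have h2 := (ZMod.natCast_eq_natCast_iff' _ _ _).1 h
    rwa [Nat.mod_eq_of_lt (klt g), Nat.mod_eq_of_lt hr] at h2
  have kz : ∀ g, K g = 0 → kc n ζ a g = 0 := fun g h =>
    kval g 0 hnpos (by rw [Nat.cast_zero]; exact h)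
  have c1 : ∀ g, K g = 0 → c g = 1 := fun g h => h1 g (kz g h)
  have hfix : ∀ h, K h = 0 → ∀ g, h (c g : Ω) =
      algebraMap L Ω ζ ^ (kc n ζ b h * kc n ζ a g) * (c g : Ω) := by
    intro h hh g
    have e1 := hcc h g
    rw [c1 h hh, Units.val_one, one_mul] at e1
    have e2 := hcc g (g⁻¹ * h * g)
    have hh' : K (g⁻¹ * h * g) = 0 := by
      rw [Kmul, Kmul, Kinv, hh]
      ring
    rw [c1 _ hh', Units.val_one, map_one, mul_one, kz _ hh', mul_zero, pow_zero, mul_one] at e2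
    have e3 : g * (g⁻¹ * h * g) = h * g := by group
    rw [e3] at e2
    rw [e1, ← e2, mul_comm]
  by_cases hall : ∀ g : Ω ≃ₐ[L] Ω, kc n ζ a g = 0
  · refine ⟨fun j => if n ∣ j then algebraMap L Ω b else 1, fun j => ?_, fun g j => ?_, ?_⟩
    · simp only [Nat.dvd_add_self_right]
    · simp only [hall g, add_zero]
      split_ifs
      · exact g.commutes b
      · exact map_one g
    · rw [Finset.prod_eq_single 0]
      · simp
      · intro j hj hj0
        have h2 : ¬ n ∣ j := fun h3 =>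
          hj0 (Nat.eq_zero_of_dvd_of_lt h3 (Finset.mem_range.1 hj))
        rw [if_neg h2]
      · intro h2
        exact absurd (Finset.mem_range.2 hnpos) h2
  · obtain ⟨g0, hg0⟩ := not_forall.1 hall
    have hex : ∃ m, 0 < m ∧ ∃ g : Ω ≃ₐ[L] Ω, kc n ζ a g = m :=
      ⟨_, Nat.pos_of_ne_zero hg0, g0, rfl⟩
    obtain ⟨m, hm0, ⟨σ, hσ⟩, hmin⟩ : ∃ m, 0 < m ∧ (∃ g : Ω ≃ₐ[L] Ω, kc n ζ a g = m) ∧
        ∀ r, 0 < r → (∃ g : Ω ≃ₐ[L] Ω, kc n ζ a g = r) → m ≤ r :=
      ⟨Nat.find hex, (Nat.find_spec hex).1, (Nat.find_spec hex).2,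
        fun r hr hr' => Nat.find_min' hex ⟨hr, hr'⟩⟩
    have hmn : m < n := hσ ▸ klt σ
    have hKσ : K σ = (m : ZMod n) := by
      simp only [hK, hσ]
    have hdvd : ∀ g : Ω ≃ₐ[L] Ω, m ∣ kc n ζ a g := by
      intro g
      rw [Nat.dvd_iff_mod_eq_zero]
      by_contra hr
      have h2 : K ((σ ^ (kc n ζ a g / m))⁻¹ * g) = ((kc n ζ a g % m : ℕ) : ZMod n) := by
        rw [Kmul, Kinv, Kpow, hKσ]
        have h3 : K g = ((m * (kc n ζ a g / m) + kc n ζ a g % m : ℕ) : ZMod n) := by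
          rw [Nat.div_add_mod]
        rw [h3]
        push_cast
        ring
      have h3 := kval _ _ ((Nat.mod_lt _ hm0).trans hmn) h2
      have h4 := hmin _ (Nat.pos_of_ne_zero hr) ⟨_, h3⟩
      exact absurd h4 (not_le.2 (Nat.mod_lt _ hm0))
    have hdn : m ∣ n := by
      rw [Nat.dvd_iff_mod_eq_zero]
      by_contra hr
      have h2 : K ((σ ^ (n / m))⁻¹) = ((n % m : ℕ) : ZMod n) := by
        rw [Kinv, Kpow, hKσ]
        have h3 : ((m * (n / m) + n % m : ℕ) : ZMod n) = 0 := by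
          rw [Nat.div_add_mod, ZMod.natCast_self]
        push_cast at h3
        have h4 : (m : ZMod n) * ((n / m : ℕ) : ZMod n) = - ((n % m : ℕ) : ZMod n) :=
          eq_neg_of_add_eq_zero_left h3
        rw [mul_comm, h4, neg_neg]
      have h3 := kval _ _ ((Nat.mod_lt _ hm0).trans hmn) h2
      have h4 := hmin _ (Nat.pos_of_ne_zero hr) ⟨_, h3⟩
      exact absurd h4 (not_le.2 (Nat.mod_lt _ hm0))
    obtain ⟨d, hd⟩ := hdn
    obtain ⟨γ, hγ⟩ := exists_root (Ω := Ω) hn (algebraMap L Ω b)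
    have hb0 : algebraMap L Ω b ≠ 0 := (map_ne_zero (algebraMap L Ω)).2 hb
    have hγ0 : γ ≠ 0 := by
      rintro rfl
      rw [zero_pow hn0] at hγ
      exact hb0 hγ.symm
    have hgγ : ∀ g : Ω ≃ₐ[L] Ω, g γ = algebraMap L Ω ζ ^ kc n ζ b g * γ := fun g =>
      (kc_spec hn hζ hb g).2 γ hγ
    have hc0 : ∀ g, (c g : Ω) ≠ 0 := fun g => (c g).ne_zero
    have βfix : ∀ h, K h = 0 → h (γ ^ m / (c σ : Ω)) = γ ^ m / (c σ : Ω) := by
      intro h hh
      rw [map_div₀, map_pow, hgγ, hfix h hh σ, hσ, mul_pow, ← pow_mul]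
      exact mul_div_mul_left _ _ (pow_ne_zero _ hz0)
    have hσβ : ∀ i : ℕ, (σ ^ i) (γ ^ m / (c σ : Ω)) =
        γ ^ m * (c (σ ^ i) : Ω) / (c (σ ^ (i + 1)) : Ω) := by
      intro i
      have e1 := hcc (σ ^ i) σ
      rw [hσ, ← pow_succ] at e1
      have e2 : (σ ^ i) (c σ : Ω) = (c (σ ^ (i + 1)) : Ω) *
          algebraMap L Ω ζ ^ (kc n ζ b (σ ^ i) * m) / (c (σ ^ i) : Ω) := by
        rw [eq_div_iff (hc0 _), mul_comm]
        exact e1
      rw [map_div₀, map_pow, hgγ, e2, mul_pow, ← pow_mul]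
      have h2 := hc0 (σ ^ i)
      have h3 := hc0 (σ ^ (i + 1))
      have h4 := pow_ne_zero (kc n ζ b (σ ^ i) * m) hz0
      field_simp
    have hprod : ∀ e : ℕ, ∏ i ∈ Finset.range e, (σ ^ i) (γ ^ m / (c σ : Ω)) =
        γ ^ (m * e) / (c (σ ^ e) : Ω) := by
      intro e
      induction e with
      | zero =>
        rw [Finset.prod_range_zero, mul_zero, pow_zero, pow_zero, c1 1 K1, Units.val_one,
          div_one]
      | succ e ih =>
        rw [Finset.prod_range_succ, ih, hσβ]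
        have h2 := hc0 (σ ^ e)
        have h3 := hc0 (σ ^ (e + 1))
        rw [mul_add, mul_one, pow_add γ, div_mul_div_comm, mul_comm (c (σ ^ e) : Ω),
          ← mul_assoc]
        exact mul_div_mul_right _ _ h2
    have hKd : K (σ ^ d) = 0 := by
      rw [Kpow, hKσ]
      have h2 : ((m * d : ℕ) : ZMod n) = 0 := by
        rw [← hd, ZMod.natCast_self]
      push_cast at h2
      rw [mul_comm]
      exact h2
    refine ⟨fun j => if m ∣ j then (σ ^ (j / m)) (γ ^ m / (c σ : Ω)) else 1, fun j => ?_,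
      fun g j => ?_, ?_⟩
    · have h2 : m ∣ j + n ↔ m ∣ j := by
        rw [hd]
        exact (Nat.dvd_add_iff_left (Dvd.intro d rfl)).symm
      simp only [h2]
      split_ifs with h3
      · obtain ⟨i, rfl⟩ := h3
        have h4 : (m * i + n) / m = i + d := by
          rw [hd, ← mul_add, Nat.mul_div_cancel_left _ hm0]
        rw [h4, Nat.mul_div_cancel_left _ hm0, pow_add, AlgEquiv.mul_apply, βfix _ hKd]
      · rfl
    · obtain ⟨k', hk'⟩ := hdvd g
      have h2 : m ∣ j + kc n ζ a g ↔ m ∣ j := by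
        rw [hk']
        exact (Nat.dvd_add_iff_left (Dvd.intro k' rfl)).symm
      simp only [h2]
      split_ifs with h3
      · obtain ⟨i, rfl⟩ := h3
        have h4 : (m * i + kc n ζ a g) / m = i + k' := by
          rw [hk', ← mul_add, Nat.mul_div_cancel_left _ hm0]
        rw [h4, Nat.mul_div_cancel_left _ hm0]
        have h5 : K ((σ ^ (i + k'))⁻¹ * (g * σ ^ i)) = 0 := by
          have h6 : K g = ((m * k' : ℕ) : ZMod n) := by
            simp only [hK, hk']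
          rw [Kmul, Kmul, Kinv, Kpow, Kpow, hKσ, h6]
          push_cast
          ring
        have h6 := βfix _ h5
        rw [AlgEquiv.mul_apply] at h6
        have h7 := congrArg (σ ^ (i + k')) h6
        rw [← AlgEquiv.mul_apply, mul_inv_cancel, AlgEquiv.one_apply, AlgEquiv.mul_apply] at h7
        exact h7
      · exact map_one g
    · have h2 : ∏ j ∈ Finset.range n,
          (if m ∣ j then (σ ^ (j / m)) (γ ^ m / (c σ : Ω)) else 1) =
          ∏ j ∈ (Finset.range d).image (fun i => m * i),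
            (if m ∣ j then (σ ^ (j / m)) (γ ^ m / (c σ : Ω)) else 1) := by
        symm
        refine Finset.prod_subset ?_ ?_
        · intro j hj
          obtain ⟨i, hi, rfl⟩ := Finset.mem_image.1 hj
          rw [Finset.mem_range] at hi ⊢
          rw [hd]
          exact Nat.mul_lt_mul_of_pos_left hi hm0
        · intro j hj hj'
          rw [if_neg]
          rintro ⟨i, rfl⟩
          apply hj'
          refine Finset.mem_image.2 ⟨i, ?_, rfl⟩
          rw [Finset.mem_range] at hj ⊢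
          rw [hd] at hj
          exact Nat.lt_of_mul_lt_mul_left hj
      rw [h2, Finset.prod_image (fun x _ y _ h => Nat.eq_of_mul_eq_mul_left hm0 h)]
      have h3 : ∀ i ∈ Finset.range d,
          (if m ∣ m * i then (σ ^ (m * i / m)) (γ ^ m / (c σ : Ω)) else 1) =
          (σ ^ i) (γ ^ m / (c σ : Ω)) := by
        intro i _
        rw [if_pos (Dvd.intro i rfl), Nat.mul_div_cancel_left _ hm0]
      rw [Finset.prod_congr rfl h3, hprod, ← hd, hγ, c1 _ hKd, Units.val_one, div_one]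

end Pool.Agent.PSF
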