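import Pool.Agent.PSF.SymB
import Pool.Agent.PSF.F1
import Pool.Agent.PSF.F2n
import Pool.Agent.PSF.F2w
import Pool.Agent.PSF.F2e
import Pool.Agent.PSF.CritA
import Pool.Agent.PSF.CritB

/-!
# PSF-Exist: existence of the symbol system

The symbol of `a`, `b` is the sequence of the classes of the Kummer cocycles for a compatible system
of roots of unity, with values in a separable closure of `L`.
-/

namespace Pool.Agent.PSF

open Pool.Agent.Helper26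

universe u

private lemma ex_step {ℓ : ℕ} (hℓ : ℓ.Prime) {L : Type u} [Field L]
    (hμ : ∀ M : ℕ, ∃ ζ : L, IsPrimitiveRoot ζ (ℓ ^ M)) (M : ℕ) (ζ : L)
    (hζ : IsPrimitiveRoot ζ (ℓ ^ M)) : ∃ η : L, IsPrimitiveRoot η (ℓ ^ (M + 1)) ∧ η ^ ℓ = ζ := by
  obtain ⟨η, hη⟩ := hμ (M + 1)
  have hη' : IsPrimitiveRoot (η ^ ℓ) (ℓ ^ M) :=
    hη.pow (pow_pos hℓ.pos _) (by rw [pow_succ, mul_comm])
  have : NeZero (ℓ ^ M) := ⟨(pow_pos hℓ.pos M).ne'⟩
  obtain ⟨i, hi, hic, hiζ⟩ := (hη'.isPrimitiveRoot_iff).1 hζ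
  rcases Nat.eq_zero_or_pos M with rfl | hM
  · refine ⟨η, hη, ?_⟩
    rw [pow_zero, IsPrimitiveRoot.one_right_iff] at hζ hη'
    rw [hζ, hη']
  · refine ⟨η ^ i, hη.pow_of_coprime i ?_, ?_⟩
    · have h1 : Nat.Coprime i ℓ := Nat.Coprime.coprime_dvd_right (dvd_pow_self ℓ hM.ne') hic
      exact Nat.Coprime.pow_right _ h1
    · rw [← pow_mul, mul_comm, pow_mul, hiζ]

private lemma ex_system {ℓ : ℕ} (hℓ : ℓ.Prime) {L : Type u} [Field L]
    (hμ : ∀ M : ℕ, ∃ ζ : L, IsPrimitiveRoot ζ (ℓ ^ M)) :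
    ∃ Z : ℕ → L, (∀ M, IsPrimitiveRoot (Z M) (ℓ ^ M)) ∧ ∀ M, Z (M + 1) ^ ℓ = Z M := by
  choose η h1 h2 using ex_step hℓ hμ
  let Z : (M : ℕ) → {ζ : L // IsPrimitiveRoot ζ (ℓ ^ M)} := fun M =>
    Nat.rec (motive := fun M => {ζ : L // IsPrimitiveRoot ζ (ℓ ^ M)})
      ⟨1, by rw [pow_zero]; exact IsPrimitiveRoot.one⟩
      (fun M z => ⟨η M z.1 z.2, h1 M z.1 z.2⟩) M
  exact ⟨fun M => (Z M).1, fun M => (Z M).2, fun M => h2 M (Z M).1 (Z M).2⟩

private lemma ex_indep {L Ω : Type u} [Field L] [Field Ω] [Algebra L Ω] {n : ℕ} {ζ ζ' : L}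
    (hζ : IsPrimitiveRoot ζ n) (hζ' : IsPrimitiveRoot ζ' n) {a b : L}
    (h : NormCond Ω n ζ a b) : NormCond Ω n ζ' a b := by
  obtain ⟨z, hz⟩ := h
  refine ⟨z, fun α hα => ?_⟩
  have key : ∀ ξ : L, IsPrimitiveRoot ξ n →
      ∏ i ∈ Finset.range n, Polynomial.aeval (algebraMap L Ω ξ ^ i * α) z =
        ((Polynomial.nthRoots n (algebraMap L Ω a)).map fun x => Polynomial.aeval x z).prod := by
    intro ξ hξ
    have h1 : IsPrimitiveRoot (algebraMap L Ω ξ) n :=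
      hξ.map_of_injective (algebraMap L Ω).injective
    rw [h1.nthRoots_eq hα, Multiset.map_map]
    rfl
  rw [key ζ' hζ', ← key ζ hζ]
  exact hz α hα

private lemma ex_main {ℓ : ℕ} (hℓ : ℓ.Prime) {L Ω : Type u} [Field L] [Field Ω] [Algebra L Ω]
    [IsGalois L Ω] [IsSepClosed Ω] (hL : (ℓ : L) ≠ 0) {Z : ℕ → L}
    (hZ : ∀ M, IsPrimitiveRoot (Z M) (ℓ ^ M)) (hZ' : ∀ M, Z (M + 1) ^ ℓ = Z M) :
    ∃ (S : SymSys ℓ L (Vsub L Ω ℓ)), ∀ a b : L, a ≠ 0 → b ≠ 0 →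
      (S.β a b = 0 ↔ ∀ (M : ℕ) (ζ : L), IsPrimitiveRoot ζ (ℓ ^ M) → IsSplit (ℓ ^ M) ζ a b) := by
  have hn : ∀ M : ℕ, ((ℓ ^ M : ℕ) : L) ≠ 0 := fun M => by
    rw [Nat.cast_pow]
    exact pow_ne_zero M hL
  have hinf : Infinite L := by
    refine Infinite.of_injective Z fun M N hMN => ?_
    have h1 := hZ M
    rw [hMN] at h1
    exact Nat.pow_right_injective hℓ.two_le (h1.unique (hZ N))
  have hseq : ∀ {a b : L}, a ≠ 0 → b ≠ 0 → ∀ M,
      symSeq Ω ℓ Z a b M = cls Ω (ℓ ^ M) (Z M) a b := by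
    intro a b ha hb M
    unfold symSeq
    rw [if_neg]
    rintro (h | h)
    · exact ha h
    · exact hb h
  refine ⟨{ β := fun a b => ⟨symSeq Ω ℓ Z a b, symSeq_mem hL hZ hZ' a b⟩
            mul_left := ?_
            mul_right := ?_
            steinberg := ?_
            torsionFree := fun n v hn h => vsub_torsionFree hℓ n v hn h
            sep := fun v h => vsub_sep hℓ v h }, ?_⟩
  · intro a a' b ha ha' hb
    apply Subtype.ext
    funext M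
    change symSeq Ω ℓ Z (a * a') b M = symSeq Ω ℓ Z a b M + symSeq Ω ℓ Z a' b M
    rw [hseq (mul_ne_zero ha ha') hb, hseq ha hb, hseq ha' hb]
    exact cls_mul_left (hn M) (hZ M) ha ha' hb
  · intro a b b' ha hb hb'
    apply Subtype.ext
    funext M
    change symSeq Ω ℓ Z a (b * b') M = symSeq Ω ℓ Z a b M + symSeq Ω ℓ Z a b' M
    rw [hseq ha (mul_ne_zero hb hb'), hseq ha hb, hseq ha hb']
    exact cls_mul_right (hn M) (hZ M) ha hb hb'
  · intro a b ha hb hab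
    apply Subtype.ext
    funext M
    change symSeq Ω ℓ Z a b M = 0
    rw [hseq ha hb]
    exact cls_steinberg (hn M) (hZ M) ha hb hab
  · intro a b ha hb
    have h0 : (⟨symSeq Ω ℓ Z a b, symSeq_mem hL hZ hZ' a b⟩ : Vsub L Ω ℓ) = 0 ↔
        ∀ M, cls Ω (ℓ ^ M) (Z M) a b = 0 := by
      constructor
      · intro h M
        have h1 := congrArg (fun v : Vsub L Ω ℓ => (v : ℕ → H2 L Ω) M) h
        rw [← hseq ha hb M]
        exact h1
      · intro h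
        apply Subtype.ext
        funext M
        change symSeq Ω ℓ Z a b M = 0
        rw [hseq ha hb]
        exact h M
    refine h0.trans ⟨fun h M ζ hζ => ?_, fun h M => ?_⟩
    · obtain ⟨c, hc1, hc2⟩ := exists_normalized (hn M) (hZ M) ha hb (h M)
      obtain ⟨w, hw1, hw2, hw3⟩ := exists_equivariant (hn M) (hZ M) ha hb c hc1 hc2
      have h1 := normCond_of_equivariant (hn M) (hZ M) ha w hw1 hw2 hw3
      exact isSplit_of_normCond (Ω := Ω) (hn M) hζ ha hb (ex_indep (hZ M) hζ h1)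
    · exact cls_eq_zero_of_norm (hn M) (hZ M) ha hb
        (normCond_of_isSplit (Ω := Ω) (hn M) (hZ M) ha hb (h M (Z M) (hZ M)))

theorem exists_symSys {ℓ : ℕ} (hℓ : ℓ.Prime) {L : Type u} [Field L] (hL : (ℓ : L) ≠ 0)
    (hμ : ∀ M : ℕ, ∃ ζ : L, IsPrimitiveRoot ζ (ℓ ^ M)) :
    ∃ (V : Type u) (_ : AddCommGroup V) (S : SymSys ℓ L V), ∀ a b : L, a ≠ 0 → b ≠ 0 →
      (S.β a b = 0 ↔ ∀ (M : ℕ) (ζ : L), IsPrimitiveRoot ζ (ℓ ^ M) → IsSplit (ℓ ^ M) ζ a b) := by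
  obtain ⟨Z, hZ, hZ'⟩ := ex_system hℓ hμ
  have h1 : IsSepClosed (SeparableClosure L) := IsSepClosure.sep_closed L
  obtain ⟨S, hS⟩ := ex_main (Ω := SeparableClosure L) hℓ hL hZ hZ'
  exact ⟨Vsub L (SeparableClosure L) ℓ, inferInstance, S, hS⟩

end Pool.Agent.PSF
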