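import Pool.Agent.PSF.Defs

/-!
# PSF-KExt: finite Kummer extensions are Galois, abelian, of exponent `n`

PLAN.  `n = ℓ ^ m`, `(n : K) ≠ 0`, `E = adjoin K T`, `T` finite, `C ^ n ∈ K` for `C ∈ T`.
* Finite dimensional: `T` is finite and its elements are integral
  (`IntermediateField.finiteDimensional_adjoin`).
* Galois: `E` is the splitting field of `∏ (X ^ n - c)` (separable polynomials, `c = C ^ n ≠ 0`; the roots
  of `X ^ n - c` are `ζ ^ i C`; drop `C = 0`), e.g. via `isGalois_iff`: separable because generated by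
  separable elements (`X_pow_sub_C_separable_iff`-type lemma), normal because generated by elements
  whose minimal polynomials split (`IntermediateField.normal_iSup`, `normal_adjoin_of_splits`...).
* For `g` in the Galois group and `C ∈ T`: `g C = ζ ^ i C` for some `i`.  So `g h` and `h g` agree on
  generators, and `g ^ n C = ζ ^ (i n) C = C`; two automorphisms of `adjoin K T` agreeing on `T` are equal
  (`IntermediateField.adjoin` ext lemma, e.g. `IntermediateField.algHom_ext_of_eq_adjoin` or via
  `IntermediateField.adjoin_induction`).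
-/

namespace Pool.Agent.PSF

universe u

private theorem root_form {n : ℕ} (hn : n ≠ 0) {E : Type*} [Field E] {z : E}
    (hz : IsPrimitiveRoot z n) {x y : E} (h : y ^ n = x ^ n) : ∃ i : ℕ, y = z ^ i * x := by
  by_cases hx : x = 0
  · subst hx
    rw [zero_pow hn] at h
    refine ⟨0, ?_⟩
    rw [pow_eq_zero_iff hn] at h
    rw [h, mul_zero]
  · have : NeZero n := ⟨hn⟩
    have h1 : (y / x) ^ n = 1 := by
      rw [div_pow, h, div_self (pow_ne_zero n hx)]
    obtain ⟨i, _, hi⟩ := hz.eq_pow_of_pow_eq_one h1
    exact ⟨i, by rw [hi, div_mul_cancel₀ _ hx]⟩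

private theorem kummer {n : ℕ} (hn : n ≠ 0) {K L : Type u} [Field K] [Field L] [Algebra K L]
    (hK : (n : K) ≠ 0) {ζ : K} (hζ : IsPrimitiveRoot ζ n) (T : Set L) (hT : T.Finite)
    (h : ∀ C ∈ T, InB K L (C ^ n)) :
    FiniteDimensional K (IntermediateField.adjoin K T) ∧
    IsGalois K (IntermediateField.adjoin K T) ∧
    (∀ g h : (IntermediateField.adjoin K T) ≃ₐ[K] (IntermediateField.adjoin K T),
      g * h = h * g) ∧
    (∀ g : (IntermediateField.adjoin K T) ≃ₐ[K] (IntermediateField.adjoin K T),
      g ^ n = 1) := by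
  have hroot : ∀ C ∈ T, ∃ c : K, C ^ n = algebraMap K L c := h
  have haev : ∀ C ∈ T, ∀ c : K, C ^ n = algebraMap K L c →
      Polynomial.aeval C (Polynomial.X ^ n - Polynomial.C c) = 0 := by
    intro C _ c hc
    simp [hc]
  have hint : ∀ C ∈ T, IsIntegral K C := by
    intro C hC
    obtain ⟨c, hc⟩ := hroot C hC
    exact ⟨Polynomial.X ^ n - Polynomial.C c, Polynomial.monic_X_pow_sub_C c hn, haev C hC c hc⟩
  have hfin : Finite T := hT
  have hfd : FiniteDimensional K (IntermediateField.adjoin K T) :=
    IntermediateField.finiteDimensional_adjoin hint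
  -- the primitive root in `E`
  have hζE : IsPrimitiveRoot (algebraMap K (IntermediateField.adjoin K T) ζ) n :=
    hζ.map_of_injective (algebraMap K (IntermediateField.adjoin K T)).injective
  have hmem : ∀ C ∈ T, C ∈ IntermediateField.adjoin K T := fun C hC =>
    IntermediateField.subset_adjoin K T hC
  have hsep : Algebra.IsSeparable K (IntermediateField.adjoin K T) := by
    rw [IntermediateField.isSeparable_adjoin_iff_isSeparable]
    intro C hC
    obtain ⟨c, hc⟩ := hroot C hC
    by_cases h0 : c = 0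
    · have hC0 : C = 0 := by
        rw [h0, map_zero, pow_eq_zero_iff hn] at hc
        exact hc
      rw [hC0, ← map_zero (algebraMap K L)]
      exact isSeparable_algebraMap _
    · have h1 := Polynomial.separable_X_pow_sub_C c hK h0
      exact h1.of_dvd (minpoly.dvd K C (haev C hC c hc))
  have hnorm : Normal K (IntermediateField.adjoin K T) := by
    rw [normal_iff]
    intro x
    refine ⟨IsIntegral.of_finite K x, ?_⟩
    rw [IntermediateField.minpoly_eq]
    refine IntermediateField.splits_of_mem_adjoin K L (S := T) ?_ x.2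
    intro C hC
    refine ⟨hint C hC, ?_⟩
    obtain ⟨c, hc⟩ := hroot C hC
    have h1 : (Polynomial.X ^ n -
        Polynomial.C (algebraMap K (IntermediateField.adjoin K T) c)).Splits := by
      refine X_pow_sub_C_splits_of_isPrimitiveRoot hζE (α := ⟨C, hmem C hC⟩) ?_
      apply Subtype.ext
      exact hc
    have h2 : (Polynomial.X ^ n - Polynomial.C c).map
        (algebraMap K (IntermediateField.adjoin K T)) = Polynomial.X ^ n -
        Polynomial.C (algebraMap K (IntermediateField.adjoin K T) c) := by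
      simp
    refine Polynomial.Splits.of_dvd h1 (Polynomial.monic_X_pow_sub_C _ hn).ne_zero ?_
    rw [← h2]
    exact Polynomial.map_dvd _ (minpoly.dvd K C (haev C hC c hc))
  have hact : ∀ (g : (IntermediateField.adjoin K T) ≃ₐ[K] (IntermediateField.adjoin K T))
      (C : L) (hC : C ∈ T), ∃ i : ℕ, g ⟨C, hmem C hC⟩ =
        algebraMap K (IntermediateField.adjoin K T) ζ ^ i * ⟨C, hmem C hC⟩ := by
    intro g C hC
    refine root_form hn hζE ?_
    obtain ⟨c, hc⟩ := hroot C hC
    have h1 : (⟨C, hmem C hC⟩ : IntermediateField.adjoin K T) ^ n =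
        algebraMap K (IntermediateField.adjoin K T) c := Subtype.ext hc
    rw [← map_pow, h1, AlgEquiv.commutes]
  have hext : ∀ (g g' : (IntermediateField.adjoin K T) ≃ₐ[K] (IntermediateField.adjoin K T)),
      (∀ (C : L) (hC : C ∈ T), g ⟨C, hmem C hC⟩ = g' ⟨C, hmem C hC⟩) → g = g' := by
    intro g g' hgg
    have h1 : (g : (IntermediateField.adjoin K T) →ₐ[K] (IntermediateField.adjoin K T)) =
        (g' : (IntermediateField.adjoin K T) →ₐ[K] (IntermediateField.adjoin K T)) :=
      IntermediateField.algHom_ext_of_eq_adjoin K rfl (fun C hC => hgg C hC)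
    apply AlgEquiv.ext
    intro x
    exact DFunLike.congr_fun h1 x
  have hz : ∀ (g : (IntermediateField.adjoin K T) ≃ₐ[K] (IntermediateField.adjoin K T)) (i : ℕ),
      g (algebraMap K (IntermediateField.adjoin K T) ζ ^ i) =
        algebraMap K (IntermediateField.adjoin K T) ζ ^ i := by
    intro g i
    rw [map_pow, AlgEquiv.commutes]
  refine ⟨hfd, isGalois_iff.2 ⟨hsep, hnorm⟩, ?_, ?_⟩
  · intro g g'
    apply hext
    intro C hC
    obtain ⟨i, hi⟩ := hact g C hC
    obtain ⟨j, hj⟩ := hact g' C hC
    rw [AlgEquiv.mul_apply, AlgEquiv.mul_apply, hi, hj, map_mul, map_mul, hz, hz, hi, hj]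
    ring
  · intro g
    apply hext
    intro C hC
    obtain ⟨i, hi⟩ := hact g C hC
    have h1 : ∀ k : ℕ, (g ^ k) ⟨C, hmem C hC⟩ =
        algebraMap K (IntermediateField.adjoin K T) ζ ^ (i * k) * ⟨C, hmem C hC⟩ := by
      intro k
      induction k with
      | zero => simp
      | succ k ih =>
        rw [pow_succ', AlgEquiv.mul_apply, ih, map_mul, hz, hi]
        ring
    rw [h1 n, mul_comm i n, pow_mul, hζE.pow_eq_one, one_pow, one_mul]
    rfl

theorem kExt {ℓ m : ℕ} (hℓ : ℓ.Prime) {K L : Type u} [Field K] [Field L] [Algebra K L]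
    (hK : (ℓ : K) ≠ 0) {ζ : K} (hζ : IsPrimitiveRoot ζ (ℓ ^ m)) (T : Set L) (hT : T.Finite)
    (h : ∀ C ∈ T, InB K L (C ^ ℓ ^ m)) :
    FiniteDimensional K (IntermediateField.adjoin K T) ∧
    IsGalois K (IntermediateField.adjoin K T) ∧
    (∀ g h : (IntermediateField.adjoin K T) ≃ₐ[K] (IntermediateField.adjoin K T),
      g * h = h * g) ∧
    (∀ g : (IntermediateField.adjoin K T) ≃ₐ[K] (IntermediateField.adjoin K T),
      g ^ ℓ ^ m = 1) := by
  refine kummer (pow_ne_zero m hℓ.ne_zero) ?_ hζ T hT h
  push_cast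
  exact pow_ne_zero m hK

end Pool.Agent.PSF
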