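import Pool.Agent.PSF.ExtP

/-!
# PSF-LinS: generation by linear polynomials when all irreducible polynomials have `ℓ`-power degree

Every finite extension of `K` is separable, hence simple, hence of `ℓ`-power degree.  So an
irreducible polynomial of degree `< ℓ` over an algebraic extension of `K` is linear, and the
elements of `F(C)`, `C ^ ℓ ∈ F`, which are polynomials in `C` of degree `< ℓ`, are products of linear ones.
-/

namespace Pool.Agent.PSF

universe u

variable {K L : Type u} [Field K] [Field L] [Algebra K L]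

open Polynomial in
private theorem lins_perf {ℓ : ℕ} (hℓ : ℓ.Prime) (hK : (ℓ : K) ≠ 0)
    (h : ∀ f : Polynomial K, Irreducible f → ∃ k : ℕ, f.natDegree = ℓ ^ k) : PerfectField K := by
  obtain ⟨p, hp⟩ := CharP.exists K
  rcases CharP.char_is_prime_or_zero K p with hp' | hp'
  · refine ⟨fun {f} hf => ?_⟩
    rcases Polynomial.separable_or p hf with hs | ⟨-, g, -, hg⟩
    · exact hs
    · exfalso
      obtain ⟨k, hk⟩ := h f hf
      rw [← hg, Polynomial.natDegree_expand] at hk
      have h1 : p ∣ ℓ ^ k := hk ▸ dvd_mul_left p _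
      have h2 : p = ℓ := (Nat.prime_dvd_prime_iff_eq hp' hℓ).1 (hp'.dvd_of_dvd_pow h1)
      exact hK (h2 ▸ CharP.cast_eq_zero K p)
  · subst hp'
    have := CharP.charP_to_charZero K
    infer_instance

private theorem lins_pow {ℓ : ℕ} (hℓ : ℓ.Prime) (hK : (ℓ : K) ≠ 0)
    (h : ∀ f : Polynomial K, Irreducible f → ∃ k : ℕ, f.natDegree = ℓ ^ k) (M : Type*) [Field M]
    [Algebra K M] [FiniteDimensional K M] : ∃ k : ℕ, Module.finrank K M = ℓ ^ k := by
  have := lins_perf hℓ hK h
  obtain ⟨θ, hθ⟩ := Field.exists_primitive_element K M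
  have h1 := (Field.primitive_element_iff_minpoly_natDegree_eq K θ).1 hθ
  rw [← h1]
  exact h _ (minpoly.irreducible (Algebra.IsIntegral.isIntegral θ))

private theorem lins_one {ℓ : ℕ} (hℓ : ℓ.Prime) (hK : (ℓ : K) ≠ 0)
    (h : ∀ f : Polynomial K, Irreducible f → ∃ k : ℕ, f.natDegree = ℓ ^ k) {F : Type*} [Field F]
    [Algebra K F] [Algebra.IsAlgebraic K F] {f : Polynomial F} (hf : Irreducible f)
    (hd : f.natDegree < ℓ) : f.natDegree = 1 := by
  have hfin : FiniteDimensional K (IntermediateField.adjoin K (f.coeffs : Set F)) :=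
    IntermediateField.finiteDimensional_adjoin
      fun x _ => (Algebra.IsAlgebraic.isAlgebraic x).isIntegral
  set F₀ := IntermediateField.adjoin K (f.coeffs : Set F) with hF₀
  have hl : f ∈ Polynomial.lifts (algebraMap F₀ F) := by
    rw [Polynomial.lifts_iff_coeffs_subset_range]
    intro c hc
    exact ⟨⟨c, IntermediateField.subset_adjoin K _ hc⟩, rfl⟩
  obtain ⟨f₀, hf₀⟩ := (Polynomial.mem_lifts _).1 hl
  have hirr : Irreducible f₀ := by
    refine ⟨fun hu => hf.not_isUnit ?_, fun a b hab => ?_⟩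
    · rw [← hf₀]
      exact (Polynomial.isUnit_map _).2 hu
    · have h1 := hf.isUnit_or_isUnit (a := a.map (algebraMap F₀ F))
        (b := b.map (algebraMap F₀ F)) (by rw [← Polynomial.map_mul, ← hab, hf₀])
      exact h1.imp (Polynomial.isUnit_map _).1 (Polynomial.isUnit_map _).1
  have hdeg : f₀.natDegree = f.natDegree := by
    rw [← hf₀, Polynomial.natDegree_map]
  have : Fact (Irreducible f₀) := ⟨hirr⟩
  have h1 : Module.finrank F₀ (AdjoinRoot f₀) = f₀.natDegree :=
    finrank_quotient_span_eq_natDegree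
  have hfd : FiniteDimensional F₀ (AdjoinRoot f₀) :=
    (AdjoinRoot.powerBasis hirr.ne_zero).finite
  have hfd2 : FiniteDimensional K (AdjoinRoot f₀) := FiniteDimensional.trans K F₀ (AdjoinRoot f₀)
  obtain ⟨k, hk⟩ := lins_pow hℓ hK h (AdjoinRoot f₀)
  have i1 : Module.Free F₀ (AdjoinRoot f₀) := Module.Free.of_divisionRing _ _
  have i2 : Module.Free K F₀ := Module.Free.of_divisionRing _ _
  have h2 : f.natDegree ∣ ℓ ^ k := by
    rw [← hk, ← Module.finrank_mul_finrank K F₀ (AdjoinRoot f₀), h1, hdeg]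
    exact dvd_mul_left _ _
  obtain ⟨j, -, hj⟩ := (Nat.dvd_prime_pow hℓ).1 h2
  rw [hj] at hd ⊢
  rcases Nat.eq_zero_or_pos j with hj0 | hj0
  · rw [hj0, pow_zero]
  · exact absurd (Nat.le_self_pow hj0.ne' ℓ) (not_le.2 hd)

open Polynomial in
private theorem lins_poly {ℓ : ℕ} (hℓ : ℓ.Prime) (hK : (ℓ : K) ≠ 0) [Algebra.IsAlgebraic K L]
    (h : ∀ f : Polynomial K, Irreducible f → ∃ k : ℕ, f.natDegree = ℓ ^ k)
    (F : IntermediateField K L) (C : L) (P : L → Prop)
    (hP1 : ∀ x ∈ F, x ≠ 0 → P x) (hP2 : ∀ a ∈ F, C - a ≠ 0 → P (C - a))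
    (hP3 : ∀ x y, x ≠ 0 → y ≠ 0 → P x → P y → P (x * y)) (n : ℕ) :
    ∀ g : Polynomial F, g.natDegree ≤ n → g.natDegree < ℓ → aeval C g ≠ 0 → P (aeval C g) := by
  induction n with
  | zero =>
    intro g hg _ hg0
    rw [Polynomial.eq_C_of_natDegree_le_zero hg, aeval_C] at hg0 ⊢
    exact hP1 _ (g.coeff 0).2 hg0
  | succ n ih =>
    intro g hg hgl hg0
    by_cases hgd : g.natDegree = 0
    · exact ih g (by omega) hgl hg0
    have hgne : g ≠ 0 := by
      rintro rfl
      exact hgd Polynomial.natDegree_zero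
    have hgu : ¬ IsUnit g := fun hu => hgd (Polynomial.natDegree_eq_zero_of_isUnit hu)
    obtain ⟨q, hq, g', rfl⟩ := WfDvdMonoid.exists_irreducible_factor hgu hgne
    have hq0 : q ≠ 0 := hq.ne_zero
    have hg'0 : g' ≠ 0 := right_ne_zero_of_mul hgne
    rw [Polynomial.natDegree_mul hq0 hg'0] at hg hgl
    have hq1 : q.natDegree = 1 := lins_one hℓ hK h hq (by omega)
    rw [map_mul] at hg0 ⊢
    refine hP3 _ _ (left_ne_zero_of_mul hg0) (right_ne_zero_of_mul hg0) ?_
      (ih g' (by omega) (by omega) (right_ne_zero_of_mul hg0))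
    have hqC : aeval C q ≠ 0 := left_ne_zero_of_mul hg0
    obtain ⟨a, ha, b, hab⟩ : ∃ a : F, a ≠ 0 ∧ ∃ b : F, q = Polynomial.C a * (X - Polynomial.C b) := by
      refine ⟨q.coeff 1, ?_, -(q.coeff 0 / q.coeff 1), ?_⟩
      · rw [← hq1]
        exact Polynomial.leadingCoeff_ne_zero.2 hq0
      · have ha : q.coeff 1 ≠ 0 := by
          rw [← hq1]
          exact Polynomial.leadingCoeff_ne_zero.2 hq0
        conv_lhs => rw [Polynomial.eq_X_add_C_of_natDegree_le_one hq1.le]
        rw [map_neg, sub_neg_eq_add, mul_add, ← Polynomial.C_mul, mul_div_cancel₀ _ ha]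
    have h1 : aeval C q = (a : L) * (C - (b : L)) := by
      rw [hab, map_mul, map_sub, aeval_C, aeval_X, aeval_C]
      rfl
    rw [h1] at hqC ⊢
    have ha' : (a : L) ≠ 0 := left_ne_zero_of_mul hqC
    have hb' : C - (b : L) ≠ 0 := right_ne_zero_of_mul hqC
    exact hP3 _ _ ha' hb' (hP1 _ a.2 ha') (hP2 _ b.2 hb')

theorem linGen_special {ℓ : ℕ} (hℓ : ℓ.Prime) (hK : (ℓ : K) ≠ 0) [Algebra.IsAlgebraic K L]
    (h : ∀ f : Polynomial K, Irreducible f → ∃ k : ℕ, f.natDegree = ℓ ^ k) : LinGen ℓ K L := by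
  intro F C hC P hP1 hP2 hP3 _ z hz hz0
  obtain ⟨x, hx, hzx⟩ := exists_poly hℓ.pos hC hz
  have h1 : Polynomial.aeval C (∑ i ∈ Finset.range ℓ,
      Polynomial.C (⟨x i, hx i⟩ : F) * Polynomial.X ^ i) = z := by
    rw [hzx, map_sum]
    refine Finset.sum_congr rfl fun i _ => ?_
    rw [map_mul, map_pow, Polynomial.aeval_C, Polynomial.aeval_X]
    rfl
  have h2 : (∑ i ∈ Finset.range ℓ,
      Polynomial.C (⟨x i, hx i⟩ : F) * Polynomial.X ^ i : Polynomial F).natDegree < ℓ := by
    have h3 : (∑ i ∈ Finset.range ℓ,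
      Polynomial.C (⟨x i, hx i⟩ : F) * Polynomial.X ^ i : Polynomial F).natDegree ≤ ℓ - 1 := by
      refine Polynomial.natDegree_sum_le_of_forall_le _ _ fun i hi => ?_
      have h4 := Finset.mem_range.1 hi
      exact (Polynomial.natDegree_C_mul_X_pow_le _ _).trans (by omega)
    have := hℓ.pos
    omega
  rw [← h1] at hz0 ⊢
  exact lins_poly hℓ hK h F C P hP1 hP2 hP3 _ _ le_rfl h2 hz0

end Pool.Agent.PSF
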