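import Pool.Agent.PSF.Lin23
import Pool.Agent.PSF.LinS

/-!
# PSF: `LinGen` in all cases of `Lin` (complete modulo its imports)
-/

namespace Pool.Agent.PSF

universe u

theorem linGen_of_lin {ℓ : ℕ} (hℓ : ℓ.Prime) {K : Type u} [Field K] (hK : (ℓ : K) ≠ 0)
    (h : Lin ℓ K) (L : Type u) [Field L] [Algebra K L] [Algebra.IsAlgebraic K L] :
    LinGen ℓ K L := by
  rcases h with rfl | rfl | h
  · exact linGen_two
  · exact linGen_three
  · exact linGen_special hℓ hK h

end Pool.Agent.PSF
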