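import Pool.Agent.PSF.Sym
import Pool.Agent.Helper26.RadClosure

/-!
# PSF-Rad: the field `ℓ^∞√K`

Basic facts about `radClosure`: it is algebraic, closed under `ℓ`-th roots of radicals, contains the
roots of unity of order `ℓ ^ M`, and its elements are generated by finitely many radicals.
-/

namespace Pool.Agent.PSF

open Pool.Agent.Helper26

universe u

variable {ℓ : ℕ} {K : Type u} [Field K]

theorem rad_alg : Algebra.IsAlgebraic K (radClosure ℓ K) := by
  infer_instance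

theorem rad_root (hℓ : ℓ.Prime) (x : radClosure ℓ K) (hx : IsRadl ℓ K (radClosure ℓ K) x) :
    ∃ y : radClosure ℓ K, y ^ ℓ = x := by
  obtain ⟨n, c, hc⟩ := hx
  have h1 : (x : AlgebraicClosure K) ∈ radSet ℓ K := by
    refine ⟨n, c, ?_⟩
    have h2 := congrArg (fun t : radClosure ℓ K => (t : AlgebraicClosure K)) hc
    simpa using h2
  obtain ⟨e, he, he'⟩ := exists_root_mem_radSet ℓ K hℓ.pos h1
  refine ⟨⟨e, radSet_subset ℓ K he⟩, ?_⟩
  apply Subtype.ext
  simpa using he'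

theorem rad_mu (hℓ : ℓ.Prime) (hK : (ℓ : K) ≠ 0) (M : ℕ) :
    ∃ ζ : radClosure ℓ K, IsPrimitiveRoot ζ (ℓ ^ M) := by
  have : NeZero (ℓ : K) := ⟨hK⟩
  obtain ⟨z, hz⟩ := HasEnoughRootsOfUnity.exists_primitiveRoot (AlgebraicClosure K) (ℓ ^ M)
  have h1 : z ∈ radSet ℓ K := ⟨M, 1, by rw [hz.pow_eq_one, map_one]⟩
  refine ⟨⟨z, radSet_subset ℓ K h1⟩, ?_⟩
  exact IsPrimitiveRoot.coe_submonoidClass_iff.1 hz

private theorem rad_fin_aux {L : Type u} [Field L] [Algebra K L] (S : Set L) {z w : L}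
    (hz : z ∈ IntermediateField.adjoin K S) (hw : w ∈ IntermediateField.adjoin K S) :
    ∃ T : Set L, T.Finite ∧ T ⊆ S ∧ z ∈ IntermediateField.adjoin K T ∧
      w ∈ IntermediateField.adjoin K T := by
  obtain ⟨T₁, h1, h2⟩ := IntermediateField.exists_finset_of_mem_adjoin hz
  obtain ⟨T₂, h3, h4⟩ := IntermediateField.exists_finset_of_mem_adjoin hw
  exact ⟨(T₁ : Set L) ∪ T₂, T₁.finite_toSet.union T₂.finite_toSet, Set.union_subset h1 h3,
    IntermediateField.adjoin.mono K _ _ Set.subset_union_left h2,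
    IntermediateField.adjoin.mono K _ _ Set.subset_union_right h4⟩

private theorem rad_top :
    IntermediateField.adjoin K {x : radClosure ℓ K | IsRadl ℓ K (radClosure ℓ K) x} = ⊤ := by
  apply IntermediateField.lift_injective (radClosure ℓ K)
  rw [IntermediateField.lift_adjoin, IntermediateField.lift_top]
  have h : Subtype.val '' {x : radClosure ℓ K | IsRadl ℓ K (radClosure ℓ K) x} = radSet ℓ K := by
    ext y
    constructor
    · rintro ⟨x, ⟨n, c, hc⟩, rfl⟩
      refine ⟨n, c, ?_⟩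
      have h2 := congrArg (fun t : radClosure ℓ K => (t : AlgebraicClosure K)) hc
      simpa using h2
    · intro hy
      refine ⟨⟨y, radSet_subset ℓ K hy⟩, ?_, rfl⟩
      obtain ⟨n, c, hc⟩ := hy
      refine ⟨n, c, ?_⟩
      apply Subtype.ext
      simpa using hc
  rw [h]
  rfl

private theorem rad_exp {L : Type u} [Field L] [Algebra K L] {T : Set L} (hT : T.Finite)
    (h : ∀ C ∈ T, IsRadl ℓ K L C) : ∃ m : ℕ, ∀ C ∈ T, InB K L (C ^ ℓ ^ m) := by
  induction T, hT using Set.Finite.induction_on with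
  | empty => exact ⟨0, fun C hC => hC.elim⟩
  | @insert a s _ _ ih =>
    obtain ⟨m, hm⟩ := ih fun C hC => h C (Set.mem_insert_of_mem _ hC)
    obtain ⟨n, c, hc⟩ := h a (Set.mem_insert _ _)
    refine ⟨m + n, ?_⟩
    intro C hC
    rcases hC with rfl | hC
    · refine ⟨c ^ ℓ ^ m, ?_⟩
      rw [add_comm, pow_add, pow_mul, hc, map_pow]
    · obtain ⟨e, he⟩ := hm C hC
      refine ⟨e ^ ℓ ^ n, ?_⟩
      rw [pow_add, pow_mul, he, map_pow]

theorem rad_gen (hℓ : ℓ.Prime) (z w : radClosure ℓ K) :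
    ∃ (m : ℕ) (T : Set (radClosure ℓ K)), T.Finite ∧
      (∀ C ∈ T, InB K (radClosure ℓ K) (C ^ ℓ ^ m)) ∧
      z ∈ IntermediateField.adjoin K T ∧ w ∈ IntermediateField.adjoin K T := by
  have hz : z ∈ IntermediateField.adjoin K
      {x : radClosure ℓ K | IsRadl ℓ K (radClosure ℓ K) x} := by
    rw [rad_top]; exact IntermediateField.mem_top
  have hw : w ∈ IntermediateField.adjoin K
      {x : radClosure ℓ K | IsRadl ℓ K (radClosure ℓ K) x} := by
    rw [rad_top]; exact IntermediateField.mem_top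
  obtain ⟨T, hT, hTS, hzT, hwT⟩ := rad_fin_aux _ hz hw
  obtain ⟨m, hm⟩ := rad_exp hT hTS
  exact ⟨m, T, hT, hm, hzT, hwT⟩

theorem rad_fin {L : Type u} [Field L] [Algebra K L] (S : Set L) {z w : L}
    (hz : z ∈ IntermediateField.adjoin K S) (hw : w ∈ IntermediateField.adjoin K S) :
    ∃ T : Set L, T.Finite ∧ T ⊆ S ∧ z ∈ IntermediateField.adjoin K T ∧
      w ∈ IntermediateField.adjoin K T := by
  exact rad_fin_aux S hz hw

/-- Elements some `ℓ ^ n`-th power of which lies in `K` are killed by every symbol system. -/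
theorem kill_rad {L : Type u} [Field L] [Algebra K L] {V : Type*} [AddCommGroup V]
    (S : SymSys ℓ L V) (hℓ : ℓ.Prime)
    (hroot : ∀ x : L, IsRadl ℓ K L x → ∃ y : L, y ^ ℓ = x) {u b : L} (hu : IsRadl ℓ K L u)
    (hu0 : u ≠ 0) (hb : b ≠ 0) : S.β u b = 0 := by
  have hroots : ∀ n : ℕ, ∃ c : L, IsRadl ℓ K L c ∧ c ^ ℓ ^ n = u := by
    intro n
    induction n with
    | zero => exact ⟨u, hu, by simp⟩
    | succ n ih =>
      obtain ⟨c, ⟨m, e, he⟩, hc⟩ := ih
      obtain ⟨y, hy⟩ := hroot c ⟨m, e, he⟩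
      refine ⟨y, ⟨m + 1, e, ?_⟩, ?_⟩
      · rw [pow_succ', pow_mul, hy, he]
      · rw [pow_succ', pow_mul, hy, hc]
  exact S.divisible_left hu0 hb fun n => (hroots n).imp fun c hc => hc.2

end Pool.Agent.PSF
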