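import Pool.Agent.PSF.Radon
import Pool.Agent.PSF.KExt
import Pool.Agent.PSF.CycK
import Pool.Agent.PSF.Cyc1
import Pool.Agent.PSF.Lin
import Pool.Agent.PSF.Rad

/-!
# PSF-FinA: the first layer

The elements `z`, `w` are in a finite Kummer extension of exponent `ℓ` (`rad_fin`, `kExt`); `radon`
reduces to the cyclic subextensions, which are treated by `exists_gen` and `cyc_one`.
-/

namespace Pool.Agent.PSF

universe u v

theorem layer1 {ℓ : ℕ} (hℓ : ℓ.Prime) {K L : Type u} [Field K] [Field L] [Algebra K L]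
    (hK : (ℓ : K) ≠ 0) (hlin : Lin ℓ K) {ζ : K} (hζ : IsPrimitiveRoot ζ ℓ) {V : Type v}
    [AddCommGroup V] (S : SymSys ℓ L V)
    (hkill : ∀ c : K, c ≠ 0 → ∀ b : L, b ≠ 0 → S.β (algebraMap K L c) b = 0) {z w : L}
    (hz : z ∈ IntermediateField.adjoin K {C : L | InB K L (C ^ ℓ)})
    (hw : w ∈ IntermediateField.adjoin K {C : L | InB K L (C ^ ℓ)}) (hz0 : z ≠ 0) (hw0 : w ≠ 0) :
    S.β z w = 0 := by
  obtain ⟨T, hT, hTS, hzT, hwT⟩ := rad_fin {C : L | InB K L (C ^ ℓ)} hz hw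
  have h1 : ∀ C ∈ T, InB K L (C ^ ℓ ^ 1) := by
    intro C hC
    rw [pow_one]
    exact hTS hC
  obtain ⟨hfd, hgal, hcomm, hexp⟩ := kExt (m := 1) hℓ hK (ζ := ζ) (by rwa [pow_one]) T hT h1
  have hlg : LinGen ℓ K (IntermediateField.adjoin K T) :=
    linGen_of_lin hℓ hK hlin (IntermediateField.adjoin K T)
  have h2 := radon hℓ
    (S.comap ((IntermediateField.adjoin K T).val : IntermediateField.adjoin K T →+* L)) hlg hcomm
    (fun g => ⟨1, hexp g⟩) hζ (by
      intro H hg x hx y hy hx0 hy0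
      obtain ⟨C, hC, hCx⟩ := exists_gen (n := ℓ) hℓ.pos hcomm (fun g => by
        have := hexp g
        rwa [pow_one] at this) hζ H hg
      refine cyc_one _ hlg ?_ hC (hCx x hx) (hCx y hy) hx0 hy0
      intro c hc b hb
      refine hkill c hc b ?_
      intro hb'
      exact hb (Subtype.ext hb')) ⟨z, hzT⟩ ⟨w, hwT⟩ (fun h => hz0 (congrArg Subtype.val h))
    (fun h => hw0 (congrArg Subtype.val h))
  exact h2

end Pool.Agent.PSF
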