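import Pool.Agent.PSF.Radon
import Pool.Agent.PSF.KExt
import Pool.Agent.PSF.CycK
import Pool.Agent.PSF.Lin
import Pool.Agent.PSF.Rad

/-!
# PSF-FinM: reduction to cyclic Kummer extensions, exponent `ℓ ^ m`
-/

namespace Pool.Agent.PSF

universe u v

theorem reductionM {ℓ : ℕ} (hℓ : ℓ.Prime) {K L : Type u} [Field K] [Field L] [Algebra K L]
    (hK : (ℓ : K) ≠ 0) (hlin : Lin ℓ K) {ζ1 : K} (hζ1 : IsPrimitiveRoot ζ1 ℓ) {m : ℕ} {ζ : K}
    (hζ : IsPrimitiveRoot ζ (ℓ ^ m)) {V : Type v} [AddCommGroup V] (S : SymSys ℓ L V)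
    (hsing : ∀ C : L, InB K L (C ^ ℓ ^ m) →
      ∀ x ∈ IntermediateField.adjoin K {C}, ∀ y ∈ IntermediateField.adjoin K {C},
        x ≠ 0 → y ≠ 0 → S.β x y = 0) {z w : L}
    (hz : z ∈ IntermediateField.adjoin K {C : L | InB K L (C ^ ℓ ^ m)})
    (hw : w ∈ IntermediateField.adjoin K {C : L | InB K L (C ^ ℓ ^ m)})
    (hz0 : z ≠ 0) (hw0 : w ≠ 0) : S.β z w = 0 := by
  obtain ⟨T, hT, hTS, hzT, hwT⟩ := rad_fin {C : L | InB K L (C ^ ℓ ^ m)} hz hw
  have hTm : ∀ C ∈ T, InB K L (C ^ ℓ ^ m) := fun C hC => hTS hC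
  obtain ⟨fd, gal, comm, hexp⟩ := kExt hℓ hK hζ T hT hTm
  have := fd
  have := gal
  have : Algebra.IsAlgebraic K (IntermediateField.adjoin K T) :=
    Algebra.IsAlgebraic.of_finite K _
  have hlinE := linGen_of_lin hℓ hK hlin (IntermediateField.adjoin K T)
  refine radon hℓ (S.comap ((IntermediateField.adjoin K T).val :
      (IntermediateField.adjoin K T) →+* L)) hlinE comm
    (fun g => ⟨m, hexp g⟩) hζ1 ?_ ⟨z, hzT⟩ ⟨w, hwT⟩ ?_ ?_
  · intro H hH x hx y hy hx0 hy0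
    obtain ⟨C, ⟨c, hc⟩, hgen⟩ := exists_gen (pow_pos hℓ.pos m) comm hexp hζ H hH
    refine hsing (C : L) ⟨c, ?_⟩ (x : L) (coe_mem_adjoin (hgen x hx))
      (y : L) (coe_mem_adjoin (hgen y hy)) ?_ ?_
    · have h := congrArg (fun t : IntermediateField.adjoin K T => (t : L)) hc
      exact h
    · intro h
      exact hx0 (Subtype.ext h)
    · intro h
      exact hy0 (Subtype.ext h)
  · intro h
    exact hz0 (congrArg (fun t : IntermediateField.adjoin K T => (t : L)) h)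
  · intro h
    exact hw0 (congrArg (fun t : IntermediateField.adjoin K T => (t : L)) h)

end Pool.Agent.PSF
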