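import Pool.Agent.PSF.ExtP

/-!
# PSF-Lin23: generation by linear polynomials for `ℓ = 2, 3`

PLAN.  Let `z ∈ ext F C`, `z ≠ 0`.  If `C ∈ F` then `ext F C = F` and the first assumption on `P`
applies.  Assume `C ∉ F`, so that `C - a ≠ 0` for `a ∈ F`.
* `ℓ = 2`: `z = x₀ + x₁ C` (`exists_poly`); if `x₁ = 0`, `z ∈ F`; otherwise
  `z = x₁ (C - (-x₀ / x₁))`.
* `ℓ = 3`: `z = x₀ + x₁ C + x₂ C ^ 2`.  If `x₁ = x₂ = 0`, `z ∈ F`.  Otherwise `t := x₂ C - x₁ ≠ 0` (as
  `C ∉ F`) and `z t = (x₂ ^ 2 C ^ 3 - x₀ x₁) + (x₀ x₂ - x₁ ^ 2) C` is linear in `C` with coefficients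
  in `F`; a nonzero linear expression `x C + y` is in `F` or `x (C - (-y / x))`; so `P (z t)`,
  `P t`, `P t⁻¹` and `P z` as `z = (z t) t⁻¹`.
-/

namespace Pool.Agent.PSF

universe u

variable {K L : Type u} [Field K] [Field L] [Algebra K L]

private theorem lin23_lin {F : IntermediateField K L} {C : L} (hC : C ∉ F) (P : L → Prop)
    (h1 : ∀ x ∈ F, x ≠ 0 → P x) (h2 : ∀ a ∈ F, C - a ≠ 0 → P (C - a))
    (h3 : ∀ x y, x ≠ 0 → y ≠ 0 → P x → P y → P (x * y)) {x y : L} (hx : x ∈ F) (hy : y ∈ F)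
    (h : x * C + y ≠ 0) : P (x * C + y) := by
  by_cases hx0 : x = 0
  · subst hx0
    rw [zero_mul, zero_add] at h ⊢
    exact h1 y hy h
  · have hya : -y / x ∈ F := F.div_mem (F.neg_mem hy) hx
    have hne : C - (-y / x) ≠ 0 := by
      intro h0
      apply hC
      rw [sub_eq_zero] at h0
      rw [h0]
      exact hya
    have h5 : x * C + y = x * (C - (-y / x)) := by
      field_simp
      ring
    rw [h5]
    exact h3 _ _ hx0 hne (h1 x hx hx0) (h2 _ hya hne)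

theorem linGen_two : LinGen 2 K L := by
  intro F C hC P h1 h2 h3 h4 z hz hz0
  by_cases hCF : C ∈ F
  · rw [ext_eq_of_mem hCF] at hz
    exact h1 z hz hz0
  · obtain ⟨x, hx, rfl⟩ := exists_poly two_pos hC hz
    have h5 : ∑ i ∈ Finset.range 2, x i * C ^ i = x 1 * C + x 0 := by
      rw [Finset.sum_range_succ, Finset.sum_range_one]
      ring
    rw [h5] at hz0 ⊢
    exact lin23_lin hCF P h1 h2 h3 (hx 1) (hx 0) hz0

theorem linGen_three : LinGen 3 K L := by
  intro F C hC P h1 h2 h3 h4 z hz hz0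
  by_cases hCF : C ∈ F
  · rw [ext_eq_of_mem hCF] at hz
    exact h1 z hz hz0
  · obtain ⟨x, hx, rfl⟩ := exists_poly (by norm_num) hC hz
    have h5 : ∑ i ∈ Finset.range 3, x i * C ^ i = x 0 + x 1 * C + x 2 * C ^ 2 := by
      rw [Finset.sum_range_succ, Finset.sum_range_succ, Finset.sum_range_one]
      ring
    rw [h5] at hz0 ⊢
    by_cases hx12 : x 1 = 0 ∧ x 2 = 0
    · rw [hx12.1, hx12.2, zero_mul, zero_mul, add_zero, add_zero] at hz0 ⊢
      exact h1 _ (hx 0) hz0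
    · have ht : x 2 * C + -x 1 ≠ 0 := by
        intro h0
        by_cases hx2 : x 2 = 0
        · rw [hx2, zero_mul, zero_add, neg_eq_zero] at h0
          exact hx12 ⟨h0, hx2⟩
        · apply hCF
          have h6 : C = x 1 / x 2 := by
            rw [eq_div_iff hx2]
            linear_combination h0
          rw [h6]
          exact F.div_mem (hx 1) (hx 2)
      have hPt := lin23_lin hCF P h1 h2 h3 (hx 2) (F.neg_mem (hx 1)) ht
      have h7 : (x 0 + x 1 * C + x 2 * C ^ 2) * (x 2 * C + -x 1) =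
          (x 0 * x 2 - x 1 ^ 2) * C + (x 2 ^ 2 * C ^ 3 - x 0 * x 1) := by ring
      have hne : (x 0 * x 2 - x 1 ^ 2) * C + (x 2 ^ 2 * C ^ 3 - x 0 * x 1) ≠ 0 := by
        rw [← h7]
        exact mul_ne_zero hz0 ht
      have hPzt := lin23_lin hCF P h1 h2 h3
        (F.sub_mem (F.mul_mem (hx 0) (hx 2)) (pow_mem (hx 1) 2))
        (F.sub_mem (F.mul_mem (pow_mem (hx 2) 2) hC) (F.mul_mem (hx 0) (hx 1))) hne
      rw [← h7] at hPzt
      have h8 := h3 _ _ (mul_ne_zero hz0 ht) (inv_ne_zero ht) hPzt (h4 _ ht hPt)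
      rwa [mul_inv_cancel_right₀ ht] at h8

end Pool.Agent.PSF
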