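import Pool.Agent.PSF.Cyc1
import Pool.Agent.PSF.Lin23

/-!
# PSF-Quart: cyclic quartic extensions in odd characteristic

`hbin`: the binomial theorem `β (1 - u) (1 - v) = 0` for radicals `u, v`; `hrad`: radicals are killed.

PLAN.  `e = C ^ 2`, `F = ext ⊥ e`; `e ^ 2 ∈ K`, so `β = 0` on `F` (`cyc_one`).  If `C ∈ F` then
`ext ⊥ C ≤ F` and we are done.  So assume `C ∉ F`; then `C - γ ≠ 0` for all `γ ∈ F`, and
`e ∉ K` (otherwise `cyc_one` for `C` itself finishes the proof; assume this too).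
`ext ⊥ C ≤ ext F C`, `C ^ 2 ∈ F`.
0. For `a ∈ K`, `γ ∈ F` of the form `e - b`, `b ∈ K`:  `β (C - a) (C - b) = 0`, `β (e - b) (C - a) = 0` for
   `a, b ∈ K`: if `a ≠ 0`, `C - a = - a (1 - C / a)`, `e - b = -b (1 - e / b)` and `hbin`, `hkill`; if `a = 0`
   or `b = 0` use `hrad`.
1. For `u, v ∈ K`, `u ≠ 0` let `q = e - u C + v`, `q' = e + u C + v` (both nonzero as `C ∉ F`) and
   `Λ a = β q (C - a)` for `a ∈ K`.
   (i) `Λ (u - a) = - Λ a`: `(C - a) (C - (u - a)) = q + κ`, `κ = a (u - a) - v ∈ K`; if `κ ≠ 0`, the line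
       relation `q + κ = (C - a)(C - u + a)` gives `β q κ = β q (..) + β (..) κ`, and `κ` is killed; if
       `κ = 0` use `β q q = 0`.
   (ii) `q q' = (e + v) ^ 2 - u ^ 2 e = c + v ^ 2 + (2 v - u ^ 2) e` with `c = C ^ 4 ∈ K`: it is
       `κ₀ + κ₁ e`, nonzero; so it is killed against `C - a` (by 0, or `hkill` if `κ₁ = 0`):
       `β q' (C - a) = - Λ a` for all `a ∈ K`.
   (iii) `Λ a + β q' (C + a) = 0`: with `γ = (e + v) / u ∈ F`, `q = - u (C - γ)`, `q' = u (C + γ)`; if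
       `γ ≠ a`: `β (C - γ) (C - a) = β (γ - a) (C - a) - β (γ - a) (C - γ)` (`sub_sub`), and
       `β (C + γ) (C + a) = β (γ - a) (C + a) - β (γ - a) (C + γ)` (up to signs, which do not matter:
       `neg_left`); the sum is `β (γ - a) (e - a ^ 2) - β (γ - a) (e - γ ^ 2) = 0` as all entries are in
       `F`.  (`γ ≠ a` since `e ∉ K`.)
   So `β q' (C + a) = - Λ a` by (iii) and `= - Λ (-a)` by (ii) at `-a`: `Λ (-a) = Λ a`.
   With (i): `Λ (a + u) = - Λ (-a) = - Λ a`.  By induction `Λ (a + p u) = (-1) ^ p Λ a = - Λ a`, and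
   `p u = 0`: `Λ a = - Λ a`, so `Λ a = 0` (`S.tf_neg`).
2. `β (e - b) (C - γ) = 0` for `b ∈ K`, `γ ∈ F`: `γ = x + y e` with `x, y ∈ K`; if `y = 0`, 0.
   Otherwise `C - γ = - y q` with `u = 1 / y`, `v = x / y`; `q = (e - b) - u (C - a)`, `a = (v + b) / u`:
   line relation: `β (e - b) (- u (C - a)) = β (e - b) q + β q (- u (C - a))`, so
   `β (e - b) q = - Λ a = 0`.
3. So `β f (C - γ) = 0` for all `f ∈ F` nonzero (`linGen_two ⊥ e`: `F` is generated by `K` and the
   `e - b`), and `β (C - γ) (C - γ') = 0` by `sub_sub`; conclude by `linGen_two F C` for `x` and `y`.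
-/

namespace Pool.Agent.PSF

universe u v

variable {K E : Type u} [Field K] [Field E] [Algebra K E] {V : Type v} [AddCommGroup V]

private lemma inB_iff {x : E} : InB K E x ↔ x ∈ (⊥ : IntermediateField K E) := by
  rw [IntermediateField.mem_bot, InB, Set.mem_range]
  constructor
  · rintro ⟨c, rfl⟩
    exact ⟨c, rfl⟩
  · rintro ⟨c, rfl⟩
    exact ⟨c, rfl⟩

private lemma radl_div {R a : E} (hR : IsRadl 2 K E R) (ha : a ∈ (⊥ : IntermediateField K E)) :
    IsRadl 2 K E (R / a) := by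
  obtain ⟨n, hn⟩ := hR
  refine ⟨n, ?_⟩
  rw [inB_iff] at hn ⊢
  rw [div_pow]
  exact div_mem hn (pow_mem ha _)

/-- step 0 -/
private theorem step0 (S : SymSys 2 E V)
    (hk : ∀ c ∈ (⊥ : IntermediateField K E), c ≠ 0 → ∀ b : E, b ≠ 0 → S.β c b = 0)
    (hrad : ∀ u : E, IsRadl 2 K E u → u ≠ 0 → ∀ b : E, b ≠ 0 → S.β u b = 0)
    (hbin : ∀ u v : E, IsRadl 2 K E u → IsRadl 2 K E v → u ≠ 1 → v ≠ 1 →
      S.β (1 - u) (1 - v) = 0) {R R' a b : E} (hR : IsRadl 2 K E R) (hR' : IsRadl 2 K E R')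
    (ha : a ∈ (⊥ : IntermediateField K E)) (hb : b ∈ (⊥ : IntermediateField K E))
    (h : R - a ≠ 0) (h' : R' - b ≠ 0) : S.β (R - a) (R' - b) = 0 := by
  by_cases ha0 : a = 0
  · rw [ha0, sub_zero] at h ⊢
    exact hrad R hR h _ h'
  by_cases hb0 : b = 0
  · rw [hb0, sub_zero] at h' ⊢
    rw [S.symm h h', hrad R' hR' h' _ h, neg_zero]
  have e1 : R - a = -a * (1 - R / a) := by
    field_simp
    ring
  have e2 : R' - b = -b * (1 - R' / b) := by
    field_simp
    ring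
  have hR1 : R / a ≠ 1 := by
    intro h1
    rw [e1, h1, sub_self, mul_zero] at h
    exact h rfl
  have hR1' : R' / b ≠ 1 := by
    intro h1
    rw [e2, h1, sub_self, mul_zero] at h'
    exact h' rfl
  have n1 : 1 - R / a ≠ 0 := sub_ne_zero.2 hR1.symm
  have n2 : 1 - R' / b ≠ 0 := sub_ne_zero.2 hR1'.symm
  have na : -a ≠ 0 := neg_ne_zero.2 ha0
  have nb : -b ≠ 0 := neg_ne_zero.2 hb0
  rw [e1, S.mul_left na n1 h', hk _ (neg_mem ha) na _ h', zero_add, e2, S.mul_right n1 nb n2,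
    S.symm n1 nb, hk _ (neg_mem hb) nb _ n1, neg_zero, zero_add]
  exact hbin _ _ (radl_div hR ha) (radl_div hR' hb) hR1 hR1'

/-- step 1 -/
private theorem step1 (S : SymSys 2 E V) {p : ℕ} (hp : p.Prime) (hp2 : p ≠ 2) [CharP K p]
    (hk : ∀ c ∈ (⊥ : IntermediateField K E), c ≠ 0 → ∀ b : E, b ≠ 0 → S.β c b = 0)
    {C : E} {F : IntermediateField K E}
    (hF0 : ∀ x ∈ F, ∀ y ∈ F, x ≠ 0 → y ≠ 0 → S.β x y = 0)
    (h0 : ∀ b ∈ (⊥ : IntermediateField K E), ∀ a ∈ (⊥ : IntermediateField K E),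
      S.β (C ^ 2 - b) (C - a) = 0)
    (hCF : C ∉ F) (heB : C ^ 2 ∉ (⊥ : IntermediateField K E)) (heF : C ^ 2 ∈ F)
    (hc : (C ^ 2) ^ 2 ∈ (⊥ : IntermediateField K E)) {u v : E}
    (hu : u ∈ (⊥ : IntermediateField K E)) (hu0 : u ≠ 0)
    (hv : v ∈ (⊥ : IntermediateField K E)) {a : E} (ha : a ∈ (⊥ : IntermediateField K E)) :
    S.β (C ^ 2 - u * C + v) (C - a) = 0 := by
  have hBF : (⊥ : IntermediateField K E) ≤ F := bot_le
  have hsub : ∀ x ∈ F, C - x ≠ 0 := by
    intro x hx h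
    rw [sub_eq_zero] at h
    exact hCF (h ▸ hx)
  have hadd : ∀ x ∈ F, C + x ≠ 0 := by
    intro x hx h
    rw [add_eq_zero_iff_eq_neg] at h
    exact hCF (h ▸ neg_mem hx)
  have hk' : ∀ c ∈ (⊥ : IntermediateField K E), c ≠ 0 → ∀ b : E, b ≠ 0 → S.β b c = 0 := by
    intro c hc hc0 b hb0
    rw [S.symm hb0 hc0, hk c hc hc0 b hb0, neg_zero]
  set q := C ^ 2 - u * C + v with hq
  set q' := C ^ 2 + u * C + v with hq'
  set γ := (C ^ 2 + v) / u with hγ
  have hγF : γ ∈ F := div_mem (add_mem heF (hBF hv)) (hBF hu)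
  have eq1 : q = -u * (C - γ) := by
    rw [hq, hγ]
    field_simp
    ring
  have eq2 : q' = u * (C + γ) := by
    rw [hq', hγ]
    field_simp
    ring
  have nu : -u ≠ 0 := neg_ne_zero.2 hu0
  have nγ : C - γ ≠ 0 := hsub γ hγF
  have nγ' : C + γ ≠ 0 := hadd γ hγF
  have nq : q ≠ 0 := by
    rw [eq1]
    exact mul_ne_zero nu nγ
  have nq' : q' ≠ 0 := by
    rw [eq2]
    exact mul_ne_zero hu0 nγ'
  -- (i)
  have h1 : ∀ a ∈ (⊥ : IntermediateField K E), S.β q (C - (u - a)) = -S.β q (C - a) := by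
    intro a ha
    have na : C - a ≠ 0 := hsub a (hBF ha)
    have nb : C - (u - a) ≠ 0 := hsub _ (hBF (sub_mem hu ha))
    have key : S.β q ((C - a) * (C - (u - a))) = 0 := by
      by_cases hκ : a * (u - a) - v = 0
      · have e : (C - a) * (C - (u - a)) = q := by
          have : (C - a) * (C - (u - a)) = q + (a * (u - a) - v) := by
            rw [hq]
            ring
          rw [this, hκ, add_zero]
        rw [e]
        exact S.self nq
      · have e : q + (a * (u - a) - v) = (C - a) * (C - (u - a)) := by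
          rw [hq]
          ring
        have hκB : a * (u - a) - v ∈ (⊥ : IntermediateField K E) :=
          sub_mem (mul_mem ha (sub_mem hu ha)) hv
        have h2 := S.line nq hκ (mul_ne_zero na nb) e
        rw [hk' _ hκB hκ _ nq, hk' _ hκB hκ _ (mul_ne_zero na nb), add_zero] at h2
        exact h2.symm
    rw [S.mul_right nq na nb] at key
    exact eq_neg_of_add_eq_zero_right key
  -- (ii)
  have h2 : ∀ a ∈ (⊥ : IntermediateField K E), S.β q' (C - a) = -S.β q (C - a) := by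
    intro a ha
    have na : C - a ≠ 0 := hsub a (hBF ha)
    have key : S.β (q * q') (C - a) = 0 := by
      have e : q * q' = ((C ^ 2) ^ 2 + v ^ 2) + (2 * v - u ^ 2) * C ^ 2 := by
        rw [hq, hq']
        ring
      by_cases hκ : 2 * v - u ^ 2 = 0
      · rw [hκ, zero_mul, add_zero] at e
        refine hk _ ?_ (mul_ne_zero nq nq') _ na
        rw [e]
        exact add_mem hc (pow_mem hv _)
      · have hκB : 2 * v - u ^ 2 ∈ (⊥ : IntermediateField K E) :=
          sub_mem (mul_mem (ofNat_mem _ 2) hv) (pow_mem hu _)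
        set b := -(((C ^ 2) ^ 2 + v ^ 2) / (2 * v - u ^ 2)) with hb
        have hbB : b ∈ (⊥ : IntermediateField K E) :=
          neg_mem (div_mem (add_mem hc (pow_mem hv _)) hκB)
        have e2 : q * q' = (2 * v - u ^ 2) * (C ^ 2 - b) := by
          have hb' : (2 * v - u ^ 2) * b = -((C ^ 2) ^ 2 + v ^ 2) := by
            rw [hb, mul_neg, mul_div_cancel₀ _ hκ]
          rw [e, mul_sub, hb']
          ring
        have nb : C ^ 2 - b ≠ 0 := by
          intro h
          rw [sub_eq_zero] at h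
          exact heB (h ▸ hbB)
        rw [e2, S.mul_left hκ nb na, hk _ hκB hκ _ na, h0 b hbB a ha, add_zero]
    rw [S.mul_left nq nq' na] at key
    exact eq_neg_of_add_eq_zero_right key
  -- (iii)
  have h3 : ∀ a ∈ (⊥ : IntermediateField K E), S.β q (C - a) + S.β q' (C + a) = 0 := by
    intro a ha
    have haF := hBF ha
    have na : C - a ≠ 0 := hsub a haF
    have na' : C + a ≠ 0 := hadd a haF
    have hne : γ ≠ a := by
      intro h
      apply heB
      have e : C ^ 2 = u * a - v := by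
        rw [← h, hγ]
        field_simp
        ring
      rw [e]
      exact sub_mem (mul_mem hu ha) hv
    have ng : γ - a ≠ 0 := sub_ne_zero.2 hne
    have t1 : S.β q (C - a) = S.β (C - γ) (C - a) := by
      rw [eq1, S.mul_left nu nγ na, hk _ (neg_mem hu) nu _ na, zero_add]
    have t2 : S.β q' (C + a) = S.β (C + γ) (C + a) := by
      rw [eq2, S.mul_left hu0 nγ' na', hk _ hu hu0 _ na', zero_add]
    have t3 : S.β (C - γ) (C - a) = S.β (γ - a) (C - a) - S.β (γ - a) (C - γ) :=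
      S.sub_sub nγ na hne
    have t4 : S.β (C + γ) (C + a) = S.β (γ - a) (C + a) - S.β (γ - a) (C + γ) := by
      have s1 : C - -γ ≠ 0 := by rwa [sub_neg_eq_add]
      have s2 : C - -a ≠ 0 := by rwa [sub_neg_eq_add]
      have h5 := S.sub_sub s1 s2 (fun h => hne (neg_injective h))
      have e : -γ - -a = -(γ - a) := by ring
      rw [e, sub_neg_eq_add, sub_neg_eq_add, S.neg_left ng na', S.neg_left ng nγ'] at h5
      exact h5
    have t5 : S.β (γ - a) (C - a) + S.β (γ - a) (C + a) = 0 := by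
      rw [← S.mul_right ng na na']
      have e : (C - a) * (C + a) = C ^ 2 - a ^ 2 := by ring
      rw [e]
      refine hF0 _ (sub_mem hγF haF) _ (sub_mem heF (pow_mem haF _)) ng ?_
      rw [← e]
      exact mul_ne_zero na na'
    have t6 : S.β (γ - a) (C - γ) + S.β (γ - a) (C + γ) = 0 := by
      rw [← S.mul_right ng nγ nγ']
      have e : (C - γ) * (C + γ) = C ^ 2 - γ ^ 2 := by ring
      rw [e]
      refine hF0 _ (sub_mem hγF haF) _ (sub_mem heF (pow_mem hγF _)) ng ?_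
      rw [← e]
      exact mul_ne_zero nγ nγ'
    rw [t1, t2, t3, t4]
    have e : S.β (γ - a) (C - a) - S.β (γ - a) (C - γ) +
        (S.β (γ - a) (C + a) - S.β (γ - a) (C + γ)) =
        (S.β (γ - a) (C - a) + S.β (γ - a) (C + a)) -
          (S.β (γ - a) (C - γ) + S.β (γ - a) (C + γ)) := by abel
    rw [e, t5, t6, sub_zero]
  -- symmetry and shift
  have h4 : ∀ a ∈ (⊥ : IntermediateField K E), S.β q (C - -a) = S.β q (C - a) := by
    intro a ha
    have s1 := h2 (-a) (neg_mem ha)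
    have s2 := h3 a ha
    rw [sub_neg_eq_add] at s1 ⊢
    rw [s1, add_neg_eq_zero] at s2
    exact s2.symm
  have h5 : ∀ a ∈ (⊥ : IntermediateField K E), S.β q (C - (a + u)) = -S.β q (C - a) := by
    intro a ha
    have s1 := h1 (-a) (neg_mem ha)
    rw [h4 a ha] at s1
    have e : a + u = u - -a := by ring
    rw [e]
    exact s1
  have h6 : ∀ n : ℕ, ∀ a ∈ (⊥ : IntermediateField K E),
      S.β q (C - (a + n * u)) = (-1 : ℤ) ^ n • S.β q (C - a) := by
    intro n
    induction n with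
    | zero =>
      intro a _
      simp
    | succ n ih =>
      intro a ha
      have hn : a + n * u ∈ (⊥ : IntermediateField K E) :=
        add_mem ha (mul_mem (natCast_mem _ n) hu)
      have e : a + ((n + 1 : ℕ) : E) * u = (a + n * u) + u := by
        push_cast
        ring
      rw [e, h5 _ hn, ih a ha, pow_succ]
      simp
  have hpE : (p : E) = 0 := by
    have h7 : (p : K) = 0 := CharP.cast_eq_zero K p
    have h8 : algebraMap K E (p : K) = 0 := by rw [h7, map_zero]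
    rwa [map_natCast] at h8
  have h7 := h6 p a ha
  have hodd : Odd p := hp.odd_of_ne_two hp2
  rw [hpE, zero_mul, add_zero, hodd.neg_one_pow, neg_smul, one_smul] at h7
  exact S.tf_neg h7

theorem quart (S : SymSys 2 E V) {p : ℕ} (hp : p.Prime) (hp2 : p ≠ 2) [CharP K p]
    (hkill : ∀ c : K, c ≠ 0 → ∀ b : E, b ≠ 0 → S.β (algebraMap K E c) b = 0)
    (hrad : ∀ u : E, IsRadl 2 K E u → u ≠ 0 → ∀ b : E, b ≠ 0 → S.β u b = 0)
    (hbin : ∀ u v : E, IsRadl 2 K E u → IsRadl 2 K E v → u ≠ 1 → v ≠ 1 →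
      S.β (1 - u) (1 - v) = 0) {C : E}
    (hC : InB K E (C ^ 4)) {x y : E} (hx : x ∈ ext (⊥ : IntermediateField K E) C)
    (hy : y ∈ ext (⊥ : IntermediateField K E) C) (hx0 : x ≠ 0) (hy0 : y ≠ 0) : S.β x y = 0 := by
  set B : IntermediateField K E := ⊥ with hB
  have hk : ∀ c ∈ B, c ≠ 0 → ∀ b : E, b ≠ 0 → S.β c b = 0 := by
    intro c hc hc0 b hb0
    obtain ⟨c', rfl⟩ := inB_iff.2 hc
    exact hkill c' (fun h => hc0 (by rw [h, map_zero])) b hb0
  have hk' : ∀ c ∈ B, c ≠ 0 → ∀ b : E, b ≠ 0 → S.β b c = 0 := by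
    intro c hc hc0 b hb0
    rw [S.symm hb0 hc0, hk c hc hc0 b hb0, neg_zero]
  have hc4 : (C ^ 2) ^ 2 ∈ B := by
    have h := inB_iff.1 hC
    rw [← pow_mul]
    exact h
  set F := ext B (C ^ 2) with hF
  have hlin : LinGen 2 K E := linGen_two
  have hF0 : ∀ x ∈ F, ∀ y ∈ F, x ≠ 0 → y ≠ 0 → S.β x y = 0 := by
    intro x hx y hy hx0 hy0
    exact cyc_one S hlin hkill (inB_iff.2 hc4) hx hy hx0 hy0
  by_cases hCF : C ∈ F
  · have hle : ext B C ≤ F := ext_le (le_ext B (C ^ 2)) hCF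
    exact hF0 x (hle hx) y (hle hy) hx0 hy0
  by_cases heB : C ^ 2 ∈ B
  · exact cyc_one S hlin hkill (inB_iff.2 heB) hx hy hx0 hy0
  have heF : C ^ 2 ∈ F := self_mem_ext B (C ^ 2)
  have hBF : B ≤ F := le_ext B (C ^ 2)
  have hsub : ∀ x ∈ F, C - x ≠ 0 := by
    intro x hx h
    rw [sub_eq_zero] at h
    exact hCF (h ▸ hx)
  have hsube : ∀ x ∈ B, C ^ 2 - x ≠ 0 := by
    intro x hx h
    rw [sub_eq_zero] at h
    exact heB (h ▸ hx)
  have hradC : IsRadl 2 K E C := ⟨2, hC⟩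
  have hrade : IsRadl 2 K E (C ^ 2) := ⟨1, by
    rw [pow_one]
    exact inB_iff.2 hc4⟩
  have h0 : ∀ b ∈ B, ∀ a ∈ B, S.β (C ^ 2 - b) (C - a) = 0 := by
    intro b hb a ha
    exact step0 S hk hrad hbin hrade hradC hb ha (hsube b hb) (hsub a (hBF ha))
  have hΛ : ∀ u ∈ B, u ≠ 0 → ∀ v ∈ B, ∀ a ∈ B, S.β (C ^ 2 - u * C + v) (C - a) = 0 := by
    intro u hu hu0 v hv a ha
    exact step1 S hp hp2 hk hF0 h0 hCF heB heF hc4 hu hu0 hv ha
  -- step 2
  have h2 : ∀ b ∈ B, ∀ γ ∈ F, S.β (C ^ 2 - b) (C - γ) = 0 := by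
    intro b hb γ hγ
    have nb := hsube b hb
    have nγ := hsub γ hγ
    obtain ⟨z, hz, hz2⟩ := exists_poly (F := B) (C := C ^ 2) (n := 2) (by norm_num) hc4 hγ
    rw [Finset.sum_range_succ, Finset.sum_range_one, pow_zero, mul_one, pow_one] at hz2
    by_cases hy0 : z 1 = 0
    · rw [hy0, zero_mul, add_zero] at hz2
      rw [hz2]
      exact h0 b hb _ (hz 0)
    · set u := 1 / z 1 with hu
      set v := z 0 / z 1 with hv
      have huB : u ∈ B := div_mem (one_mem B) (hz 1)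
      have hvB : v ∈ B := div_mem (hz 0) (hz 1)
      have hu0 : u ≠ 0 := one_div_ne_zero hy0
      set q := C ^ 2 - u * C + v with hq
      have e1 : C - γ = -z 1 * q := by
        rw [hz2, hq, hu, hv]
        field_simp
        ring
      have nz : -z 1 ≠ 0 := neg_ne_zero.2 hy0
      have nq : q ≠ 0 := by
        intro h
        rw [h, mul_zero] at e1
        exact nγ e1
      rw [e1, S.mul_right nb nz nq, hk' _ (neg_mem (hz 1)) nz _ nb, zero_add]
      set a := (v + b) / u with ha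
      have haB : a ∈ B := div_mem (add_mem hvB hb) huB
      have na : C - a ≠ 0 := hsub a (hBF haB)
      have nu : -u ≠ 0 := neg_ne_zero.2 hu0
      have e2 : (C ^ 2 - b) + -u * (C - a) = q := by
        rw [hq, ha]
        field_simp
        ring
      have h3 := S.line nb (mul_ne_zero nu na) nq e2
      rw [S.mul_right nb nu na, S.mul_right nq nu na, hk' _ (neg_mem huB) nu _ nb,
        hk' _ (neg_mem huB) nu _ nq, h0 b hb a haB, hΛ u huB hu0 v hvB a haB, zero_add,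
        add_zero] at h3
      exact h3.symm
  -- step 3
  have h3 : ∀ γ ∈ F, ∀ f ∈ F, f ≠ 0 → S.β f (C - γ) = 0 := by
    intro γ hγ f hf hf0
    have nγ := hsub γ hγ
    refine hlin B (C ^ 2) hc4 (fun f => S.β f (C - γ) = 0) ?_ ?_ ?_ ?_ f hf hf0
    · intro x hx hx0
      exact hk x hx hx0 _ nγ
    · intro a ha _
      exact h2 a ha γ hγ
    · intro x y hx0 hy0 hx hy
      rw [S.mul_left hx0 hy0 nγ, hx, hy, add_zero]
    · intro x hx0 hx
      rw [S.inv_left hx0 nγ, hx, neg_zero]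
  have h4 : ∀ γ ∈ F, ∀ γ' ∈ F, S.β (C - γ) (C - γ') = 0 := by
    intro γ hγ γ' hγ'
    by_cases h : γ = γ'
    · rw [h]
      exact S.self (hsub γ' hγ')
    · rw [S.sub_sub (hsub γ hγ) (hsub γ' hγ') h,
        h3 γ' hγ' _ (sub_mem hγ hγ') (sub_ne_zero.2 h),
        h3 γ hγ _ (sub_mem hγ hγ') (sub_ne_zero.2 h), sub_zero]
  have hle : ext B C ≤ ext F C := ext_le (hBF.trans (le_ext F C)) (self_mem_ext F C)
  have hCF2 : C ^ 2 ∈ F := heF
  have h5 : ∀ f ∈ F, f ≠ 0 → ∀ y ∈ ext F C, y ≠ 0 → S.β f y = 0 := by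
    intro f hf hf0 y hy hy0
    refine hlin F C hCF2 (fun y => S.β f y = 0) ?_ ?_ ?_ ?_ y hy hy0
    · intro x hx hx0
      exact hF0 f hf x hx hf0 hx0
    · intro a ha _
      exact h3 a ha f hf hf0
    · intro x y hx0 hy0 hx hy
      rw [S.mul_right hf0 hx0 hy0, hx, hy, add_zero]
    · intro x hx0 hx
      rw [S.inv_right hf0 hx0, hx, neg_zero]
  have h6 : ∀ γ ∈ F, ∀ y ∈ ext F C, y ≠ 0 → S.β (C - γ) y = 0 := by
    intro γ hγ y hy hy0
    have nγ := hsub γ hγ
    refine hlin F C hCF2 (fun y => S.β (C - γ) y = 0) ?_ ?_ ?_ ?_ y hy hy0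
    · intro x hx hx0
      rw [S.symm nγ hx0, h3 γ hγ x hx hx0, neg_zero]
    · intro a ha _
      exact h4 γ hγ a ha
    · intro x y hx0 hy0 hx hy
      rw [S.mul_right nγ hx0 hy0, hx, hy, add_zero]
    · intro x hx0 hx
      rw [S.inv_right nγ hx0, hx, neg_zero]
  have hyF := hle hy
  refine hlin F C hCF2 (fun x => S.β x y = 0) ?_ ?_ ?_ ?_ x (hle hx) hx0
  · intro x hx hx0
    exact h5 x hx hx0 y hyF hy0
  · intro a ha _
    exact h6 a ha y hyF hy0
  · intro x z hx0 hz0 hx hz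
    rw [S.mul_left hx0 hz0 hy0, hx, hz, add_zero]
  · intro x hx0 hx
    rw [S.inv_left hx0 hy0, hx, neg_zero]

end Pool.Agent.PSF
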