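import Pool.Agent.PSF.Radon
import Pool.Agent.PSF.KExt
import Pool.Agent.PSF.CycK
import Pool.Agent.PSF.Quart
import Pool.Agent.PSF.Rad

/-!
# PSF-FinQ: the second layer for `ℓ = 2` in positive characteristic

PLAN.  `i ∈ K` with `i ^ 2 = -1` is a primitive `4`-th root of unity (`(2 : K) ≠ 0`).  `rad_fin` gives a
finite `T` with `C ^ 4 ∈ K`; `kExt` with `ℓ = 2`, `m = 2` (`2 ^ 2 = 4`); `radon` for `S.comap E.val`
(`linGen_two`, `-1` is a primitive square root of `1`); `hcyc`: `exists_gen` (`n = 4`) and `quart` for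
`S.comap E.val`, whose hypotheses `hrad`, `hbin` on `E` follow from those on `L` (a radical of `E` is
a radical of `L`).
-/

namespace Pool.Agent.PSF

universe u v

private theorem finq_two {K : Type u} [Field K] {p : ℕ} (hp : p.Prime) (hp2 : p ≠ 2) [CharP K p] :
    (2 : K) ≠ 0 := by
  intro h
  have h1 : ((2 : ℕ) : K) = 0 := by exact_mod_cast h
  rw [CharP.cast_eq_zero_iff K p 2] at h1
  exact hp2 ((Nat.prime_dvd_prime_iff_eq hp Nat.prime_two).1 h1)

private theorem finq_prim {K : Type u} [Field K] (h2 : (2 : K) ≠ 0) {i : K} (hi : i ^ 2 = -1) :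
    IsPrimitiveRoot i (2 ^ 2) := by
  haveI : Fact (Nat.Prime 2) := ⟨Nat.prime_two⟩
  have h3 : orderOf i = 2 ^ (1 + 1) := by
    apply orderOf_eq_prime_pow
    · rw [pow_one, hi]
      intro h
      apply h2
      have : (1 : K) + 1 = 0 := by
        nth_rewrite 1 [← h]
        ring
      rw [← this]
      norm_num
    · rw [show (2 : ℕ) ^ (1 + 1) = 2 * 2 by norm_num, pow_mul, hi]
      norm_num
  have h4 := IsPrimitiveRoot.orderOf i
  rw [h3] at h4
  exact h4

private theorem finq_rad {K L : Type u} [Field K] [Field L] [Algebra K L]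
    (E : IntermediateField K L) (u : E) (hu : IsRadl 2 K E u) : IsRadl 2 K L (u : L) := by
  obtain ⟨n, c, hc⟩ := hu
  refine ⟨n, c, ?_⟩
  have h1 := congrArg (fun x : E => (x : L)) hc
  exact h1

theorem layer2 {K L : Type u} [Field K] [Field L] [Algebra K L] {p : ℕ} (hp : p.Prime)
    (hp2 : p ≠ 2) [CharP K p] {i : K} (hi : i ^ 2 = -1) {V : Type v}
    [AddCommGroup V] (S : SymSys 2 L V)
    (hkill : ∀ c : K, c ≠ 0 → ∀ b : L, b ≠ 0 → S.β (algebraMap K L c) b = 0)
    (hrad : ∀ u : L, IsRadl 2 K L u → u ≠ 0 → ∀ b : L, b ≠ 0 → S.β u b = 0)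
    (hbin : ∀ u v : L, IsRadl 2 K L u → IsRadl 2 K L v → u ≠ 1 → v ≠ 1 →
      S.β (1 - u) (1 - v) = 0) {z w : L}
    (hz : z ∈ IntermediateField.adjoin K {C : L | InB K L (C ^ 4)})
    (hw : w ∈ IntermediateField.adjoin K {C : L | InB K L (C ^ 4)}) (hz0 : z ≠ 0) (hw0 : w ≠ 0) :
    S.β z w = 0 := by
  have h2 : (2 : K) ≠ 0 := finq_two hp hp2
  have h2' : ((2 : ℕ) : K) ≠ 0 := by exact_mod_cast h2
  have hζ : IsPrimitiveRoot i (2 ^ 2) := finq_prim h2 hi
  obtain ⟨T, hTf, hTS, hzT, hwT⟩ := rad_fin _ hz hw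
  have hT4 : ∀ C ∈ T, InB K L (C ^ 2 ^ 2) := by
    intro C hC
    have h3 : InB K L (C ^ 4) := hTS hC
    have h4 : (2 : ℕ) ^ 2 = 4 := by norm_num
    rw [h4]
    exact h3
  obtain ⟨hfd, hgal, hcomm, hexp⟩ := kExt (ℓ := 2) (m := 2) Nat.prime_two h2' hζ T hTf hT4
  set E : IntermediateField K L := IntermediateField.adjoin K T with hE
  haveI := hfd
  haveI := hgal
  have hζ4 : IsPrimitiveRoot i 4 := hζ
  have hneg : IsPrimitiveRoot (-1 : K) 2 := IsPrimitiveRoot.neg_one p hp2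
  let S' : SymSys 2 E V := S.comap (algebraMap E L)
  have hS' : ∀ x y : E, S'.β x y = S.β (x : L) (y : L) := fun x y => rfl
  have hne : ∀ x : E, x ≠ 0 → (x : L) ≠ 0 := by
    intro x hx h
    apply hx
    exact Subtype.ext h
  have key : ∀ x y : E, x ≠ 0 → y ≠ 0 → S'.β x y = 0 := by
    intro x y hx hy
    refine radon Nat.prime_two S' linGen_two hcomm (fun g => ⟨2, hexp g⟩) hneg ?_ x y hx hy
    intro H hH x hx y hy hx0 hy0
    obtain ⟨C, hC, hsub⟩ := exists_gen (n := 4) (by norm_num) hcomm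
      (fun g => hexp g) hζ4 H hH
    refine quart S' hp hp2 ?_ ?_ ?_ hC (hsub x hx) (hsub y hy) hx0 hy0
    · intro c hc b hb
      exact hkill c hc (b : L) (hne b hb)
    · intro u hu hu0 b hb
      exact hrad (u : L) (finq_rad E u hu) (hne u hu0) (b : L) (hne b hb)
    · intro u v hu hv hu1 hv1
      have h5 : (u : L) ≠ 1 := fun h => hu1 (Subtype.ext h)
      have h6 : (v : L) ≠ 1 := fun h => hv1 (Subtype.ext h)
      exact hbin (u : L) (v : L) (finq_rad E u hu) (finq_rad E v hv) h5 h6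
  have h7 := key ⟨z, hzT⟩ ⟨w, hwT⟩ (fun h => hz0 (congrArg Subtype.val h))
    (fun h => hw0 (congrArg Subtype.val h))
  exact h7

end Pool.Agent.PSF
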