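import Pool.Agent.PSF.Radon
import Pool.Agent.PSF.KExt
import Pool.Agent.PSF.CycK
import Pool.Agent.PSF.Lin
import Pool.Agent.PSF.Rad

/-!
# PSF-FinR: reduction to cyclic Kummer extensions

PLAN.  `rad_gen` gives `m` and a finite `T` of elements with `C ^ ℓ ^ m ∈ K` and
`z, w ∈ E = adjoin K T`.  `kExt` (with the primitive `ℓ ^ m`-th root of unity from `hμK`), `radon` for
`S.comap E.val`; `hcyc`: `exists_gen` (`n = ℓ ^ m`) gives `C : E` with `fixedField H ≤ ext ⊥ C`,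
`C ^ ℓ ^ m ∈ K`; `coe_mem_adjoin` and `hsing` finish.
-/

namespace Pool.Agent.PSF

open Pool.Agent.Helper26

universe u v

theorem reduction {ℓ : ℕ} (hℓ : ℓ.Prime) {K : Type u} [Field K]
    (hK : (ℓ : K) ≠ 0) (hlin : Lin ℓ K)
    (hμK : ∀ n : ℕ, ∃ ζ : K, IsPrimitiveRoot ζ (ℓ ^ n)) {V : Type v}
    [AddCommGroup V] (S : SymSys ℓ (radClosure ℓ K) V)
    (hsing : ∀ (C : radClosure ℓ K) (n : ℕ), InB K (radClosure ℓ K) (C ^ ℓ ^ n) →
      ∀ x ∈ IntermediateField.adjoin K {C}, ∀ y ∈ IntermediateField.adjoin K {C},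
        x ≠ 0 → y ≠ 0 → S.β x y = 0) {z w : radClosure ℓ K} (hz0 : z ≠ 0) (hw0 : w ≠ 0) :
    S.β z w = 0 := by
  obtain ⟨m, T, hT, hTm, hzT, hwT⟩ := rad_gen hℓ z w
  obtain ⟨ζ, hζ⟩ := hμK m
  obtain ⟨ζ1, hζ1⟩ := hμK 1
  rw [pow_one] at hζ1
  obtain ⟨fd, gal, comm, hexp⟩ := kExt hℓ hK hζ T hT hTm
  have := fd
  have := gal
  have : Algebra.IsAlgebraic K (IntermediateField.adjoin K T) :=
    Algebra.IsAlgebraic.of_finite K _
  have hlinE := linGen_of_lin hℓ hK hlin (IntermediateField.adjoin K T)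
  refine radon hℓ (S.comap ((IntermediateField.adjoin K T).val :
      (IntermediateField.adjoin K T) →+* radClosure ℓ K)) hlinE comm
    (fun g => ⟨m, hexp g⟩) hζ1 ?_ ⟨z, hzT⟩ ⟨w, hwT⟩ ?_ ?_
  · intro H hH x hx y hy hx0 hy0
    obtain ⟨C, ⟨c, hc⟩, hgen⟩ := exists_gen (pow_pos hℓ.pos m) comm hexp hζ H hH
    refine hsing (C : radClosure ℓ K) m ⟨c, ?_⟩ (x : radClosure ℓ K) (coe_mem_adjoin (hgen x hx))
      (y : radClosure ℓ K) (coe_mem_adjoin (hgen y hy)) ?_ ?_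
    · have h := congrArg (fun t : IntermediateField.adjoin K T => (t : radClosure ℓ K)) hc
      exact h
    · intro h
      exact hx0 (Subtype.ext h)
    · intro h
      exact hy0 (Subtype.ext h)
  · intro h
    exact hz0 (congrArg (fun t : IntermediateField.adjoin K T => (t : radClosure ℓ K)) h)
  · intro h
    exact hw0 (congrArg (fun t : IntermediateField.adjoin K T => (t : radClosure ℓ K)) h)

end Pool.Agent.PSF
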