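import Pool.Agent.PSF.RadonU
import Pool.Agent.PSF.KExt
import Pool.Agent.PSF.CycK
import Pool.Agent.PSF.Lin
import Pool.Agent.PSF.Rad

/-!
# PSF-FinU: symbols `(1 - u, z)` with `z` in the first layer

`rad_fin`, `kExt` (`m = 1`) as in PSF-FinA; `radonU` for `s x = β (1 - u) (x : L)` on
`E = adjoin K T`.  `hcyc`: `exists_gen` (`n = ℓ`) gives `C : E`, `C ^ ℓ ∈ K`, `fixedField H ≤ ext ⊥ C`; use
`linGen_of_lin .. E` with `F = ⊥` and `P x := S.β (1 - u) (x : L) = 0`: for `c ∈ ⊥`, `hkill` and `S.symm`;
for `C - a`, `a ∈ ⊥`: if `a = 0` it is the radical `C` (`hrad`, `S.symm`); otherwise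
`C - a = (-a) (1 - C / a)` and `hbin` (`C / a ≠ 1`); products, inverses: `mul_right`, `inv_right`.
-/

namespace Pool.Agent.PSF

universe u v

theorem layerU {ℓ : ℕ} (hℓ : ℓ.Prime) {K L : Type u} [Field K] [Field L] [Algebra K L]
    (hK : (ℓ : K) ≠ 0) (hlin : Lin ℓ K) {ζ : K} (hζ : IsPrimitiveRoot ζ ℓ) {V : Type v}
    [AddCommGroup V] (S : SymSys ℓ L V)
    (hkill : ∀ c : K, c ≠ 0 → ∀ b : L, b ≠ 0 → S.β (algebraMap K L c) b = 0)
    (hrad : ∀ u : L, IsRadl ℓ K L u → u ≠ 0 → ∀ b : L, b ≠ 0 → S.β u b = 0)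
    (hbin : ∀ u v : L, IsRadl ℓ K L u → IsRadl ℓ K L v → u ≠ 1 → v ≠ 1 →
      S.β (1 - u) (1 - v) = 0) {u z : L} (hu : IsRadl ℓ K L u) (hu1 : u ≠ 1)
    (hz : z ∈ IntermediateField.adjoin K {C : L | InB K L (C ^ ℓ)}) (hz0 : z ≠ 0) :
    S.β (1 - u) z = 0 := by
  have h1u : 1 - u ≠ 0 := sub_ne_zero.mpr (Ne.symm hu1)
  obtain ⟨T, hT, hTS, hzT, -⟩ := rad_fin _ hz hz
  have hT1 : ∀ C ∈ T, InB K L (C ^ ℓ ^ 1) := by
    intro C hC
    have h2 : InB K L (C ^ ℓ) := hTS hC
    rwa [pow_one]
  have hζ1 : IsPrimitiveRoot ζ (ℓ ^ 1) := by rwa [pow_one]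
  obtain ⟨hfd, hgal, hcomm, hexp⟩ := kExt (m := 1) hℓ hK hζ1 T hT hT1
  haveI := hfd
  haveI := hgal
  have hne : ∀ {x : IntermediateField.adjoin K T}, x ≠ 0 → (x : L) ≠ 0 := by
    intro x hx h
    exact hx (by exact_mod_cast h)
  have key : ∀ x : IntermediateField.adjoin K T, x ≠ 0 → S.β (1 - u) (x : L) = 0 := by
    intro x hx
    refine radonU hℓ S.torsionFree (fun y : IntermediateField.adjoin K T => S.β (1 - u) (y : L))
      ?_ hcomm (fun g => ⟨1, hexp g⟩) ?_ x hx
    · intro x y hx hy
      simp only [IntermediateField.coe_mul]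
      exact S.mul_right h1u (hne hx) (hne hy)
    · intro H hH x hx hx0
      have hexp' : ∀ g : (IntermediateField.adjoin K T) ≃ₐ[K] (IntermediateField.adjoin K T),
          g ^ ℓ = 1 := by
        intro g
        have := hexp g
        rwa [pow_one] at this
      obtain ⟨C, hC, hfix⟩ := exists_gen hℓ.pos hcomm hexp' hζ H hH
      have hCL : InB K L ((C : L) ^ ℓ) := by
        obtain ⟨c, hc⟩ := hC
        refine ⟨c, ?_⟩
        have := congrArg (fun y : IntermediateField.adjoin K T => (y : L)) hc
        simpa using this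
      have hCbot : C ^ ℓ ∈ (⊥ : IntermediateField K (IntermediateField.adjoin K T)) := by
        obtain ⟨c, hc⟩ := hC
        rw [IntermediateField.mem_bot]
        exact ⟨c, hc.symm⟩
      have hlg := linGen_of_lin hℓ hK hlin (IntermediateField.adjoin K T)
      have hbot : ∀ a ∈ (⊥ : IntermediateField K (IntermediateField.adjoin K T)), a ≠ 0 →
          S.β (1 - u) (a : L) = 0 := by
        intro a ha ha0
        rw [IntermediateField.mem_bot] at ha
        obtain ⟨c, rfl⟩ := ha
        have hc0 : c ≠ 0 := by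
          rintro rfl
          exact ha0 (map_zero _)
        have h2 : ((algebraMap K (IntermediateField.adjoin K T) c : IntermediateField.adjoin K T)
          : L) = algebraMap K L c := rfl
        rw [S.symm h1u (hne ha0), h2, hkill c hc0 _ h1u, neg_zero]
      refine hlg ⊥ C hCbot
        (fun y : IntermediateField.adjoin K T => S.β (1 - u) (y : L) = 0) hbot ?_ ?_ ?_ x
        (hfix x hx) hx0
      · intro a ha hCa
        have ha' := ha
        rw [IntermediateField.mem_bot] at ha'
        obtain ⟨c, hc⟩ := ha'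
        by_cases ha0 : a = 0
        · subst ha0
          rw [sub_zero] at hCa ⊢
          have h3 : IsRadl ℓ K L (C : L) := ⟨1, by rwa [pow_one]⟩
          rw [S.symm h1u (hne hCa), hrad _ h3 (hne hCa) _ h1u, neg_zero]
        · have haL : (a : L) ≠ 0 := hne ha0
          have h4 : ((C - a : IntermediateField.adjoin K T) : L) =
              (-(a : L)) * (1 - (C : L) / (a : L)) := by
            push_cast
            field_simp
            ring
          have h5 : (C : L) / (a : L) ≠ 1 := by
            intro h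
            have h6 : (C : L) = (a : L) := by
              rwa [div_eq_one_iff_eq haL] at h
            apply hCa
            rw [sub_eq_zero]
            exact Subtype.ext h6
          have h6 : 1 - (C : L) / (a : L) ≠ 0 := sub_ne_zero.mpr (Ne.symm h5)
          have h7 : IsRadl ℓ K L ((C : L) / (a : L)) := by
            obtain ⟨c', hc'⟩ := hCL
            refine ⟨1, c' / c ^ ℓ, ?_⟩
            have h8 : (a : L) = algebraMap K L c := by
              rw [← hc]; rfl
            rw [pow_one, div_pow, hc', h8, map_div₀, map_pow]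
          show S.β (1 - u) ((C - a : IntermediateField.adjoin K T) : L) = 0
          rw [h4, S.mul_right h1u (neg_ne_zero.mpr haL) h6, S.neg_right h1u haL, hbot a ha ha0,
            hbin u _ hu h7 hu1 h5, add_zero]
      · intro x y hx hy hPx hPy
        show S.β (1 - u) ((x * y : IntermediateField.adjoin K T) : L) = 0
        have hPx' : S.β (1 - u) (x : L) = 0 := hPx
        have hPy' : S.β (1 - u) (y : L) = 0 := hPy
        rw [IntermediateField.coe_mul, S.mul_right h1u (hne hx) (hne hy), hPx', hPy', add_zero]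
      · intro x hx hPx
        show S.β (1 - u) ((x⁻¹ : IntermediateField.adjoin K T) : L) = 0
        have hPx' : S.β (1 - u) (x : L) = 0 := hPx
        rw [IntermediateField.coe_inv, S.inv_right h1u (hne hx), hPx', neg_zero]
  have hz1 : (⟨z, hzT⟩ : IntermediateField.adjoin K T) ≠ 0 := by
    intro h
    exact hz0 (congrArg Subtype.val h)
  exact key ⟨z, hzT⟩ hz1

end Pool.Agent.PSF
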