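import Mathlib

/-!
# PSF-GrpNC: a finite abelian `ℓ`-group that is not cyclic contains `(ℤ/ℓ)²`

`A = G ⧸ H` is not cyclic (a generator of `A` lifts to `g` with `H ⊔ zpowers g = ⊤`).  If the subgroup
`A[ℓ] = {a | a ^ ℓ = 1}` had at most `ℓ` elements, then `A` would be cyclic by
`isCyclic_of_card_pow_eq_one_le` (for `n = ℓ ^ k m`, `m` prime to `ℓ`, `{a ^ n = 1} = {a ^ ℓ ^ k = 1}`
has at most `ℓ ^ k` elements by induction on `k`, fibres of `a ↦ a ^ ℓ`).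
So `A[ℓ]` has more than `ℓ` elements: take `1 ≠ a₁ ∈ A[ℓ]` (`zpowers a₁` has `ℓ` elements) and
`a₂ ∈ A[ℓ] \ zpowers a₁`, and lift to `G`.
-/

namespace Pool.Agent.PSF

open Classical in
private theorem grpnc_card {A : Type*} [CommGroup A] [Fintype A] {ℓ : ℕ}
    (h : (Finset.univ.filter (fun a : A => a ^ ℓ = 1)).card ≤ ℓ) (k : ℕ) :
    (Finset.univ.filter (fun a : A => a ^ ℓ ^ k = 1)).card ≤ ℓ ^ k := by
  induction k with
  | zero =>
    rw [pow_zero]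
    refine Finset.card_le_one.2 fun a ha b hb => ?_
    rw [Finset.mem_filter, pow_one] at ha hb
    rw [ha.2, hb.2]
  | succ k ih =>
    have h1 := Finset.card_le_mul_card_image_of_maps_to
      (s := Finset.univ.filter (fun a : A => a ^ ℓ ^ (k + 1) = 1))
      (t := Finset.univ.filter (fun a : A => a ^ ℓ ^ k = 1)) (f := fun a => a ^ ℓ) (by
        intro a ha
        rw [Finset.mem_filter] at ha ⊢
        refine ⟨Finset.mem_univ _, ?_⟩
        rw [← pow_mul, ← pow_succ']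
        exact ha.2) ℓ (by
        intro b _
        by_cases hne : ((Finset.univ.filter (fun a : A => a ^ ℓ ^ (k + 1) = 1)).filter
            (fun a => a ^ ℓ = b)).Nonempty
        · obtain ⟨a0, ha0⟩ := hne
          rw [Finset.mem_filter] at ha0
          refine le_trans (Finset.card_le_card_of_injOn (fun a => a * a0⁻¹) ?_ ?_) h
          · intro a ha
            rw [Finset.mem_coe, Finset.mem_filter] at ha ⊢
            refine ⟨Finset.mem_univ _, ?_⟩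
            rw [mul_pow, inv_pow, ha.2, ha0.2, mul_inv_cancel]
          · intro a _ b _ hab
            exact mul_right_cancel hab
        · rw [Finset.not_nonempty_iff_eq_empty] at hne
          rw [hne]
          exact Nat.zero_le _)
    refine h1.trans ?_
    rw [pow_succ']
    exact Nat.mul_le_mul_left _ ih

open Classical in
private theorem grpnc_cyclic {A : Type*} [CommGroup A] [Fintype A] {ℓ : ℕ} (hℓ : ℓ.Prime)
    (hpow : ∀ a : A, ∃ m : ℕ, a ^ ℓ ^ m = 1)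
    (h : (Finset.univ.filter (fun a : A => a ^ ℓ = 1)).card ≤ ℓ) : IsCyclic A := by
  refine isCyclic_of_card_pow_eq_one_le fun n hn => ?_
  obtain ⟨k, m, hm, rfl⟩ := Nat.exists_eq_pow_mul_and_not_dvd hn.ne' ℓ hℓ.ne_one
  have hm0 : 0 < m := Nat.pos_of_ne_zero (by rintro rfl; exact hm (dvd_zero _))
  have h1 : (Finset.univ.filter (fun a : A => a ^ (ℓ ^ k * m) = 1)) ⊆
      (Finset.univ.filter (fun a : A => a ^ ℓ ^ k = 1)) := by
    intro a ha
    rw [Finset.mem_filter] at ha ⊢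
    refine ⟨Finset.mem_univ _, ?_⟩
    obtain ⟨j, hj⟩ := hpow a
    rw [← orderOf_dvd_iff_pow_eq_one] at hj ⊢
    obtain ⟨i, _, hi⟩ := (Nat.dvd_prime_pow hℓ).1 hj
    have h2 : orderOf a ∣ ℓ ^ k * m := orderOf_dvd_iff_pow_eq_one.2 ha.2
    rw [hi] at h2 ⊢
    exact Nat.Coprime.dvd_of_dvd_mul_right
      (Nat.Coprime.pow_left _ ((Nat.Prime.coprime_iff_not_dvd hℓ).2 hm)) h2
  calc (Finset.univ.filter (fun a : A => a ^ (ℓ ^ k * m) = 1)).card
      ≤ (Finset.univ.filter (fun a : A => a ^ ℓ ^ k = 1)).card := Finset.card_le_card h1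
    _ ≤ ℓ ^ k := grpnc_card h k
    _ ≤ ℓ ^ k * m := Nat.le_mul_of_pos_right _ hm0

private theorem grpnc_pair {G : Type*} [CommGroup G] [Finite G] {ℓ : ℕ} (hℓ : ℓ.Prime)
    (hpow : ∀ g : G, ∃ m : ℕ, g ^ ℓ ^ m = 1) (H : Subgroup G)
    (hH : ¬ ∃ g : G, H ⊔ Subgroup.zpowers g = ⊤) :
    ∃ g₁ g₂ : G, g₁ ^ ℓ ∈ H ∧ g₂ ^ ℓ ∈ H ∧ g₁ ∉ H ∧ g₂ ∉ H ⊔ Subgroup.zpowers g₁ := by
  classical
  have : Fintype (G ⧸ H) := Fintype.ofFinite _
  have : Fact ℓ.Prime := ⟨hℓ⟩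
  have hpowA : ∀ a : G ⧸ H, ∃ m : ℕ, a ^ ℓ ^ m = 1 := by
    intro a
    obtain ⟨x, rfl⟩ := QuotientGroup.mk_surjective a
    obtain ⟨m, hm⟩ := hpow x
    refine ⟨m, ?_⟩
    have : ((x : G ⧸ H)) ^ ℓ ^ m = ((x ^ ℓ ^ m : G) : G ⧸ H) := rfl
    rw [this, hm]
    rfl
  have hnc : ¬ IsCyclic (G ⧸ H) := by
    intro hc
    obtain ⟨a, ha⟩ := hc.exists_generator
    obtain ⟨g, rfl⟩ := QuotientGroup.mk_surjective a
    apply hH
    refine ⟨g, eq_top_iff.2 fun x _ => ?_⟩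
    obtain ⟨k, hk⟩ := Subgroup.mem_zpowers_iff.1 (ha (x : G ⧸ H))
    have h1 : ((g ^ k : G) : G ⧸ H) = (x : G ⧸ H) := hk
    rw [QuotientGroup.eq] at h1
    have h2 : x = (g ^ k) * ((g ^ k)⁻¹ * x) := by group
    rw [h2]
    exact Subgroup.mul_mem _ (Subgroup.mem_sup_right (Subgroup.zpow_mem_zpowers g k))
      (Subgroup.mem_sup_left h1)
  have hcard : ℓ < (Finset.univ.filter (fun a : G ⧸ H => a ^ ℓ = 1)).card := by
    by_contra hcon
    exact hnc (grpnc_cyclic hℓ hpowA (le_trans (le_of_eq (by congr)) (not_lt.1 hcon)))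
  obtain ⟨a₁, ha₁, ha₁'⟩ : ∃ a ∈ Finset.univ.filter (fun a : G ⧸ H => a ^ ℓ = 1), a ≠ 1 :=
    Finset.exists_mem_ne (lt_of_le_of_lt hℓ.one_lt.le hcard) 1
  rw [Finset.mem_filter] at ha₁
  have hord : orderOf a₁ = ℓ := orderOf_eq_prime ha₁.2 ha₁'
  have hz : (Finset.univ.filter (fun a : G ⧸ H => a ∈ Subgroup.zpowers a₁)).card = ℓ := by
    rw [← hord, ← Nat.card_zpowers, Nat.card_eq_fintype_card, Fintype.card_subtype]
  obtain ⟨a₂, ha₂, ha₂'⟩ := Finset.exists_mem_notMem_of_card_lt_card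
    (s := Finset.univ.filter (fun a : G ⧸ H => a ∈ Subgroup.zpowers a₁))
    (t := Finset.univ.filter (fun a : G ⧸ H => a ^ ℓ = 1)) (by rw [hz]; exact hcard)
  rw [Finset.mem_filter] at ha₂
  have ha₂'' : a₂ ∉ Subgroup.zpowers a₁ := by
    intro hmem
    exact ha₂' (Finset.mem_filter.2 ⟨Finset.mem_univ _, hmem⟩)
  obtain ⟨g₁, rfl⟩ := QuotientGroup.mk_surjective a₁
  obtain ⟨g₂, rfl⟩ := QuotientGroup.mk_surjective a₂
  refine ⟨g₁, g₂, (QuotientGroup.eq_one_iff _).1 ha₁.2, (QuotientGroup.eq_one_iff _).1 ha₂.2, ?_, ?_⟩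
  · intro hmem
    exact ha₁' ((QuotientGroup.eq_one_iff _).2 hmem)
  · intro hmem
    apply ha₂''
    have h1 : (QuotientGroup.mk' H) g₂ ∈ (H ⊔ Subgroup.zpowers g₁).map (QuotientGroup.mk' H) :=
      Subgroup.mem_map_of_mem _ hmem
    rw [Subgroup.map_sup, QuotientGroup.map_mk'_self, bot_sup_eq, MonoidHom.map_zpowers] at h1
    exact h1

theorem exists_pair {G : Type*} [Group G] [Finite G] {ℓ : ℕ} (hℓ : ℓ.Prime)
    (hcomm : ∀ g h : G, g * h = h * g) (hpow : ∀ g : G, ∃ m : ℕ, g ^ ℓ ^ m = 1) (H : Subgroup G)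
    (hH : ¬ ∃ g : G, H ⊔ Subgroup.zpowers g = ⊤) :
    ∃ g₁ g₂ : G, g₁ ^ ℓ ∈ H ∧ g₂ ^ ℓ ∈ H ∧ g₁ ∉ H ∧ g₂ ∉ H ⊔ Subgroup.zpowers g₁ := by
  let iG : CommGroup G := { ‹Group G› with mul_comm := hcomm }
  exact @grpnc_pair G iG _ ℓ hℓ hpow H hH

end Pool.Agent.PSF
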