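import Pool.Agent.PSF.CohDefs

/-!
# PSF-Kc: Kummer characters

PLAN.  `hn : (n : L) ≠ 0`, so `n ≠ 0`; `Ω` separably closed: every `x : Ω` has an `n`-th root
(`IsSepClosed.exists_pow_nat_eq`, needs `NeZero (n : Ω)`).  `algebraMap L Ω ζ` is a primitive `n`-th
root of unity (`IsPrimitiveRoot.map_of_injective`).
* `kc_spec`: pick one root `α₀ ≠ 0`; `(g α₀ / α₀) ^ n = 1` because `g` fixes `L`, so
  `g α₀ = ζ ^ k * α₀` with `k < n` (`IsPrimitiveRoot.eq_pow_of_pow_eq_one`).  Another root is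
  `ζ ^ j * α₀`, and `g` fixes `ζ`.  Then `Classical.choose_spec`.
* `kc_unique`: two exponents with the same power are congruent mod `n`
  (`IsPrimitiveRoot.pow_inj` or `(IsPrimitiveRoot.pow_eq_pow_iff ..)`/`orderOf`).
* the rest: compare the action on roots; `kc_mul`: product of roots is a root of the product;
  `kc_comp`: `g (h α) = ζ ^ k_h * g α`; `kc_level`: if `α ^ (m * n) = a` then `(α ^ m) ^ n = a`, so
  `g (α ^ m) = (ζ ^ m) ^ k * α ^ m`; `kc_fin`: take `E = L(α₀)`.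
-/

namespace Pool.Agent.PSF

universe u

variable {L Ω : Type u} [Field L] [Field Ω] [Algebra L Ω]

private lemma kq_ne {n : ℕ} (hn : (n : L) ≠ 0) : n ≠ 0 := by
  rintro rfl
  exact hn Nat.cast_zero

private lemma kq_root [IsSepClosed Ω] {n : ℕ} (hn : (n : L) ≠ 0) (x : Ω) : ∃ y : Ω, y ^ n = x := by
  haveI : NeZero (n : Ω) := ⟨by
    intro h
    apply hn
    apply (algebraMap L Ω).injective
    rw [map_natCast, map_zero, h]⟩
  exact IsSepClosed.exists_pow_nat_eq x n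

private lemma kq_modEq {n i j : ℕ} {ξ : Ω} (hn : n ≠ 0) (hξ : IsPrimitiveRoot ξ n)
    (h : ξ ^ i = ξ ^ j) : i ≡ j [MOD n] := by
  have hr : ∀ k, ξ ^ k = ξ ^ (k % n) := by
    intro k
    conv_lhs => rw [← Nat.div_add_mod k n, pow_add, pow_mul, hξ.pow_eq_one, one_pow, one_mul]
  rw [hr i, hr j] at h
  exact hξ.pow_inj (Nat.mod_lt _ (Nat.pos_of_ne_zero hn)) (Nat.mod_lt _ (Nat.pos_of_ne_zero hn)) h

private lemma kq_ne_zero {n : ℕ} (hn : (n : L) ≠ 0) {a : L} (ha : a ≠ 0) {α : Ω}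
    (hα : α ^ n = algebraMap L Ω a) : α ≠ 0 := by
  rintro rfl
  rw [zero_pow (kq_ne hn)] at hα
  apply ha
  apply (algebraMap L Ω).injective
  rw [map_zero, hα]

private lemma kq_rel {n : ℕ} (hn : (n : L) ≠ 0) {ζ : L} (hζ : IsPrimitiveRoot ζ n) {a : L}
    (ha : a ≠ 0) {α β : Ω} (hα : α ^ n = algebraMap L Ω a) (hβ : β ^ n = algebraMap L Ω a) :
    ∃ j < n, β = algebraMap L Ω ζ ^ j * α := by
  haveI : NeZero n := ⟨kq_ne hn⟩
  have hζ' : IsPrimitiveRoot (algebraMap L Ω ζ) n :=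
    hζ.map_of_injective (algebraMap L Ω).injective
  have h0 := kq_ne_zero hn ha hα
  have h1 : (β / α) ^ n = 1 := by
    rw [div_pow, hα, hβ, div_self]
    rw [← hα]
    exact pow_ne_zero _ h0
  obtain ⟨j, hj, h2⟩ := hζ'.eq_pow_of_pow_eq_one h1
  exact ⟨j, hj, by rw [h2, div_mul_cancel₀ _ h0]⟩

lemma kc_spec [IsSepClosed Ω] {n : ℕ} (hn : (n : L) ≠ 0) {ζ : L} (hζ : IsPrimitiveRoot ζ n) {a : L}
    (ha : a ≠ 0) (g : Ω ≃ₐ[L] Ω) : kc n ζ a g < n ∧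
      ∀ α : Ω, α ^ n = algebraMap L Ω a → g α = algebraMap L Ω ζ ^ kc n ζ a g * α := by
  have h : ∃ k : ℕ, k < n ∧ ∀ α : Ω, α ^ n = algebraMap L Ω a →
      g α = algebraMap L Ω ζ ^ k * α := by
    obtain ⟨α₀, h0⟩ := kq_root (L := L) hn (algebraMap L Ω a)
    have h1 : (g α₀) ^ n = algebraMap L Ω a := by
      rw [← map_pow, h0, AlgEquiv.commutes]
    obtain ⟨k, hk, h2⟩ := kq_rel hn hζ ha h0 h1
    refine ⟨k, hk, fun α hα => ?_⟩
    obtain ⟨j, _, h3⟩ := kq_rel hn hζ ha h0 hα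
    rw [h3, map_mul, map_pow, AlgEquiv.commutes, h2]
    ring
  unfold kc
  rw [dif_pos h]
  exact Classical.choose_spec h


lemma exists_root [IsSepClosed Ω] {n : ℕ} (hn : (n : L) ≠ 0) (x : Ω) : ∃ y : Ω, y ^ n = x := by
  exact kq_root (L := L) hn x


/-- Uniqueness of the exponent modulo `n`. -/
lemma kc_unique [IsSepClosed Ω] {n : ℕ} (hn : (n : L) ≠ 0) {ζ : L} (hζ : IsPrimitiveRoot ζ n)
    {a : L} (ha : a ≠ 0) (g : Ω ≃ₐ[L] Ω) {k : ℕ} {α : Ω} (hα : α ^ n = algebraMap L Ω a)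
    (hg : g α = algebraMap L Ω ζ ^ k * α) : kc n ζ a g ≡ k [MOD n] := by
  have h1 := (kc_spec hn hζ ha g).2 α hα
  rw [hg] at h1
  have h2 := mul_right_cancel₀ (kq_ne_zero hn ha hα) h1
  exact kq_modEq (kq_ne hn) (hζ.map_of_injective (algebraMap L Ω).injective) h2.symm


lemma kc_mul [IsSepClosed Ω] {n : ℕ} (hn : (n : L) ≠ 0) {ζ : L} (hζ : IsPrimitiveRoot ζ n)
    {a a' : L} (ha : a ≠ 0) (ha' : a' ≠ 0) (g : Ω ≃ₐ[L] Ω) :
    kc n ζ (a * a') g ≡ kc n ζ a g + kc n ζ a' g [MOD n] := by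
  obtain ⟨α, hα⟩ := kq_root (L := L) hn (algebraMap L Ω a)
  obtain ⟨β, hβ⟩ := kq_root (L := L) hn (algebraMap L Ω a')
  refine kc_unique hn hζ (mul_ne_zero ha ha') g (α := α * β) ?_ ?_
  · rw [mul_pow, hα, hβ, map_mul]
  · rw [map_mul, (kc_spec hn hζ ha g).2 α hα, (kc_spec hn hζ ha' g).2 β hβ, pow_add]
    ring


lemma kc_comp [IsSepClosed Ω] {n : ℕ} (hn : (n : L) ≠ 0) {ζ : L} (hζ : IsPrimitiveRoot ζ n)
    {a : L} (ha : a ≠ 0) (g h : Ω ≃ₐ[L] Ω) :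
    kc n ζ a (g * h) ≡ kc n ζ a g + kc n ζ a h [MOD n] := by
  obtain ⟨α, hα⟩ := kq_root (L := L) hn (algebraMap L Ω a)
  refine kc_unique hn hζ ha (g * h) hα ?_
  rw [AlgEquiv.mul_apply, (kc_spec hn hζ ha h).2 α hα, map_mul, map_pow, AlgEquiv.commutes,
    (kc_spec hn hζ ha g).2 α hα, pow_add]
  ring


lemma kc_level [IsSepClosed Ω] {n m : ℕ} (hn : ((m * n : ℕ) : L) ≠ 0) {ζ : L}
    (hζ : IsPrimitiveRoot ζ (m * n)) {a : L} (ha : a ≠ 0) (g : Ω ≃ₐ[L] Ω) :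
    kc (m * n) ζ a g ≡ kc n (ζ ^ m) a g [MOD n] := by
  obtain ⟨α, hα⟩ := kq_root (L := L) hn (algebraMap L Ω a)
  have hmn : m * n ≠ 0 := kq_ne hn
  have hn' : (n : L) ≠ 0 := by
    intro h
    apply hn
    rw [Nat.cast_mul, h, mul_zero]
  have hζ' : IsPrimitiveRoot (ζ ^ m) n := hζ.pow (Nat.pos_of_ne_zero hmn) rfl
  refine (kc_unique hn' hζ' ha g (α := α ^ m) ?_ ?_).symm
  · rw [← pow_mul, hα]
  · rw [map_pow, (kc_spec hn hζ ha g).2 α hα, mul_pow, map_pow, ← pow_mul, ← pow_mul,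
      mul_comm (kc (m * n) ζ a g) m]


/-- The Kummer character is of finite level. -/
lemma kc_fin [IsSepClosed Ω] {n : ℕ} (hn : (n : L) ≠ 0) {ζ : L} (hζ : IsPrimitiveRoot ζ n)
    {a : L} (ha : a ≠ 0) : ∃ E : IntermediateField L Ω, FiniteDimensional L E ∧
      (∀ α : Ω, α ^ n = algebraMap L Ω a → α ∈ E) ∧
      ∀ g g' : Ω ≃ₐ[L] Ω, (∀ x ∈ E, g x = g' x) → kc n ζ a g = kc n ζ a g' := by
  obtain ⟨α, hα⟩ := kq_root (L := L) hn (algebraMap L Ω a)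
  have hint : IsIntegral L α := by
    refine IsIntegral.of_pow (Nat.pos_of_ne_zero (kq_ne hn)) ?_
    rw [hα]
    exact isIntegral_algebraMap
  refine ⟨IntermediateField.adjoin L {α}, IntermediateField.adjoin.finiteDimensional hint, ?_, ?_⟩
  · intro β hβ
    obtain ⟨j, _, h3⟩ := kq_rel hn hζ ha hα hβ
    rw [h3]
    exact mul_mem (pow_mem (IntermediateField.algebraMap_mem _ ζ) j)
      (IntermediateField.mem_adjoin_simple_self L α)
  · intro g g' hg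
    have h1 := hg α (IntermediateField.mem_adjoin_simple_self L α)
    have h2 := kc_spec hn hζ ha g
    have h3 := kc_spec hn hζ ha g'
    have h4 := kc_unique hn hζ ha g hα (h1.trans (h3.2 α hα))
    exact Nat.ModEq.eq_of_lt_of_lt h4 h2.1 h3.1


end Pool.Agent.PSF
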