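import Pool.Agent.PSF.Defs
import Pool.Agent.PSF.ExtP

/-!
# PSF-KumStep: Kummer generator of a step of degree `ℓ`

PLAN.  `F = fixedField (H ⊔ zpowers g)`, `M = fixedField H`.
1. The restrictions of `g ^ t`, `t < ℓ`, to `M` are distinct homomorphisms `M → E`: if
   `g ^ s = g ^ t` on `M`, `s < t < ℓ`, then `g ^ (t - s)` fixes `M`, so it is in `H`
   (`IntermediateField.fixingSubgroup_fixedField`), and with `g ^ ℓ ∈ H`, `gcd (t - s, ℓ) = 1`, `g ∈ H`.
   By `linearIndependent_monoidHom` there is `θ ∈ M` with `C = ∑ t < ℓ, ζ ^ (-t) g ^ t θ ≠ 0`.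
2. `h C = C` for `h ∈ H` (commutativity), `g C = ζ C` (`g ^ ℓ θ = θ`), so `g (C ^ ℓ) = C ^ ℓ` and
   `C ^ ℓ ∈ F`.
3. `ext F C = M`: `⊆` clear (`ext_le`).  `⊇`: by the Galois correspondence it suffices that every
   `x` in the fixing subgroup of `ext F C` is in `H`: it fixes `F`, so it is in `H ⊔ zpowers g`, i.e. `x = h g ^ t`
   (`hcomm`; `t : ℤ`), and `x C = ζ ^ t C = C` gives `ℓ ∣ t`, so `x ∈ H`.
-/

namespace Pool.Agent.PSF

universe u

private lemma mem_of_pow {G : Type*} [Group G] (H : Subgroup G) {g : G} {m n : ℕ}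
    (hmn : Nat.Coprime m n) (hm : g ^ m ∈ H) (hn : g ^ n ∈ H) : g ∈ H := by
  have hb : (m : ℤ) * Nat.gcdA m n + (n : ℤ) * Nat.gcdB m n = 1 := by
    have := Nat.gcd_eq_gcd_ab m n
    rw [hmn.gcd_eq_one] at this
    exact_mod_cast this.symm
  have h1 : g = (g ^ m) ^ (Nat.gcdA m n) * (g ^ n) ^ (Nat.gcdB m n) := by
    rw [← zpow_natCast g m, ← zpow_natCast g n, ← zpow_mul, ← zpow_mul, ← zpow_add, hb, zpow_one]
  rw [h1]
  exact H.mul_mem (H.zpow_mem hm _) (H.zpow_mem hn _)

theorem kumStep {ℓ : ℕ} (hℓ : ℓ.Prime) {K E : Type u} [Field K] [Field E] [Algebra K E]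
    [FiniteDimensional K E] [IsGalois K E] (hcomm : ∀ g h : E ≃ₐ[K] E, g * h = h * g) {ζ : K}
    (hζ : IsPrimitiveRoot ζ ℓ) (H : Subgroup (E ≃ₐ[K] E)) (g : E ≃ₐ[K] E) (hg : g ∉ H)
    (hgℓ : g ^ ℓ ∈ H) :
    ∃ C : E, C ^ ℓ ∈ IntermediateField.fixedField (H ⊔ Subgroup.zpowers g) ∧
      g C = algebraMap K E ζ * C ∧
      ext (IntermediateField.fixedField (H ⊔ Subgroup.zpowers g)) C =
        IntermediateField.fixedField H := by
  classical
  set M : IntermediateField K E := IntermediateField.fixedField H with hM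
  set F : IntermediateField K E :=
    IntermediateField.fixedField (H ⊔ Subgroup.zpowers g) with hF
  have hMH : M.fixingSubgroup = H := IntermediateField.fixingSubgroup_fixedField H
  have hFH : F.fixingSubgroup = H ⊔ Subgroup.zpowers g :=
    IntermediateField.fixingSubgroup_fixedField _
  have hζ0 : ζ ≠ 0 := hζ.ne_zero hℓ.ne_zero
  set z : E := algebraMap K E ζ with hz
  have hz0 : z ≠ 0 := by
    rw [hz]; exact (map_ne_zero _).mpr hζ0
  have hzprim : IsPrimitiveRoot z ℓ := hζ.map_of_injective (algebraMap K E).injective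
  have hMfix : ∀ h ∈ H, ∀ x ∈ M, h x = x := by
    intro h hh x hx
    rw [hM, IntermediateField.mem_fixedField_iff] at hx
    exact hx h hh
  -- the homomorphisms
  let φ : ℕ → (M →* E) := fun t => ((g ^ t : E ≃ₐ[K] E) : E →* E).comp (M.val : M →* E)
  have hφ : ∀ t (x : M), φ t x = (g ^ t) (x : E) := fun t x => rfl
  have hφinj : ∀ s t, s < ℓ → t < ℓ → φ s = φ t → s = t := by
    have key : ∀ s t, s < t → t < ℓ → φ s ≠ φ t := by
      intro s t hst ht he
      apply hg
      have h1 : g ^ (t - s) ∈ H := by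
        rw [← hMH, IntermediateField.mem_fixingSubgroup_iff]
        intro x hx
        have h2 : φ s ⟨x, hx⟩ = φ t ⟨x, hx⟩ := by rw [he]
        rw [hφ, hφ] at h2
        have h3 : (g ^ t : E ≃ₐ[K] E) = g ^ s * g ^ (t - s) := by
          rw [← pow_add]; congr 1; omega
        rw [h3] at h2
        exact ((g ^ s).injective h2).symm
      refine mem_of_pow H ?_ h1 hgℓ
      rw [Nat.coprime_comm]
      rw [Nat.Prime.coprime_iff_not_dvd hℓ]
      intro hd
      have := Nat.le_of_dvd (by omega) hd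
      omega
    intro s t hs ht he
    rcases lt_trichotomy s t with h | h | h
    · exact absurd he (key s t h ht)
    · exact h
    · exact absurd he.symm (key t s h hs)
  obtain ⟨θ, hθ⟩ : ∃ θ : M, ∑ t ∈ Finset.range ℓ, (z⁻¹) ^ t * (g ^ t) (θ : E) ≠ 0 := by
    by_contra hcon
    push Not at hcon
    have hli := linearIndependent_monoidHom M E
    have hli2 : LinearIndependent E (fun t : Fin ℓ => (φ t : M → E)) := by
      have := hli.comp (fun t : Fin ℓ => φ t) (by
        intro a b hab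
        exact Fin.ext (hφinj a b a.2 b.2 hab))
      exact this
    rw [Fintype.linearIndependent_iff] at hli2
    have h0 := hli2 (fun t : Fin ℓ => (z⁻¹) ^ (t : ℕ)) (by
      funext x
      rw [Finset.sum_apply]
      simp only [Pi.smul_apply, smul_eq_mul, Pi.zero_apply]
      have := hcon x
      rw [Finset.sum_range] at this
      exact this) ⟨0, hℓ.pos⟩
    simp at h0
  set C : E := ∑ t ∈ Finset.range ℓ, (z⁻¹) ^ t * (g ^ t) (θ : E) with hC
  have hzfix : ∀ h : E ≃ₐ[K] E, h z = z := fun h => by rw [hz]; exact h.commutes ζ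
  have hHC : ∀ h ∈ H, h C = C := by
    intro h hh
    rw [hC, map_sum]
    refine Finset.sum_congr rfl fun t _ => ?_
    rw [map_mul, map_pow, map_inv₀, hzfix]
    congr 1
    have h1 : h ((g ^ t) (θ : E)) = (g ^ t) (h (θ : E)) := by
      have := hcomm h (g ^ t)
      exact DFunLike.congr_fun this (θ : E)
    rw [h1, hMfix h hh _ θ.2]
  have hgC : g C = z * C := by
    have h1 : g C = ∑ t ∈ Finset.range ℓ, z * ((z⁻¹) ^ (t + 1) * (g ^ (t + 1)) (θ : E)) := by
      rw [hC, map_sum]
      refine Finset.sum_congr rfl fun t _ => ?_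
      rw [map_mul, map_pow, map_inv₀, hzfix]
      have h2 : g ((g ^ t) (θ : E)) = (g ^ (t + 1)) (θ : E) := by
        rw [pow_succ']; rfl
      rw [h2, pow_succ' z⁻¹ t, ← mul_assoc, ← mul_assoc, mul_inv_cancel₀ hz0, one_mul]
    rw [h1, ← Finset.mul_sum, hC]
    congr 1
    have h3 := Finset.sum_range_succ' (fun t => (z⁻¹) ^ t * (g ^ t) (θ : E)) ℓ
    have h4 := Finset.sum_range_succ (fun t => (z⁻¹) ^ t * (g ^ t) (θ : E)) ℓ
    rw [h4] at h3
    have h5 : (z⁻¹) ^ ℓ * (g ^ ℓ) (θ : E) = (z⁻¹) ^ 0 * (g ^ 0) (θ : E) := by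
      rw [inv_pow, hzprim.pow_eq_one, inv_one, hMfix _ hgℓ _ θ.2]
      simp
    rw [h5] at h3
    exact (add_right_cancel h3).symm
  have hgtC : ∀ t : ℤ, (g ^ t) C = z ^ t * C := by
    intro t
    have hnat : ∀ n : ℕ, (g ^ n) C = z ^ n * C := by
      intro n
      induction n with
      | zero => simp
      | succ n ih =>
        have h2 : (g ^ (n + 1)) C = g ((g ^ n) C) := by rw [pow_succ']; rfl
        rw [h2, ih, map_mul, map_pow, hzfix, hgC]
        ring
    obtain ⟨n, rfl | rfl⟩ := t.eq_nat_or_neg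
    · rw [zpow_natCast, zpow_natCast]; exact hnat n
    · rw [zpow_neg, zpow_neg, zpow_natCast, zpow_natCast]
      have h2 : (g ^ n) ((z ^ n)⁻¹ * C) = C := by
        rw [map_mul, map_inv₀, map_pow, hzfix, hnat n, ← mul_assoc,
          inv_mul_cancel₀ (pow_ne_zero n hz0), one_mul]
      have h3 : ((g ^ n)⁻¹ : E ≃ₐ[K] E) C = (g ^ n)⁻¹ ((g ^ n) ((z ^ n)⁻¹ * C)) := by rw [h2]
      rw [h3]
      exact (g ^ n).symm_apply_apply _
  have hgCl : g (C ^ ℓ) = C ^ ℓ := by
    rw [map_pow, hgC, mul_pow, hzprim.pow_eq_one, one_mul]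
  have hCM : C ∈ M := by
    rw [hM, IntermediateField.mem_fixedField_iff]
    exact hHC
  refine ⟨C, ?_, hgC, ?_⟩
  · rw [hF, IntermediateField.mem_fixedField_iff]
    have hle : H ⊔ Subgroup.zpowers g ≤ MulAction.stabilizer (E ≃ₐ[K] E) (C ^ ℓ) := by
      refine sup_le ?_ ?_
      · intro h hh
        rw [MulAction.mem_stabilizer_iff]
        change h (C ^ ℓ) = C ^ ℓ
        rw [map_pow, hHC h hh]
      · rw [Subgroup.zpowers_le, MulAction.mem_stabilizer_iff]
        exact hgCl
    intro h hh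
    exact MulAction.mem_stabilizer_iff.mp (hle hh)
  · apply le_antisymm
    · refine ext_le ?_ hCM
      intro x hx
      rw [hF, IntermediateField.mem_fixedField_iff] at hx
      rw [hM, IntermediateField.mem_fixedField_iff]
      exact fun h hh => hx h ((le_sup_left : H ≤ H ⊔ Subgroup.zpowers g) hh)
    · have hfix : (ext F C).fixingSubgroup ≤ H := by
        intro x hx
        rw [IntermediateField.mem_fixingSubgroup_iff] at hx
        have h1 : x ∈ H ⊔ Subgroup.zpowers g := by
          rw [← hFH, IntermediateField.mem_fixingSubgroup_iff]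
          exact fun y hy => hx y (le_ext F C hy)
        have hN : H.Normal := ⟨fun n hn y => by
          rw [hcomm y n, mul_assoc, mul_inv_cancel, mul_one]; exact hn⟩
        have h2 : x ∈ ((H ⊔ Subgroup.zpowers g : Subgroup (E ≃ₐ[K] E)) : Set (E ≃ₐ[K] E)) := h1
        rw [Subgroup.normal_mul] at h2
        obtain ⟨h, hh, y, hy, rfl⟩ := Set.mem_mul.mp h2
        obtain ⟨t, rfl⟩ := Subgroup.mem_zpowers_iff.mp hy
        have h3 : (h * g ^ t) C = C := hx C (self_mem_ext F C)
        have h4 : (h * g ^ t) C = z ^ t * C := by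
          change h ((g ^ t) C) = _
          rw [hgtC t, map_mul, map_zpow₀, hzfix, hHC h hh]
        have h5 : z ^ t = 1 := by
          have h6 : z ^ t * C = 1 * C := by rw [← h4, h3, one_mul]
          exact mul_right_cancel₀ hθ h6
        obtain ⟨s, hs⟩ := (hzprim.zpow_eq_one_iff_dvd t).mp h5
        refine H.mul_mem hh ?_
        rw [hs, zpow_mul, zpow_natCast]
        exact H.zpow_mem hgℓ s
      have h7 : IntermediateField.fixedField H ≤
          IntermediateField.fixedField (ext F C).fixingSubgroup := by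
        intro x hx
        rw [IntermediateField.mem_fixedField_iff] at hx ⊢
        exact fun h hh => hx h (hfix hh)
      rw [IsGalois.fixedField_fixingSubgroup] at h7
      exact h7

end Pool.Agent.PSF
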