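import Mathlib

/-!
# PSF-Lines: the `ℓ + 1` lines of `(ℤ/ℓ)²`

PLAN.  For `(s, t)`, `0 ≤ s, t < ℓ`: if `s ≠ 0` there is exactly one `j < ℓ` and `t' < ℓ` with
`(t', j t') ≡ (s, t)`, namely `t' = s`, `j ≡ t / s`; if `s = 0`, `t ≠ 0`, the point lies only on the line
`{(0, t)}`; the point `(0, 0)` lies on all `ℓ + 1` lines.  So the right hand side is
`∑ s ≠ 0, ∑ t, f s t + ℓ f 0 0 + ∑ t, f 0 t`.  For `t' = s ≠ 0` fixed, `j ↦ j s mod ℓ` permutes
`{0, …, ℓ - 1}`.  Perhaps easiest in `ZMod ℓ` (a field): set `F s t = f s.val t.val`.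
-/

namespace Pool.Agent.PSF

private theorem lines_mod {V : Type*} {ℓ : ℕ} (g : ℕ → V) (h : ∀ t, g (t + ℓ) = g t) (t : ℕ) :
    g (t % ℓ) = g t := by
  have key : ∀ k r : ℕ, g (r + k * ℓ) = g r := by
    intro k
    induction k with
    | zero => intro r; simp
    | succ k ih =>
      intro r
      have : r + (k + 1) * ℓ = (r + k * ℓ) + ℓ := by ring
      rw [this, h, ih]
  conv_rhs => rw [← Nat.mod_add_div' t ℓ]
  rw [key]

private theorem lines_perm {V : Type*} [AddCommGroup V] {ℓ : ℕ} (hℓ : ℓ.Prime) (g : ℕ → V)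
    (h : ∀ t, g (t + ℓ) = g t) (t : ℕ) (ht : t ∈ Finset.range ℓ) (ht0 : t ≠ 0) :
    ∑ j ∈ Finset.range ℓ, g (j * t) = ∑ j ∈ Finset.range ℓ, g j := by
  have hpos : 0 < ℓ := hℓ.pos
  have htl : t < ℓ := Finset.mem_range.mp ht
  have hinj : Set.InjOn (fun j : ℕ => (j * t) % ℓ) (Finset.range ℓ : Finset ℕ) := by
    intro a ha b hb hab
    have ha' : a < ℓ := by simpa using ha
    have hb' : b < ℓ := by simpa using hb
    have hab' : a * t ≡ b * t [MOD ℓ] := hab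
    have hcop : Nat.gcd ℓ t = 1 := by
      rw [← Nat.Coprime, Nat.Prime.coprime_iff_not_dvd hℓ]
      intro hd
      exact absurd (Nat.le_of_dvd (Nat.pos_of_ne_zero ht0) hd) (not_le.mpr htl)
    have := Nat.ModEq.cancel_right_of_coprime hcop hab'
    exact Nat.ModEq.eq_of_lt_of_lt this ha' hb'
  have himg : Finset.image (fun j : ℕ => (j * t) % ℓ) (Finset.range ℓ) = Finset.range ℓ := by
    apply Finset.eq_of_subset_of_card_le
    · intro x hx
      obtain ⟨a, _, rfl⟩ := Finset.mem_image.mp hx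
      exact Finset.mem_range.mpr (Nat.mod_lt _ hpos)
    · rw [Finset.card_image_of_injOn hinj]
  calc ∑ j ∈ Finset.range ℓ, g (j * t)
      = ∑ j ∈ Finset.range ℓ, g ((j * t) % ℓ) := by
        refine Finset.sum_congr rfl fun j _ => ?_
        rw [lines_mod g h]
    _ = ∑ x ∈ Finset.image (fun j : ℕ => (j * t) % ℓ) (Finset.range ℓ), g x := by
        rw [Finset.sum_image hinj]
    _ = ∑ j ∈ Finset.range ℓ, g j := by rw [himg]

theorem lines {V : Type*} [AddCommGroup V] {ℓ : ℕ} (hℓ : ℓ.Prime) (f : ℕ → ℕ → V)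
    (h1 : ∀ s t, f (s + ℓ) t = f s t) (h2 : ∀ s t, f s (t + ℓ) = f s t) :
    ℓ • f 0 0 + ∑ s ∈ Finset.range ℓ, ∑ t ∈ Finset.range ℓ, f s t =
      ∑ j ∈ Finset.range ℓ, ∑ t ∈ Finset.range ℓ, f t (j * t) + ∑ t ∈ Finset.range ℓ, f 0 t := by
  have h0 : 0 ∈ Finset.range ℓ := Finset.mem_range.mpr hℓ.pos
  rw [Finset.sum_comm (s := Finset.range ℓ) (t := Finset.range ℓ) (f := fun j t => f t (j * t))]
  rw [← Finset.add_sum_erase (Finset.range ℓ) (fun s => ∑ t ∈ Finset.range ℓ, f s t) h0]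
  rw [← Finset.add_sum_erase (Finset.range ℓ) (fun t => ∑ j ∈ Finset.range ℓ, f t (j * t)) h0]
  have e1 : ∑ j ∈ Finset.range ℓ, f 0 (j * 0) = ℓ • f 0 0 := by simp
  have e2 : ∑ x ∈ (Finset.range ℓ).erase 0, ∑ j ∈ Finset.range ℓ, f x (j * x)
      = ∑ x ∈ (Finset.range ℓ).erase 0, ∑ j ∈ Finset.range ℓ, f x j := by
    refine Finset.sum_congr rfl fun x hx => ?_
    rw [Finset.mem_erase] at hx
    exact lines_perm hℓ (f x) (h2 x) x hx.2 hx.1
  rw [e2]
  simp only [e1]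
  abel

end Pool.Agent.PSF
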