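import Pool.Agent.PSF.Trace
import Pool.Agent.PSF.Lines
import Pool.Agent.PSF.GrpNC
import Pool.Agent.PSF.KumStep

/-!
# PSF-Radon: reduction to cyclic subextensions

PLAN.  Show for all subgroups `H`, by strong induction on the index of `H` (or on
`Nat.card (G) - Nat.card H`), that `β x y = 0` for nonzero `x, y ∈ fixedField H`; at the end
take `H = ⊥`.  If `H ⊔ zpowers g = ⊤` for some `g`, this is `hcyc`.  Otherwise take `g₁, g₂` from
`exists_pair`.
For `x, y ∈ fixedField H` nonzero let `f s t = β (g₁ ^ s g₂ ^ t x) (g₁ ^ s g₂ ^ t y)`; it is periodic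
(`g_i ^ ℓ ∈ H`, commutativity).  Claim (*): if `g ^ ℓ ∈ H`, `g ∉ H`, then for all nonzero
`x, y ∈ fixedField H`: `∑ t < ℓ, β (g ^ t x) (g ^ t y) = 0`.  Indeed `H' = H ⊔ zpowers g` is larger, so
`β = 0` on `F = fixedField H'` by induction; `kumStep` gives `C`, and `trace_zero` applies
(`x, y ∈ fixedField H = ext F C`; `ζ ∈ F`).
Line sums: `∑ t, f t (j t) = ∑ t, β ((g₁ g₂ ^ j) ^ t x) (…)`, `g₁ g₂ ^ j ∉ H`
(otherwise `g₁ ∈ H ⊔ zpowers g₂`, so `zpowers g₁` and `zpowers g₂` have the same image in `G / H`, of order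
`ℓ`, and `g₂ ∈ H ⊔ zpowers g₁`), `(g₁ g₂ ^ j) ^ ℓ ∈ H`; so it is `0` by (*).  `∑ t, f 0 t = 0` by (*)
with `g₂` (`g₂ ∉ H`), and `∑ t, f s t = 0` by (*) with `g₂` applied to `g₁ ^ s x, g₁ ^ s y`
(in `fixedField H` by commutativity).  Now `lines` gives `ℓ • f 0 0 = 0`, so `β x y = 0`
(`S.torsionFree`).
-/

namespace Pool.Agent.PSF

universe u v

theorem radon {ℓ : ℕ} (hℓ : ℓ.Prime) {K E : Type u} [Field K] [Field E] [Algebra K E]
    [FiniteDimensional K E] [IsGalois K E] {V : Type v} [AddCommGroup V] (S : SymSys ℓ E V)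
    (hlin : LinGen ℓ K E) (hcomm : ∀ g h : E ≃ₐ[K] E, g * h = h * g)
    (hpow : ∀ g : E ≃ₐ[K] E, ∃ m : ℕ, g ^ ℓ ^ m = 1) {ζ : K} (hζ : IsPrimitiveRoot ζ ℓ)
    (hcyc : ∀ H : Subgroup (E ≃ₐ[K] E), (∃ g, H ⊔ Subgroup.zpowers g = ⊤) →
      ∀ x ∈ IntermediateField.fixedField H, ∀ y ∈ IntermediateField.fixedField H,
        x ≠ 0 → y ≠ 0 → S.β x y = 0) (x y : E) (hx : x ≠ 0) (hy : y ≠ 0) : S.β x y = 0 := by
  have hfix : ∀ (H : Subgroup (E ≃ₐ[K] E)) (h : E ≃ₐ[K] E), h ∈ H →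
      ∀ z ∈ IntermediateField.fixedField H, h z = z := by
    intro H h hh z hz
    exact hz ⟨h, hh⟩
  have key : ∀ H : Subgroup (E ≃ₐ[K] E), ∀ x ∈ IntermediateField.fixedField H,
      ∀ y ∈ IntermediateField.fixedField H, x ≠ 0 → y ≠ 0 → S.β x y = 0 := by
    intro H
    induction H using WellFoundedGT.induction with
    | ind H ih =>
    by_cases hH : ∃ g, H ⊔ Subgroup.zpowers g = ⊤
    · exact hcyc H hH
    obtain ⟨g₁, g₂, h1, h2, h3, h4⟩ := exists_pair hℓ hcomm hpow H hH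
    have star : ∀ g : E ≃ₐ[K] E, g ∉ H → g ^ ℓ ∈ H →
        ∀ x ∈ IntermediateField.fixedField H, ∀ y ∈ IntermediateField.fixedField H,
        x ≠ 0 → y ≠ 0 → ∑ t ∈ Finset.range ℓ, S.β ((g ^ t) x) ((g ^ t) y) = 0 := by
      intro g hg hgℓ x hx y hy hx0 hy0
      obtain ⟨C, hC1, hC2, hC3⟩ := kumStep hℓ hcomm hζ H g hg hgℓ
      have hgm : g ∈ H ⊔ Subgroup.zpowers g :=
        Subgroup.mem_sup_right (Subgroup.mem_zpowers g)
      have hlt : H < H ⊔ Subgroup.zpowers g := by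
        refine lt_of_le_of_ne le_sup_left ?_
        intro he
        rw [← he] at hgm
        exact hg hgm
      have hζ' : IsPrimitiveRoot (algebraMap K E ζ) ℓ :=
        hζ.map_of_injective (algebraMap K E).injective
      exact trace_zero S hℓ hlin (IntermediateField.fixedField (H ⊔ Subgroup.zpowers g)) hC1
        (IntermediateField.algebraMap_mem _ _) hζ' g (hfix _ g hgm) hC2 (ih _ hlt)
        (by rw [hC3]; exact hx) (by rw [hC3]; exact hy) hx0 hy0
    have hg₂ : g₂ ∉ H := fun h => h4 (Subgroup.mem_sup_left h)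
    intro x hx y hy hx0 hy0
    have hcp : ∀ (s t : ℕ), g₁ ^ s * g₂ ^ t = g₂ ^ t * g₁ ^ s := fun s t => hcomm _ _
    have e1 : ∀ (s t : ℕ) (z : E), z ∈ IntermediateField.fixedField H →
        (g₁ ^ (s + ℓ) * g₂ ^ t) z = (g₁ ^ s * g₂ ^ t) z := by
      intro s t z hz
      have : g₁ ^ (s + ℓ) * g₂ ^ t = g₁ ^ s * g₂ ^ t * g₁ ^ ℓ := by
        rw [pow_add, mul_assoc, mul_assoc, hcomm (g₁ ^ ℓ) (g₂ ^ t)]
      rw [this, AlgEquiv.mul_apply, hfix H _ h1 z hz]
    have e2 : ∀ (s t : ℕ) (z : E), z ∈ IntermediateField.fixedField H →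
        (g₁ ^ s * g₂ ^ (t + ℓ)) z = (g₁ ^ s * g₂ ^ t) z := by
      intro s t z hz
      have : g₁ ^ s * g₂ ^ (t + ℓ) = g₁ ^ s * g₂ ^ t * g₂ ^ ℓ := by
        rw [pow_add, mul_assoc]
      rw [this, AlgEquiv.mul_apply, hfix H _ h2 z hz]
    have hl := lines (V := V) hℓ
      (fun s t => S.β ((g₁ ^ s * g₂ ^ t) x) ((g₁ ^ s * g₂ ^ t) y))
      (fun s t => by
        show S.β ((g₁ ^ (s + ℓ) * g₂ ^ t) x) ((g₁ ^ (s + ℓ) * g₂ ^ t) y) = _
        rw [e1 s t x hx, e1 s t y hy])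
      (fun s t => by
        show S.β ((g₁ ^ s * g₂ ^ (t + ℓ)) x) ((g₁ ^ s * g₂ ^ (t + ℓ)) y) = _
        rw [e2 s t x hx, e2 s t y hy])
    have hA : ∀ s ∈ Finset.range ℓ, ∑ t ∈ Finset.range ℓ,
        S.β ((g₁ ^ s * g₂ ^ t) x) ((g₁ ^ s * g₂ ^ t) y) = 0 := by
      intro s _
      have hm : ∀ z ∈ IntermediateField.fixedField H,
          (g₁ ^ s) z ∈ IntermediateField.fixedField H := by
        intro z hz
        rintro ⟨h, hh⟩
        show h ((g₁ ^ s) z) = (g₁ ^ s) z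
        rw [← AlgEquiv.mul_apply, hcomm, AlgEquiv.mul_apply, hfix H h hh z hz]
      have h0 : ∀ z : E, z ≠ 0 → (g₁ ^ s) z ≠ 0 := by
        intro z hz
        rw [Ne, EmbeddingLike.map_eq_zero_iff]
        exact hz
      have := star g₂ hg₂ h2 _ (hm x hx) _ (hm y hy) (h0 x hx0) (h0 y hy0)
      rw [← this]
      refine Finset.sum_congr rfl fun t _ => ?_
      rw [hcp s t, AlgEquiv.mul_apply, AlgEquiv.mul_apply]
    have hB : ∑ t ∈ Finset.range ℓ,
        S.β ((g₁ ^ 0 * g₂ ^ t) x) ((g₁ ^ 0 * g₂ ^ t) y) = 0 := by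
      have := star g₂ hg₂ h2 x hx y hy hx0 hy0
      rw [← this]
      refine Finset.sum_congr rfl fun t _ => ?_
      rw [pow_zero, one_mul]
    have hD : ∀ j ∈ Finset.range ℓ, ∑ t ∈ Finset.range ℓ,
        S.β ((g₁ ^ t * g₂ ^ (j * t)) x) ((g₁ ^ t * g₂ ^ (j * t)) y) = 0 := by
      intro j hj
      have hjlt : j < ℓ := Finset.mem_range.mp hj
      have hnot : g₁ * g₂ ^ j ∉ H := by
        intro hmem
        rcases Nat.eq_zero_or_pos j with h0 | hpos
        · rw [h0, pow_zero, mul_one] at hmem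
          exact h3 hmem
        · have hco : Nat.Coprime j ℓ := by
            rw [Nat.coprime_comm]
            exact (Nat.Prime.coprime_iff_not_dvd hℓ).mpr (Nat.not_dvd_of_pos_of_lt hpos hjlt)
          have hgQ : g₁ ∈ H ⊔ Subgroup.zpowers g₁ :=
            Subgroup.mem_sup_right (Subgroup.mem_zpowers g₁)
          have hjQ : g₂ ^ j ∈ H ⊔ Subgroup.zpowers g₁ := by
            have := Subgroup.mul_mem _ (Subgroup.inv_mem _ hgQ)
              (Subgroup.mem_sup_left (T := Subgroup.zpowers g₁) hmem)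
            rwa [inv_mul_cancel_left] at this
          have hlQ : g₂ ^ ℓ ∈ H ⊔ Subgroup.zpowers g₁ := Subgroup.mem_sup_left h2
          apply h4
          have hb := Nat.gcd_eq_gcd_ab j ℓ
          rw [hco] at hb
          have hz : g₂ = (g₂ ^ j) ^ (Nat.gcdA j ℓ) * (g₂ ^ ℓ) ^ (Nat.gcdB j ℓ) := by
            rw [← zpow_natCast, ← zpow_natCast, ← zpow_mul, ← zpow_mul, ← zpow_add, ← hb]
            simp
          rw [hz]
          exact Subgroup.mul_mem _ (Subgroup.zpow_mem _ hjQ _) (Subgroup.zpow_mem _ hlQ _)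
      have hmem : (g₁ * g₂ ^ j) ^ ℓ ∈ H := by
        rw [(show Commute g₁ (g₂ ^ j) from hcomm _ _).mul_pow, ← pow_mul, mul_comm j ℓ, pow_mul]
        exact Subgroup.mul_mem _ h1 (Subgroup.pow_mem _ h2 _)
      have := star _ hnot hmem x hx y hy hx0 hy0
      rw [← this]
      refine Finset.sum_congr rfl fun t _ => ?_
      rw [(show Commute g₁ (g₂ ^ j) from hcomm _ _).mul_pow, ← pow_mul]
    rw [Finset.sum_eq_zero hA, Finset.sum_eq_zero hD, hB, add_zero, add_zero] at hl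
    have hl' : ℓ • S.β ((g₁ ^ 0 * g₂ ^ 0) x) ((g₁ ^ 0 * g₂ ^ 0) y) = 0 := hl
    rw [pow_zero, pow_zero, one_mul, AlgEquiv.one_apply, AlgEquiv.one_apply] at hl'
    exact S.torsionFree ℓ _ hℓ.ne_zero hl'
  refine key ⊥ x ?_ y ?_ hx hy
  · rw [IntermediateField.fixedField_bot]
    exact IntermediateField.mem_top
  · rw [IntermediateField.fixedField_bot]
    exact IntermediateField.mem_top

end Pool.Agent.PSF
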