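import Pool.Agent.PSF.Lines
import Pool.Agent.PSF.GrpNC
import Pool.Agent.PSF.Defs

/-!
# PSF-RadonU: reduction to cyclic subextensions, for homomorphisms on units

PLAN.  As in PSF-Radon: strong induction on the index of `H` for the statement
`∀ x ∈ fixedField H, x ≠ 0 → s x = 0`.  If `H` is not cocyclic take `g₁, g₂` from `exists_pair`.
(*) If `g ^ ℓ ∈ H`, `g ∉ H`, `x ∈ fixedField H`, `x ≠ 0`, then
`∑ t < ℓ, s (g ^ t x) = s (∏ t < ℓ, g ^ t x) = 0` since the product is fixed by `H` (commutativity) and by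
`g` (`g ^ ℓ x = x`), hence in `fixedField (H ⊔ zpowers g)`, where `s = 0` by induction.
Apply `lines` to `f a b = s (g₁ ^ a g₂ ^ b x)`: `ℓ • s x = 0`, so `s x = 0` by `htf`.
-/

namespace Pool.Agent.PSF

universe u v

private theorem radonU_one {E : Type u} [Field E] {V : Type v} [AddCommGroup V] (s : E → V)
    (hs : ∀ x y : E, x ≠ 0 → y ≠ 0 → s (x * y) = s x + s y) : s 1 = 0 := by
  have h := hs 1 1 one_ne_zero one_ne_zero
  rw [mul_one] at h
  exact left_eq_add.mp h

private theorem radonU_prod {E : Type u} [Field E] {V : Type v} [AddCommGroup V] (s : E → V)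
    (hs : ∀ x y : E, x ≠ 0 → y ≠ 0 → s (x * y) = s x + s y) (n : ℕ) (y : ℕ → E)
    (hy : ∀ t, y t ≠ 0) :
    s (∏ t ∈ Finset.range n, y t) = ∑ t ∈ Finset.range n, s (y t) := by
  induction n with
  | zero => simpa using radonU_one s hs
  | succ n ih =>
    rw [Finset.prod_range_succ, Finset.sum_range_succ,
      hs _ _ (Finset.prod_ne_zero_iff.mpr fun t _ => hy t) (hy n), ih]

private theorem radonU_fix {ℓ : ℕ} {K E : Type u} [Field K] [Field E] [Algebra K E]
    (hcomm : ∀ g h : E ≃ₐ[K] E, g * h = h * g) (H : Subgroup (E ≃ₐ[K] E)) (g : E ≃ₐ[K] E)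
    (y : E) (hgl : g ^ ℓ ∈ H) (hy : y ∈ IntermediateField.fixedField H)
    (h : E ≃ₐ[K] E) (hh : h ∈ H ⊔ Subgroup.zpowers g) :
    h (∏ t ∈ Finset.range ℓ, (g ^ t) y) = ∏ t ∈ Finset.range ℓ, (g ^ t) y := by
  rw [IntermediateField.mem_fixedField_iff] at hy
  have hle : H ⊔ Subgroup.zpowers g ≤
      MulAction.stabilizer (E ≃ₐ[K] E) (∏ t ∈ Finset.range ℓ, (g ^ t) y) := by
    refine sup_le ?_ ?_
    · intro k hk
      rw [MulAction.mem_stabilizer_iff, AlgEquiv.smul_def, map_prod]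
      refine Finset.prod_congr rfl fun t _ => ?_
      have h3 : (k * g ^ t) y = (g ^ t * k) y := by rw [hcomm]
      rw [AlgEquiv.mul_apply, AlgEquiv.mul_apply, hy k hk] at h3
      exact h3
    · rw [Subgroup.zpowers_le, MulAction.mem_stabilizer_iff, AlgEquiv.smul_def, map_prod]
      have h4 : ∀ t, g ((g ^ t) y) = (g ^ (t + 1)) y := by
        intro t
        rw [pow_succ', AlgEquiv.mul_apply]
      simp only [h4]
      by_cases hy0 : y = 0
      · simp [hy0]
      have h5 := Finset.prod_range_succ (fun t => (g ^ t) y) ℓ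
      rw [Finset.prod_range_succ'] at h5
      have h6 : (g ^ ℓ) y = y := hy _ hgl
      rw [h6, pow_zero, AlgEquiv.one_apply] at h5
      exact mul_right_cancel₀ hy0 h5
  have h7 := hle hh
  rw [MulAction.mem_stabilizer_iff, AlgEquiv.smul_def] at h7
  exact h7

theorem radonU {ℓ : ℕ} (hℓ : ℓ.Prime) {K E : Type u} [Field K] [Field E] [Algebra K E]
    [FiniteDimensional K E] [IsGalois K E] {V : Type v} [AddCommGroup V]
    (htf : ∀ (n : ℕ) (v : V), n ≠ 0 → n • v = 0 → v = 0) (s : E → V)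
    (hs : ∀ x y : E, x ≠ 0 → y ≠ 0 → s (x * y) = s x + s y)
    (hcomm : ∀ g h : E ≃ₐ[K] E, g * h = h * g)
    (hpow : ∀ g : E ≃ₐ[K] E, ∃ m : ℕ, g ^ ℓ ^ m = 1)
    (hcyc : ∀ H : Subgroup (E ≃ₐ[K] E), (∃ g, H ⊔ Subgroup.zpowers g = ⊤) →
      ∀ x ∈ IntermediateField.fixedField H, x ≠ 0 → s x = 0) (x : E) (hx : x ≠ 0) : s x = 0 := by
  have key : ∀ H : Subgroup (E ≃ₐ[K] E), ∀ x ∈ IntermediateField.fixedField H, x ≠ 0 → s x = 0 := by
    intro H
    induction H using WellFoundedGT.induction with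
    | ind H ih =>
    intro x hxH hx
    by_cases hH : ∃ g, H ⊔ Subgroup.zpowers g = ⊤
    · exact hcyc H hH x hxH hx
    obtain ⟨g₁, g₂, h1, h2, h1n, h2n⟩ := exists_pair hℓ hcomm hpow H hH
    have star : ∀ g : E ≃ₐ[K] E, g ^ ℓ ∈ H → g ∉ H → ∀ y ∈ IntermediateField.fixedField H,
        y ≠ 0 → ∑ t ∈ Finset.range ℓ, s ((g ^ t) y) = 0 := by
      intro g hgl hg y hyH hy
      have hlt : H < H ⊔ Subgroup.zpowers g := by
        refine lt_of_le_of_ne le_sup_left fun he => hg ?_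
        rw [he]
        exact (le_sup_right : Subgroup.zpowers g ≤ H ⊔ Subgroup.zpowers g)
          (Subgroup.mem_zpowers g)
      have h0 : ∀ t, (g ^ t) y ≠ 0 := fun t => by
        rw [Ne, map_eq_zero_iff _ (AlgEquiv.injective _)]
        exact hy
      rw [← radonU_prod s hs _ _ h0]
      refine ih _ hlt _ ?_ (Finset.prod_ne_zero_iff.mpr fun t _ => h0 t)
      rw [IntermediateField.mem_fixedField_iff]
      exact radonU_fix hcomm H g y hgl hyH
    have hg2 : g₂ ∉ H := fun h => h2n ((le_sup_left : H ≤ H ⊔ Subgroup.zpowers g₁) h)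
    have hfix : ∀ (h : E ≃ₐ[K] E), ∀ y ∈ IntermediateField.fixedField H,
        h y ∈ IntermediateField.fixedField H := by
      intro h y hy
      rw [IntermediateField.mem_fixedField_iff] at hy ⊢
      intro k hk
      have h3 : (k * h) y = (h * k) y := by rw [hcomm]
      rw [AlgEquiv.mul_apply, AlgEquiv.mul_apply, hy k hk] at h3
      exact h3
    have hlines := lines hℓ (fun a b => s ((g₁ ^ a * g₂ ^ b) x)) (fun a b => by
        have h3 : g₁ ^ (a + ℓ) * g₂ ^ b = g₁ ^ a * g₂ ^ b * g₁ ^ ℓ := by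
          rw [pow_add, mul_assoc, mul_assoc, hcomm (g₁ ^ ℓ)]
        rw [h3, AlgEquiv.mul_apply (g₁ ^ a * g₂ ^ b),
          (IntermediateField.mem_fixedField_iff H x).mp hxH _ h1])
      (fun a b => by
        have h3 : g₁ ^ a * g₂ ^ (b + ℓ) = g₁ ^ a * g₂ ^ b * g₂ ^ ℓ := by
          rw [pow_add, mul_assoc]
        rw [h3, AlgEquiv.mul_apply (g₁ ^ a * g₂ ^ b),
          (IntermediateField.mem_fixedField_iff H x).mp hxH _ h2])
    have hA : ∀ j ∈ Finset.range ℓ,
        ∑ t ∈ Finset.range ℓ, s ((g₁ ^ t * g₂ ^ (j * t)) x) = 0 := by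
      intro j hj
      have h4 : ∀ t, g₁ ^ t * g₂ ^ (j * t) = (g₁ * g₂ ^ j) ^ t := by
        intro t
        rw [pow_mul, (show Commute g₁ (g₂ ^ j) from hcomm _ _).mul_pow]
      simp only [h4]
      refine star _ ?_ ?_ x hxH hx
      · rw [(show Commute g₁ (g₂ ^ j) from hcomm _ _).mul_pow, ← pow_mul, mul_comm j, pow_mul]
        exact H.mul_mem h1 (H.pow_mem h2 j)
      · intro hmem
        rcases Nat.eq_zero_or_pos j with rfl | hj0
        · rw [pow_zero, mul_one] at hmem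
          exact h1n hmem
        · have hcop : Nat.gcd j ℓ = 1 :=
            (Nat.coprime_of_lt_prime hj0.ne' (Finset.mem_range.mp hj) hℓ).symm
          apply h2n
          have hj2 : g₂ ^ j ∈ H ⊔ Subgroup.zpowers g₁ := by
            have h5 : g₂ ^ j = g₁⁻¹ * (g₁ * g₂ ^ j) := by rw [inv_mul_cancel_left]
            rw [h5]
            exact Subgroup.mul_mem _ (Subgroup.inv_mem _
              ((le_sup_right : Subgroup.zpowers g₁ ≤ H ⊔ Subgroup.zpowers g₁)
                (Subgroup.mem_zpowers g₁)))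
              ((le_sup_left : H ≤ H ⊔ Subgroup.zpowers g₁) hmem)
          have hl2 : g₂ ^ ℓ ∈ H ⊔ Subgroup.zpowers g₁ :=
            (le_sup_left : H ≤ H ⊔ Subgroup.zpowers g₁) h2
          have h6 : g₂ = (g₂ ^ j) ^ (Nat.gcdA j ℓ) * (g₂ ^ ℓ) ^ (Nat.gcdB j ℓ) := by
            have h7 := Nat.gcd_eq_gcd_ab j ℓ
            rw [hcop] at h7
            rw [← zpow_natCast g₂ j, ← zpow_natCast g₂ ℓ, ← zpow_mul, ← zpow_mul, ← zpow_add,
              ← h7, Nat.cast_one, zpow_one]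
          rw [h6]
          exact Subgroup.mul_mem _ (Subgroup.zpow_mem _ hj2 _) (Subgroup.zpow_mem _ hl2 _)
    have hB : ∀ a, ∑ t ∈ Finset.range ℓ, s ((g₁ ^ a * g₂ ^ t) x) = 0 := by
      intro a
      have h4 : ∀ t, (g₁ ^ a * g₂ ^ t) x = (g₂ ^ t) ((g₁ ^ a) x) := by
        intro t
        rw [hcomm, AlgEquiv.mul_apply]
      simp only [h4]
      refine star g₂ h2 hg2 _ (hfix _ x hxH) ?_
      rw [Ne, map_eq_zero_iff _ (AlgEquiv.injective _)]
      exact hx
    rw [Finset.sum_eq_zero hA, hB 0, Finset.sum_eq_zero fun a _ => hB a, add_zero, add_zero] at hlines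
    have h8 := htf ℓ _ hℓ.ne_zero hlines
    simpa using h8
  refine key ⊥ x ?_ hx
  rw [IntermediateField.mem_fixedField_iff]
  intro f hf
  rw [Subgroup.mem_bot] at hf
  rw [hf, AlgEquiv.one_apply]

end Pool.Agent.PSF
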