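import Pool.Agent.PSF.Defs

/-!
# Formal consequences of the axioms of a symbol system
-/

namespace Pool.Agent.PSF

universe u v

namespace SymSys

variable {ℓ : ℕ} {L : Type u} [Field L] {V : Type v} [AddCommGroup V] (S : SymSys ℓ L V)

include S in
lemma tf_neg {v : V} (h : v = - v) : v = 0 := by
  apply S.torsionFree 2 v two_ne_zero
  rw [two_nsmul]
  nth_rw 1 [h]
  exact neg_add_cancel v

lemma one_left {b : L} (hb : b ≠ 0) : S.β 1 b = 0 := by
  have h := S.mul_left (one_ne_zero (α := L)) one_ne_zero hb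
  rw [mul_one] at h
  simpa using h

lemma one_right {a : L} (ha : a ≠ 0) : S.β a 1 = 0 := by
  have h := S.mul_right ha (one_ne_zero (α := L)) one_ne_zero
  rw [mul_one] at h
  simpa using h

lemma pow_left {a b : L} (ha : a ≠ 0) (hb : b ≠ 0) (n : ℕ) : S.β (a ^ n) b = n • S.β a b := by
  induction n with
  | zero => rw [pow_zero, zero_smul, S.one_left hb]
  | succ n ih => rw [pow_succ, S.mul_left (pow_ne_zero n ha) ha hb, ih, succ_nsmul]

lemma pow_right {a b : L} (ha : a ≠ 0) (hb : b ≠ 0) (n : ℕ) : S.β a (b ^ n) = n • S.β a b := by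
  induction n with
  | zero => rw [pow_zero, zero_smul, S.one_right ha]
  | succ n ih => rw [pow_succ, S.mul_right ha (pow_ne_zero n hb) hb, ih, succ_nsmul]

lemma inv_left {a b : L} (ha : a ≠ 0) (hb : b ≠ 0) : S.β a⁻¹ b = - S.β a b := by
  have h := S.mul_left (inv_ne_zero ha) ha hb
  rw [inv_mul_cancel₀ ha, S.one_left hb] at h
  exact eq_neg_of_add_eq_zero_left h.symm

lemma inv_right {a b : L} (ha : a ≠ 0) (hb : b ≠ 0) : S.β a b⁻¹ = - S.β a b := by
  have h := S.mul_right ha (inv_ne_zero hb) hb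
  rw [inv_mul_cancel₀ hb, S.one_right ha] at h
  exact eq_neg_of_add_eq_zero_left h.symm

lemma prod_left {ι : Type*} (s : Finset ι) (f : ι → L) (hf : ∀ i ∈ s, f i ≠ 0) {b : L}
    (hb : b ≠ 0) : S.β (∏ i ∈ s, f i) b = ∑ i ∈ s, S.β (f i) b := by
  classical
  induction s using Finset.induction_on with
  | empty => rw [Finset.prod_empty, Finset.sum_empty, S.one_left hb]
  | insert i s hi ih =>
    rw [Finset.prod_insert hi, Finset.sum_insert hi, S.mul_left (hf i (Finset.mem_insert_self i s))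
      (Finset.prod_ne_zero_iff.mpr fun j hj => hf j (Finset.mem_insert_of_mem hj)) hb,
      ih fun j hj => hf j (Finset.mem_insert_of_mem hj)]

lemma prod_right {ι : Type*} (s : Finset ι) (f : ι → L) (hf : ∀ i ∈ s, f i ≠ 0) {a : L}
    (ha : a ≠ 0) : S.β a (∏ i ∈ s, f i) = ∑ i ∈ s, S.β a (f i) := by
  classical
  induction s using Finset.induction_on with
  | empty => rw [Finset.prod_empty, Finset.sum_empty, S.one_right ha]
  | insert i s hi ih =>
    rw [Finset.prod_insert hi, Finset.sum_insert hi, S.mul_right ha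
      (hf i (Finset.mem_insert_self i s))
      (Finset.prod_ne_zero_iff.mpr fun j hj => hf j (Finset.mem_insert_of_mem hj)),
      ih fun j hj => hf j (Finset.mem_insert_of_mem hj)]

/-- Roots of unity are killed. -/
lemma torsion_left {a b : L} (ha : a ≠ 0) (hb : b ≠ 0) {n : ℕ} (hn : n ≠ 0) (h : a ^ n = 1) :
    S.β a b = 0 := by
  apply S.torsionFree n _ hn
  rw [← S.pow_left ha hb, h, S.one_left hb]

lemma torsion_right {a b : L} (ha : a ≠ 0) (hb : b ≠ 0) {n : ℕ} (hn : n ≠ 0) (h : b ^ n = 1) :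
    S.β a b = 0 := by
  apply S.torsionFree n _ hn
  rw [← S.pow_right ha hb, h, S.one_right ha]

/-- Infinitely divisible elements are killed. -/
lemma divisible_left {a b : L} (ha : a ≠ 0) (hb : b ≠ 0) (h : ∀ n : ℕ, ∃ c : L, c ^ ℓ ^ n = a) :
    S.β a b = 0 := by
  by_cases h1 : a = 1
  · subst h1; exact S.one_left hb
  apply S.sep
  intro M
  obtain ⟨c, hc⟩ := h M
  have hc0 : c ≠ 0 := by
    rintro rfl
    by_cases hM : ℓ ^ M = 0
    · rw [hM, pow_zero] at hc
      exact h1 hc.symm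
    · rw [zero_pow hM] at hc
      exact ha hc.symm
  exact ⟨S.β c b, by rw [← hc, S.pow_left hc0 hb]⟩

lemma neg_one_left {b : L} (hb : b ≠ 0) : S.β (-1) b = 0 :=
  S.torsion_left (neg_ne_zero.mpr one_ne_zero) hb two_ne_zero (by ring)

lemma neg_one_right {a : L} (ha : a ≠ 0) : S.β a (-1) = 0 :=
  S.torsion_right ha (neg_ne_zero.mpr one_ne_zero) two_ne_zero (by ring)

lemma neg_left {a b : L} (ha : a ≠ 0) (hb : b ≠ 0) : S.β (-a) b = S.β a b := by
  rw [← neg_one_mul, S.mul_left (neg_ne_zero.mpr one_ne_zero) ha hb, S.neg_one_left hb, zero_add]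

lemma neg_right {a b : L} (ha : a ≠ 0) (hb : b ≠ 0) : S.β a (-b) = S.β a b := by
  rw [← neg_one_mul, S.mul_right ha (neg_ne_zero.mpr one_ne_zero) hb, S.neg_one_right ha, zero_add]

lemma self {a : L} (ha : a ≠ 0) : S.β a a = 0 := by
  by_cases h1 : a = 1
  · subst h1; exact S.one_left ha
  have h2 : 1 - a ≠ 0 := sub_ne_zero.mpr (Ne.symm h1)
  have h3 : 1 - a⁻¹ ≠ 0 := by
    rw [sub_ne_zero]; intro h; exact h1 (by rw [← inv_inv a, ← h, inv_one])
  have h4 : S.β a (1 - a) = 0 := S.steinberg ha h2 (by ring)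
  have h5 : S.β a⁻¹ (1 - a⁻¹) = 0 := S.steinberg (inv_ne_zero ha) h3 (by ring)
  rw [S.inv_left ha h3, neg_eq_zero] at h5
  have h6 : 1 - a = (-a) * (1 - a⁻¹) := by
    field_simp
    ring
  rw [h6, S.mul_right ha (neg_ne_zero.mpr ha) h3, S.neg_right ha ha, h5, add_zero] at h4
  exact h4

lemma symm {a b : L} (ha : a ≠ 0) (hb : b ≠ 0) : S.β a b = - S.β b a := by
  have h := S.self (mul_ne_zero ha hb)
  rw [S.mul_left ha hb (mul_ne_zero ha hb), S.mul_right ha ha hb, S.mul_right hb ha hb, S.self ha,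
    S.self hb, zero_add, add_zero] at h
  exact eq_neg_of_add_eq_zero_left h

lemma divisible_right {a b : L} (ha : a ≠ 0) (hb : b ≠ 0) (h : ∀ n : ℕ, ∃ c : L, c ^ ℓ ^ n = b) :
    S.β a b = 0 := by
  rw [S.symm ha hb, S.divisible_left hb ha h, neg_zero]

/-- The line relation: `β x y = β x z + β z y` for `x + y = z`. -/
lemma line {x y z : L} (hx : x ≠ 0) (hy : y ≠ 0) (hz : z ≠ 0) (h : x + y = z) :
    S.β x y = S.β x z + S.β z y := by
  have h1 : S.β (x * z⁻¹) (y * z⁻¹) = 0 :=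
    S.steinberg (mul_ne_zero hx (inv_ne_zero hz)) (mul_ne_zero hy (inv_ne_zero hz)) (by
      rw [← add_mul, h, mul_inv_cancel₀ hz])
  rw [S.mul_left hx (inv_ne_zero hz) (mul_ne_zero hy (inv_ne_zero hz)),
    S.mul_right hx hy (inv_ne_zero hz), S.mul_right (inv_ne_zero hz) hy (inv_ne_zero hz),
    S.inv_left hz hy, S.inv_left hz (inv_ne_zero hz), S.inv_right hx hz, S.inv_right hz hz,
    S.self hz, neg_zero, neg_zero, add_zero] at h1
  rw [← sub_eq_zero]
  rw [← h1]
  abel

/-- `β (C - a) (C - b) = β (a - b) (C - b) - β (a - b) (C - a)`. -/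
lemma sub_sub {C a b : L} (ha : C - a ≠ 0) (hb : C - b ≠ 0) (hab : a ≠ b) :
    S.β (C - a) (C - b) = S.β (a - b) (C - b) - S.β (a - b) (C - a) := by
  have h0 : a - b ≠ 0 := sub_ne_zero.mpr hab
  have h := S.line ha h0 hb (by ring : (C - a) + (a - b) = C - b)
  rw [S.symm ha h0, S.symm hb h0] at h
  have h2 : S.β (C - a) (C - b) = -S.β (a - b) (C - a) + S.β (a - b) (C - b) := by
    rw [h]; abel
  rw [h2]; abel

end SymSys

end Pool.Agent.PSF
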