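import Pool.Agent.PSF.Kc
import Pool.Agent.PSF.Defs

/-!
# PSF-SymB: the symbol with values in compatible sequences

`Z : ℕ → L` is a compatible system of roots of unity: `Z M` is a primitive `ℓ ^ M`-th root of unity
and `Z (M + 1) ^ ℓ = Z M`.

PLAN.
* `cls_mul_left`, `cls_mul_right`, `cls_level`, `cls_pow`: all hold pointwise for the functions
  `cocy Ω n ζ a b g h = ζ ^ (kc b g * kc a h)`, by `kc_mul`, `kc_level` and `ζ ^ n = 1`
  (powers of `zu Ω ζ` only depend on the exponent mod `n`; `zu Ω ζ ^ n = 1`); then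
  apply the additive homomorphism `mkH L Ω`.  In `cls_level`, `(zu (Z (M+1))) ^ ℓ = zu (Z M)`.
* `symβ`: the sequence `M ↦ cls Ω (ℓ ^ M) (Z M) a b` for `a, b ≠ 0` and `0` otherwise; at `M = 0`,
  `ℓ ^ 0 = 1`, `Z 0 = 1`, so the cocycle is `1`.
* torsion free: `v M` is killed by `ℓ ^ M` (induction from `v 0 = 0`); if `n • v = 0`, `n = ℓ ^ c n'`
  with `n'` prime to `ℓ`, then `n' • v M = n' • ℓ ^ c • v (M + c) = 0` and `ℓ ^ M • v M = 0`, so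
  `v M = 0` by Bezout (`Nat.Coprime`, `Int.gcd_eq_gcd_ab` or `Nat.exists_mul_emod_eq_one_of_coprime`).
* separated: if `v = ℓ ^ M • w` then `v M = ℓ ^ M • w M = 0`.
-/

namespace Pool.Agent.PSF

universe u

variable {L Ω : Type u} [Field L] [Field Ω] [Algebra L Ω]

/-! ### auxiliary facts -/

omit [Field Ω] [Algebra L Ω] in
private lemma symb_ne_zero {n : ℕ} (hn : (n : L) ≠ 0) {ζ : L} (hζ : IsPrimitiveRoot ζ n) :
    ζ ≠ 0 := by
  have hn0 : n ≠ 0 := by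
    rintro rfl
    exact hn Nat.cast_zero
  exact hζ.ne_zero hn0

private lemma symb_zu {ζ : L} (h : ζ ≠ 0) : ((zu Ω ζ : Ωˣ) : Ω) = algebraMap L Ω ζ := by
  have h1 : algebraMap L Ω ζ ≠ 0 := by simpa using h
  rw [zu, dif_neg h1, Units.val_mk0]

private lemma symb_zu_pow {n : ℕ} (hn : (n : L) ≠ 0) {ζ : L} (hζ : IsPrimitiveRoot ζ n) :
    zu Ω ζ ^ n = 1 := by
  apply Units.ext
  rw [Units.val_pow_eq_pow_val, symb_zu (symb_ne_zero hn hζ), ← map_pow, hζ.pow_eq_one, map_one,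
    Units.val_one]

private lemma symb_zu_congr {n : ℕ} (hn : (n : L) ≠ 0) {ζ : L} (hζ : IsPrimitiveRoot ζ n)
    {x y : ℕ} (h : x ≡ y [MOD n]) : zu Ω ζ ^ x = zu Ω ζ ^ y :=
  pow_eq_pow_of_modEq h (symb_zu_pow hn hζ)

private lemma symb_mk_add (f g : (Ω ≃ₐ[L] Ω) → (Ω ≃ₐ[L] Ω) → Ωˣ) :
    mkH L Ω (Additive.ofMul (f * g)) = mkH L Ω (Additive.ofMul f) + mkH L Ω (Additive.ofMul g) := by
  rw [ofMul_mul, map_add]

private lemma symb_mk_pow (n : ℕ) (f : (Ω ≃ₐ[L] Ω) → (Ω ≃ₐ[L] Ω) → Ωˣ) :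
    mkH L Ω (Additive.ofMul (f ^ n)) = n • mkH L Ω (Additive.ofMul f) := by
  rw [ofMul_pow, map_nsmul]

private lemma symb_vsub {ℓ : ℕ} (v : Vsub L Ω ℓ) (k M : ℕ) :
    v.1 M = (ℓ ^ k) • v.1 (M + k) := by
  induction k with
  | zero => rw [pow_zero, one_smul, add_zero]
  | succ k ih =>
    rw [ih, v.2.2 (M + k), smul_smul, pow_succ, add_assoc]

private lemma symb_vsub_kill {ℓ : ℕ} (v : Vsub L Ω ℓ) (M : ℕ) : (ℓ ^ M) • v.1 M = 0 := by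
  have h := symb_vsub v M 0
  rw [zero_add, v.2.1] at h
  exact h.symm

lemma cls_mul_left [IsSepClosed Ω] {n : ℕ} (hn : (n : L) ≠ 0) {ζ : L} (hζ : IsPrimitiveRoot ζ n)
    {a a' b : L} (ha : a ≠ 0) (ha' : a' ≠ 0) (hb : b ≠ 0) :
    cls Ω n ζ (a * a') b = cls Ω n ζ a b + cls Ω n ζ a' b := by
  rw [cls, cls, cls, ← symb_mk_add]
  refine congrArg (fun f => mkH L Ω (Additive.ofMul f)) ?_
  funext g h
  rw [Pi.mul_apply, Pi.mul_apply]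
  simp only [cocy]
  rw [← pow_add, ← mul_add]
  exact symb_zu_congr hn hζ ((kc_mul hn hζ ha ha' h).mul_left _)

lemma cls_mul_right [IsSepClosed Ω] {n : ℕ} (hn : (n : L) ≠ 0) {ζ : L} (hζ : IsPrimitiveRoot ζ n)
    {a b b' : L} (ha : a ≠ 0) (hb : b ≠ 0) (hb' : b' ≠ 0) :
    cls Ω n ζ a (b * b') = cls Ω n ζ a b + cls Ω n ζ a b' := by
  rw [cls, cls, cls, ← symb_mk_add]
  refine congrArg (fun f => mkH L Ω (Additive.ofMul f)) ?_
  funext g h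
  rw [Pi.mul_apply, Pi.mul_apply]
  simp only [cocy]
  rw [← pow_add, ← add_mul]
  exact symb_zu_congr hn hζ ((kc_mul hn hζ hb hb' g).mul_right _)

lemma cls_level [IsSepClosed Ω] {ℓ M : ℕ} (hℓ : (ℓ : L) ≠ 0) {Z : ℕ → L}
    (hZ : ∀ M, IsPrimitiveRoot (Z M) (ℓ ^ M)) (hZ' : ∀ M, Z (M + 1) ^ ℓ = Z M) {a b : L}
    (ha : a ≠ 0) (hb : b ≠ 0) :
    cls Ω (ℓ ^ M) (Z M) a b = ℓ • cls Ω (ℓ ^ (M + 1)) (Z (M + 1)) a b := by
  have hn : ((ℓ ^ M : ℕ) : L) ≠ 0 := by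
    rw [Nat.cast_pow]
    exact pow_ne_zero _ hℓ
  have hn' : ((ℓ * ℓ ^ M : ℕ) : L) ≠ 0 := by
    rw [Nat.cast_mul]
    exact mul_ne_zero hℓ hn
  have hn'' : ((ℓ ^ (M + 1) : ℕ) : L) ≠ 0 := by
    rw [Nat.cast_pow]
    exact pow_ne_zero _ hℓ
  have hζ : IsPrimitiveRoot (Z (M + 1)) (ℓ * ℓ ^ M) := by
    rw [← pow_succ']
    exact hZ (M + 1)
  have key : ∀ {c : L}, c ≠ 0 → ∀ g : Ω ≃ₐ[L] Ω,
      kc (ℓ ^ M) (Z M) c g ≡ kc (ℓ ^ (M + 1)) (Z (M + 1)) c g [MOD ℓ ^ M] := by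
    intro c hc g
    have h1 := kc_level hn' hζ hc g
    rw [hZ' M, ← pow_succ'] at h1
    exact h1.symm
  rw [cls, cls, ← symb_mk_pow]
  refine congrArg (fun f => mkH L Ω (Additive.ofMul f)) ?_
  funext g h
  rw [Pi.pow_apply, Pi.pow_apply]
  simp only [cocy]
  have hz : zu Ω (Z M) = zu Ω (Z (M + 1)) ^ ℓ := by
    apply Units.ext
    rw [Units.val_pow_eq_pow_val, symb_zu (symb_ne_zero hn (hZ M)),
      symb_zu (symb_ne_zero hn'' (hZ (M + 1))), ← map_pow, hZ' M]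
  rw [← pow_mul (zu Ω (Z (M + 1))), mul_comm _ ℓ, pow_mul (zu Ω (Z (M + 1))), ← hz]
  exact symb_zu_congr hn (hZ M) ((key hb g).mul (key ha h))

/-- The group `Vsub L Ω ℓ` is torsion free. -/
lemma vsub_torsionFree {ℓ : ℕ} (hℓ : ℓ.Prime) (n : ℕ) (v : Vsub L Ω ℓ) (hn : n ≠ 0)
    (h : n • v = 0) : v = 0 := by
  have h0 : ∀ M, n • v.1 M = 0 := by
    intro M
    have h1 := congrArg (fun w : Vsub L Ω ℓ => w.1 M) h
    exact h1
  obtain ⟨c, n', hn', hnc⟩ := Nat.exists_eq_pow_mul_and_not_dvd hn ℓ hℓ.ne_one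
  apply Subtype.ext
  funext M
  have h1 : n' • v.1 M = 0 := by
    rw [symb_vsub v c M, smul_smul, mul_comm, ← hnc]
    exact h0 _
  have h2 := symb_vsub_kill v M
  have h3 : addOrderOf (v.1 M) ∣ n' := addOrderOf_dvd_of_nsmul_eq_zero h1
  have h4 : addOrderOf (v.1 M) ∣ ℓ ^ M := addOrderOf_dvd_of_nsmul_eq_zero h2
  have h5 : Nat.Coprime n' (ℓ ^ M) :=
    Nat.Coprime.pow_right _ ((hℓ.coprime_iff_not_dvd.2 hn').symm)
  have h6 : addOrderOf (v.1 M) = 1 := Nat.dvd_one.1 (by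
    rw [← h5.gcd_eq_one]
    exact Nat.dvd_gcd h3 h4)
  exact AddMonoid.addOrderOf_eq_one_iff.1 h6

/-- The group `Vsub L Ω ℓ` is `ℓ`-adically separated. -/
lemma vsub_sep {ℓ : ℕ} (hℓ : ℓ.Prime) (v : Vsub L Ω ℓ)
    (h : ∀ M : ℕ, ∃ w : Vsub L Ω ℓ, v = (ℓ ^ M) • w) : v = 0 := by
  apply Subtype.ext
  funext M
  obtain ⟨w, hw⟩ := h M
  have h1 : v.1 M = (ℓ ^ M) • w.1 M := by
    rw [hw]
    rfl
  rw [h1, symb_vsub_kill]
  rfl

variable (Ω) in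
/-- The sequence of Kummer symbols. -/
noncomputable def symSeq (ℓ : ℕ) (Z : ℕ → L) (a b : L) : ℕ → H2 L Ω :=
  open Classical in
  fun M => if a = 0 ∨ b = 0 then 0 else cls Ω (ℓ ^ M) (Z M) a b

lemma symSeq_mem [IsSepClosed Ω] {ℓ : ℕ} (hℓ : (ℓ : L) ≠ 0) {Z : ℕ → L}
    (hZ : ∀ M, IsPrimitiveRoot (Z M) (ℓ ^ M)) (hZ' : ∀ M, Z (M + 1) ^ ℓ = Z M) (a b : L) :
    symSeq Ω ℓ Z a b ∈ Vsub L Ω ℓ := by
  classical
  by_cases hab : a = 0 ∨ b = 0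
  · have h : symSeq Ω ℓ Z a b = 0 := by
      funext M
      simp only [symSeq]
      rw [if_pos hab]
      rfl
    rw [h]
    exact (Vsub L Ω ℓ).zero_mem
  · have h : ∀ M, symSeq Ω ℓ Z a b M = cls Ω (ℓ ^ M) (Z M) a b := by
      intro M
      simp only [symSeq]
      rw [if_neg hab]
    have hab' := not_or.1 hab
    refine ⟨?_, fun M => ?_⟩
    · rw [h 0]
      have hz : zu Ω (Z 0) = 1 := by
        have h1 : (((ℓ ^ 0 : ℕ)) : L) ≠ 0 := by simp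
        have h2 := symb_zu_pow (Ω := Ω) h1 (hZ 0)
        rwa [pow_zero, pow_one] at h2
      have h3 : cocy Ω (ℓ ^ 0) (Z 0) a b = 1 := by
        funext g h
        simp only [cocy]
        rw [hz, one_pow]
        rfl
      rw [cls, h3, ofMul_one, map_zero]
    · rw [h M, h (M + 1)]
      exact cls_level hℓ hZ hZ' hab'.1 hab'.2

end Pool.Agent.PSF
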