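import Pool.Agent.PSF.TLine

/-!
# PSF-TDiv: the line relation when `X ^ N` is a `q`-th power of an element `z`

Here `η` is a primitive `q`-th root of unity, `z ^ q = X ^ N`, and all `1 - η ^ a z` are killed, and the
`N`-th roots of `η ^ a z` are killed.

PLAN.  Bezout: integers `u q + v N = 1`; `W = X ^ u z ^ v` (`zpow`): `W ^ q = X ^ (u q) z ^ (v q) =
X ^ (u q + v N) = X` and `W ^ N = (X ^ N) ^ u z ^ (v N) = z ^ (q u + v N) = z`.  For `a < q` let `X_a = η ^ a W`: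
`X_a ^ N = η ^ (a N) z`, which is `η ^ a' z` with `a' < q`.  `tline` with `q = 1` (`hfrob` trivial) for
`(X_a, Y)`: `∑_{i + j ≡ k} β (1 - Z ^ i X_a) (1 - Z ^ j Y) = 0` (`X_a ^ N * Y ^ N ≠ 1` as its `q`-th power is
`X ^ N * (Y ^ N) ^ q ≠ 1`; `X_a ^ N ≠ 1` as `X ^ N ≠ 1`).  Sum over `a < q`:
`∏ a < q, (1 - Z ^ i η ^ a W) = 1 - Z ^ (q i) W ^ q = 1 - Z ^ (q i) X`, so
`∑_{i + j ≡ k} β (1 - Z ^ (q i) X) (1 - Z ^ j Y) = 0`.  Reindex `i' = q i mod N` (`q` prime to `N`; `Z ^ (q i)`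
only depends on `i'`): `i + j ≡ k` iff `i' + q j ≡ q k`.  As `q` is invertible mod `N`, every `k'` is `≡ q k`.
-/

namespace Pool.Agent.PSF

universe u v

variable {ℓ : ℕ} {L : Type u} [Field L] {V : Type v} [AddCommGroup V]

private lemma prod_one_sub {q : ℕ} (hq : 0 < q) {η : L} (hη : IsPrimitiveRoot η q) (t : L) :
    ∏ a ∈ Finset.range q, (1 - η ^ a * t) = 1 - t ^ q := by
  classical
  have : NeZero q := ⟨hq.ne'⟩
  have h := hη.pow_sub_pow_eq_prod_sub_mul (x := 1) (y := t) hq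
  rw [one_pow] at h
  rw [h]
  refine Finset.prod_bij (fun a _ => η ^ a) ?_ ?_ ?_ ?_
  · intro a _
    rw [Polynomial.mem_nthRootsFinset hq]
    rw [← pow_mul, mul_comm, pow_mul, hη.pow_eq_one, one_pow]
  · intro a ha b hb hab
    exact hη.pow_inj (Finset.mem_range.mp ha) (Finset.mem_range.mp hb) hab
  · intro b hb
    rw [Polynomial.mem_nthRootsFinset hq] at hb
    obtain ⟨i, hi, hib⟩ := hη.eq_pow_of_pow_eq_one hb
    exact ⟨i, Finset.mem_range.mpr hi, hib⟩
  · intro a _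
    rfl

theorem tdiv (S : SymSys ℓ L V) {N q : ℕ} (hN : 0 < N) (hq : 0 < q) (hqN : Nat.Coprime q N)
    {Z X Y z η : L} (hZ : IsPrimitiveRoot Z N) (hη : IsPrimitiveRoot η q)
    (hX0 : X ≠ 0) (hY0 : Y ≠ 0) (hX1 : X ^ N ≠ 1) (hY1 : Y ^ N ≠ 1)
    (hXY : X ^ N * (Y ^ N) ^ q ≠ 1) (hz : z ^ q = X ^ N)
    (hkz : ∀ a : ℕ, ∀ b, b ≠ 0 → S.β (1 - η ^ a * z) b = 0)
    (hkr : ∀ (a : ℕ) (W : L), W ^ N = η ^ a * z → ∀ b, b ≠ 0 → S.β W b = 0)
    (hkY1 : ∀ b, b ≠ 0 → S.β (1 - Y ^ N) b = 0) (k : ℕ) :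
    ∑ i ∈ Finset.range N, ∑ j ∈ Finset.range N,
      (if i + q * j ≡ k [MOD N] then S.β (1 - Z ^ i * X) (1 - Z ^ j * Y) else 0) = 0 := by
  classical
  have hz0 : z ≠ 0 := by
    rintro rfl
    rw [zero_pow hq.ne'] at hz
    exact pow_ne_zero N hX0 hz.symm
  have hη0 : η ≠ 0 := hη.ne_zero hq.ne'
  have hZ0 : Z ≠ 0 := hZ.ne_zero hN.ne'
  -- Bezout
  obtain ⟨W, hW0, hWq, hWN⟩ : ∃ W : L, W ≠ 0 ∧ W ^ q = X ∧ W ^ N = z := by
    have hb : (q : ℤ) * Nat.gcdA q N + (N : ℤ) * Nat.gcdB q N = 1 := by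
      have := Nat.gcd_eq_gcd_ab q N
      rw [hqN.gcd_eq_one] at this
      exact_mod_cast this.symm
    set s : ℤ := Nat.gcdA q N with hs
    set t : ℤ := Nat.gcdB q N with ht
    refine ⟨X ^ s * z ^ t, mul_ne_zero (zpow_ne_zero _ hX0) (zpow_ne_zero _ hz0), ?_, ?_⟩
    · have h1 : (X ^ s * z ^ t) ^ q = X ^ ((q : ℤ) * s) * (z ^ q) ^ t := by
        rw [mul_pow, ← zpow_natCast (X ^ s), ← zpow_mul, ← zpow_natCast (z ^ t), ← zpow_mul,
          ← zpow_natCast z q, ← zpow_mul, mul_comm s, mul_comm t]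
      rw [h1, hz, ← zpow_natCast X N, ← zpow_mul, ← zpow_add₀ hX0, hb, zpow_one]
    · have h1 : (X ^ s * z ^ t) ^ N = (X ^ N) ^ s * z ^ ((N : ℤ) * t) := by
        rw [mul_pow, ← zpow_natCast (X ^ s), ← zpow_mul, ← zpow_natCast (z ^ t), ← zpow_mul,
          ← zpow_natCast X N, ← zpow_mul, mul_comm s, mul_comm t]
      rw [h1, ← hz, ← zpow_natCast z q, ← zpow_mul, ← zpow_add₀ hz0, hb, zpow_one]
  have hXaN : ∀ a : ℕ, (η ^ a * W) ^ N = η ^ (a * N) * z := by
    intro a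
    rw [mul_pow, hWN, ← pow_mul]
  have hXaq : ∀ a : ℕ, ((η ^ a * W) ^ N) ^ q = X ^ N := by
    intro a
    rw [hXaN, mul_pow, hz, ← pow_mul, mul_comm (a * N) q, pow_mul, hη.pow_eq_one, one_pow, one_mul]
  have hXa1 : ∀ a : ℕ, (η ^ a * W) ^ N ≠ 1 := by
    intro a h
    have := hXaq a
    rw [h, one_pow] at this
    exact hX1 this.symm
  have hline : ∀ (a k' : ℕ), ∑ i ∈ Finset.range N, ∑ j ∈ Finset.range N,
      (if i + j ≡ k' [MOD N] then S.β (1 - Z ^ i * (η ^ a * W)) (1 - Z ^ j * Y) else 0) = 0 := by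
    intro a k'
    have h := tline S hN one_pos (Nat.coprime_one_left N) (fun t => by rw [pow_one, pow_one]) hZ
      (X := η ^ a * W) (Y := Y) (mul_ne_zero (pow_ne_zero a hη0) hW0) hY0 (hXa1 a) hY1
      (by
        intro h
        apply hXY
        rw [← hXaq a, ← mul_pow]
        rw [pow_one] at h
        rw [h, one_pow])
      (hkr (a * N) _ (hXaN a))
      (by rw [hXaN]; exact hkz (a * N)) hkY1 k'
    simpa only [one_mul] using h
  have hfac : ∀ (a i : ℕ), 1 - Z ^ i * (η ^ a * W) ≠ 0 := by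
    intro a i h
    apply hXa1 a
    have h1 : Z ^ i * (η ^ a * W) = 1 := (sub_eq_zero.mp h).symm
    have h2 : (Z ^ i * (η ^ a * W)) ^ N = 1 := by rw [h1, one_pow]
    rw [mul_pow, ← pow_mul, mul_comm i N, pow_mul, hZ.pow_eq_one, one_pow, one_mul] at h2
    exact h2
  have hfacY : ∀ j : ℕ, 1 - Z ^ j * Y ≠ 0 := by
    intro j h
    apply hY1
    have h1 : Z ^ j * Y = 1 := (sub_eq_zero.mp h).symm
    have h2 : (Z ^ j * Y) ^ N = 1 := by rw [h1, one_pow]
    rw [mul_pow, ← pow_mul, mul_comm j N, pow_mul, hZ.pow_eq_one, one_pow, one_mul] at h2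
    exact h2
  have hprod : ∀ i : ℕ, ∏ a ∈ Finset.range q, (1 - Z ^ i * (η ^ a * W)) = 1 - Z ^ (q * i) * X := by
    intro i
    rw [← hWq, mul_comm q i, pow_mul, ← mul_pow, ← prod_one_sub hq hη]
    refine Finset.prod_congr rfl fun a _ => ?_
    ring
  have hsum : ∀ k' : ℕ, ∑ i ∈ Finset.range N, ∑ j ∈ Finset.range N,
      (if i + j ≡ k' [MOD N] then S.β (1 - Z ^ (q * i) * X) (1 - Z ^ j * Y) else 0) = 0 := by
    intro k'
    have h0 : ∑ a ∈ Finset.range q, (∑ i ∈ Finset.range N, ∑ j ∈ Finset.range N,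
        (if i + j ≡ k' [MOD N] then S.β (1 - Z ^ i * (η ^ a * W)) (1 - Z ^ j * Y) else 0)) = 0 :=
      Finset.sum_eq_zero fun a _ => hline a k'
    refine Eq.trans ?_ h0
    symm
    rw [Finset.sum_comm]
    refine Finset.sum_congr rfl fun i _ => ?_
    rw [Finset.sum_comm]
    refine Finset.sum_congr rfl fun j _ => ?_
    by_cases hc : i + j ≡ k' [MOD N]
    · simp only [hc, if_true]
      rw [← hprod i, S.prod_left _ _ (fun a _ => hfac a i) (hfacY j)]
    · simp only [hc, if_false, Finset.sum_const_zero]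
  -- reindex
  obtain ⟨k', hk'⟩ : ∃ k' : ℕ, q * k' ≡ k [MOD N] := by
    obtain ⟨m, hm⟩ := Nat.exists_mul_mod_eq_of_coprime (k := N) (n := q) (k % N) hqN hN.ne'
    exact ⟨m, hm.2.trans (Nat.mod_modEq k N)⟩
  have hbij : ∑ i ∈ Finset.range N, ∑ j ∈ Finset.range N,
      (if i + q * j ≡ k [MOD N] then S.β (1 - Z ^ i * X) (1 - Z ^ j * Y) else 0) =
      ∑ i ∈ Finset.range N, ∑ j ∈ Finset.range N,
      (if i + j ≡ k' [MOD N] then S.β (1 - Z ^ (q * i) * X) (1 - Z ^ j * Y) else 0) := by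
    symm
    have hinj : Set.InjOn (fun i : ℕ => (q * i) % N) (Finset.range N : Set ℕ) := by
      intro a ha b hb hab
      have ha' : a < N := by simpa using ha
      have hb' : b < N := by simpa using hb
      have h1 : q * a ≡ q * b [MOD N] := hab
      have h2 : a ≡ b [MOD N] := Nat.ModEq.cancel_left_of_coprime (by
        rw [Nat.gcd_comm]; exact hqN) h1
      exact Nat.ModEq.eq_of_lt_of_lt h2 ha' hb'
    refine Finset.sum_bij (fun i _ => (q * i) % N) ?_ ?_ ?_ ?_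
    · intro i _
      exact Finset.mem_range.mpr (Nat.mod_lt _ hN)
    · intro a ha b hb hab
      exact hinj (by simpa using ha) (by simpa using hb) hab
    · intro b hb
      have himg : (Finset.range N).image (fun i : ℕ => (q * i) % N) = Finset.range N := by
        apply Finset.eq_of_subset_of_card_le
        · intro x hx
          obtain ⟨y, _, hy⟩ := Finset.mem_image.mp hx
          exact Finset.mem_range.mpr (hy ▸ Nat.mod_lt _ hN)
        · rw [Finset.card_image_of_injOn hinj]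
      rw [← himg] at hb
      obtain ⟨y, hy, hyb⟩ := Finset.mem_image.mp hb
      exact ⟨y, hy, hyb⟩
    · intro i _
      refine Finset.sum_congr rfl fun j _ => ?_
      have hZi : Z ^ ((q * i) % N) = Z ^ (q * i) := by
        conv_rhs => rw [← Nat.div_add_mod (q * i) N, pow_add, pow_mul, hZ.pow_eq_one, one_pow,
          one_mul]
      have hiff : (q * i) % N + q * j ≡ k [MOD N] ↔ i + j ≡ k' [MOD N] := by
        have h1 : (q * i) % N + q * j ≡ q * (i + j) [MOD N] := by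
          rw [mul_add]
          exact (Nat.mod_modEq (q * i) N).add_right _
        constructor
        · intro h
          have h2 : q * (i + j) ≡ q * k' [MOD N] := (h1.symm.trans h).trans hk'.symm
          exact Nat.ModEq.cancel_left_of_coprime (by rw [Nat.gcd_comm]; exact hqN) h2
        · intro h
          exact h1.trans ((h.mul_left q).trans hk')
      simp only [hiff, hZi]
  rw [hbij]
  exact hsum k'

end Pool.Agent.PSF
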