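import Pool.Agent.PSF.Sym

/-!
# PSF-TLine: the line relation for the symbols `β (1 - Z ^ i X) (1 - Z ^ j Y)`

Fixed level `N`; `Z` is a primitive `N`-th root of unity; the elements `1 - X ^ N`, `1 - Y ^ N`, `X`, `Z` are
killed; `q` is prime to `N` and `(1 - t) ^ q = 1 - t ^ q` for all `t` (characteristic `p`, `q = p ^ e`, or
`q = 1`).

PLAN.  `∏ i < N, (1 - Z ^ i X) = 1 - X ^ N` and the same for `Y` (`IsPrimitiveRoot` product formula); so all
`1 - Z ^ i X`, `1 - Z ^ j Y` are nonzero.  For `q i + j ≡ k` put `x' = (Z ^ i X) ^ q`, `y' = Z ^ j Y`,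
`c = 1 - Z ^ k X ^ q Y = 1 - x' y'`, nonzero since `(Z ^ k X ^ q Y) ^ N = X ^ (N q) Y ^ N ≠ 1`.  Line
relation for `(1 - x') + x' (1 - y') = c`: `β (1 - x') (x' (1 - y')) = β (1 - x') c + β c (x' (1 - y'))`; as
`x'` is killed (and `β c x' = - β x' c = 0`), `β (1 - x') (1 - y') = β (1 - x') c + β c (1 - y')`, and
`1 - x' = (1 - Z ^ i X) ^ q`.  So `q • β (1 - Z ^ i X) (1 - Z ^ j Y) = q • β (1 - Z ^ i X) c + β c (1 - Z ^ j Y)`.
Sum over the pairs `(i, j)` with `q i + j ≡ k`: every `i < N` (every `j < N`) occurs exactly once, so the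
right hand side is `q • β (1 - X ^ N) c + β c (1 - Y ^ N) = 0`; finally `S.torsionFree`.
-/

namespace Pool.Agent.PSF

universe u v

variable {ℓ : ℕ} {L : Type u} [Field L] {V : Type v} [AddCommGroup V]

private theorem tl_prod {N : ℕ} (hN : 0 < N) {Z : L} (hZ : IsPrimitiveRoot Z N) (X : L) :
    ∏ i ∈ Finset.range N, (1 - Z ^ i * X) = 1 - X ^ N := by
  have : NeZero N := ⟨hN.ne'⟩
  have h1 := hZ.pow_sub_pow_eq_prod_sub_mul 1 X hN
  rw [one_pow] at h1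
  rw [h1]
  refine Finset.prod_bij (fun i _ => Z ^ i) ?_ ?_ ?_ ?_
  · intro i _
    rw [Polynomial.mem_nthRootsFinset hN, ← pow_mul, mul_comm, pow_mul, hZ.pow_eq_one, one_pow]
  · intro i hi j hj h
    exact hZ.pow_inj (Finset.mem_range.1 hi) (Finset.mem_range.1 hj) h
  · intro b hb
    rw [Polynomial.mem_nthRootsFinset hN] at hb
    obtain ⟨i, hi, h⟩ := hZ.eq_pow_of_pow_eq_one hb
    exact ⟨i, Finset.mem_range.2 hi, h⟩
  · intro i _
    rfl

private theorem tl_cntj {N : ℕ} (hN : 0 < N) (q k i : ℕ) :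
    ∃ j0 ∈ Finset.range N, ∀ j ∈ Finset.range N, (q * i + j ≡ k [MOD N]) ↔ j = j0 := by
  have h0 : q * i ≤ N * (q * i) := Nat.le_mul_of_pos_left _ hN
  have h1 : q * i + (k + (N * (q * i) - q * i)) % N ≡ k [MOD N] := by
    have h2 : q * i + (k + (N * (q * i) - q * i)) % N ≡
        q * i + (k + (N * (q * i) - q * i)) [MOD N] := (Nat.mod_modEq _ _).add_left _
    have h3 : q * i + (k + (N * (q * i) - q * i)) = k + N * (q * i) := by omega
    rw [h3] at h2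
    refine h2.trans ?_
    show (k + N * (q * i)) % N = k % N
    exact Nat.add_mul_mod_self_left _ _ _
  refine ⟨(k + (N * (q * i) - q * i)) % N, Finset.mem_range.2 (Nat.mod_lt _ hN), ?_⟩
  intro j hj
  constructor
  · intro h
    have h4 : j ≡ (k + (N * (q * i) - q * i)) % N [MOD N] :=
      Nat.ModEq.add_left_cancel' (q * i) (h.trans h1.symm)
    have h5 : j % N = ((k + (N * (q * i) - q * i)) % N) % N := h4
    rwa [Nat.mod_eq_of_lt (Finset.mem_range.1 hj), Nat.mod_mod] at h5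
  · rintro rfl
    exact h1

private theorem tl_cnti {N q : ℕ} (hN : 0 < N) (hqN : Nat.Coprime q N) (k j : ℕ) :
    ∃ i0 ∈ Finset.range N, ∀ i ∈ Finset.range N, (q * i + j ≡ k [MOD N]) ↔ i = i0 := by
  have hinj : ∀ i ∈ Finset.range N, ∀ i' ∈ Finset.range N,
      q * i + j ≡ q * i' + j [MOD N] → i = i' := by
    intro i hi i' hi' h
    have h1 : q * i ≡ q * i' [MOD N] := Nat.ModEq.add_right_cancel' j h
    have h2 : i ≡ i' [MOD N] := Nat.ModEq.cancel_left_of_coprime hqN.symm h1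
    have h3 : i % N = i' % N := h2
    rwa [Nat.mod_eq_of_lt (Finset.mem_range.1 hi), Nat.mod_eq_of_lt (Finset.mem_range.1 hi')] at h3
  have hsurj := Finset.surj_on_of_inj_on_of_card_le (s := Finset.range N) (t := Finset.range N)
    (fun i _ => (q * i + j) % N) (fun i _ => Finset.mem_range.2 (Nat.mod_lt _ hN))
    (fun i i' hi hi' h => hinj i hi i' hi' h) le_rfl (k % N) (Finset.mem_range.2 (Nat.mod_lt _ hN))
  obtain ⟨i0, hi0, h0⟩ := hsurj
  refine ⟨i0, hi0, ?_⟩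
  intro i hi
  have h1 : q * i0 + j ≡ k [MOD N] := h0.symm
  constructor
  · intro h
    exact hinj i hi i0 hi0 (h.trans h1.symm)
  · rintro rfl
    exact h1

theorem tline (S : SymSys ℓ L V) {N q : ℕ} (hN : 0 < N) (hq : 0 < q) (hqN : Nat.Coprime q N)
    (hfrob : ∀ t : L, (1 - t) ^ q = 1 - t ^ q) {Z X Y : L} (hZ : IsPrimitiveRoot Z N)
    (hX0 : X ≠ 0) (hY0 : Y ≠ 0) (hX1 : X ^ N ≠ 1) (hY1 : Y ^ N ≠ 1)
    (hXY : (X ^ N) ^ q * Y ^ N ≠ 1)
    (hkX : ∀ b, b ≠ 0 → S.β X b = 0)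
    (hkX1 : ∀ b, b ≠ 0 → S.β (1 - X ^ N) b = 0) (hkY1 : ∀ b, b ≠ 0 → S.β (1 - Y ^ N) b = 0)
    (k : ℕ) :
    ∑ i ∈ Finset.range N, ∑ j ∈ Finset.range N,
      (if q * i + j ≡ k [MOD N] then S.β (1 - Z ^ i * X) (1 - Z ^ j * Y) else 0) = 0 := by
  have hZ0 : Z ≠ 0 := hZ.ne_zero hN.ne'
  have hZN : ∀ i, (Z ^ i) ^ N = 1 := fun i => by
    rw [← pow_mul, mul_comm, pow_mul, hZ.pow_eq_one, one_pow]
  have hA0 : ∀ i, 1 - Z ^ i * X ≠ 0 := fun i h => by
    apply hX1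
    have h1 : Z ^ i * X = 1 := (sub_eq_zero.1 h).symm
    have h2 : (Z ^ i * X) ^ N = 1 := by rw [h1, one_pow]
    rwa [mul_pow, hZN, one_mul] at h2
  have hB0 : ∀ j, 1 - Z ^ j * Y ≠ 0 := fun i h => by
    apply hY1
    have h1 : Z ^ i * Y = 1 := (sub_eq_zero.1 h).symm
    have h2 : (Z ^ i * Y) ^ N = 1 := by rw [h1, one_pow]
    rwa [mul_pow, hZN, one_mul] at h2
  set c : L := 1 - Z ^ k * X ^ q * Y with hc
  have hc0 : c ≠ 0 := fun h => by
    apply hXY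
    have h1 : Z ^ k * X ^ q * Y = 1 := (sub_eq_zero.1 h).symm
    have h2 : (Z ^ k * X ^ q * Y) ^ N = 1 := by rw [h1, one_pow]
    rw [mul_pow, mul_pow, hZN, one_mul] at h2
    rw [← h2, ← pow_mul, ← pow_mul, mul_comm N q]
  -- the relation
  have hrel : ∀ i j : ℕ, q * i + j ≡ k [MOD N] →
      q • S.β (1 - Z ^ i * X) (1 - Z ^ j * Y) =
        q • S.β (1 - Z ^ i * X) c + S.β c (1 - Z ^ j * Y) := by
    intro i j hij
    have hZk : Z ^ (q * i + j) = Z ^ k := by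
      have h1 : (q * i + j) % N = k % N := hij
      rw [← Nat.div_add_mod (q * i + j) N, pow_add, pow_mul, hZ.pow_eq_one, one_pow, one_mul, h1]
      conv_rhs => rw [← Nat.div_add_mod k N, pow_add, pow_mul, hZ.pow_eq_one, one_pow, one_mul]
    have hx0 : Z ^ i * X ≠ 0 := mul_ne_zero (pow_ne_zero _ hZ0) hX0
    have hxq0 : (Z ^ i * X) ^ q ≠ 0 := pow_ne_zero _ hx0
    have hx1 : 1 - (Z ^ i * X) ^ q = (1 - Z ^ i * X) ^ q := (hfrob _).symm
    have hx10 : 1 - (Z ^ i * X) ^ q ≠ 0 := by rw [hx1]; exact pow_ne_zero _ (hA0 i)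
    have hsum : (1 - (Z ^ i * X) ^ q) + (Z ^ i * X) ^ q * (1 - Z ^ j * Y) = c := by
      rw [hc, ← hZk]
      ring
    have h1 := S.line hx10 (mul_ne_zero hxq0 (hB0 j)) hc0 hsum
    have h2 : S.β (1 - (Z ^ i * X) ^ q) ((Z ^ i * X) ^ q) = 0 :=
      S.steinberg hx10 hxq0 (by ring)
    have h3 : S.β ((Z ^ i * X) ^ q) c = 0 := by
      rw [S.pow_left hx0 hc0, S.mul_left (pow_ne_zero _ hZ0) hX0 hc0,
        S.torsion_left (pow_ne_zero _ hZ0) hc0 hN.ne' (hZN i), hkX c hc0, add_zero, smul_zero]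
    have h4 : S.β c ((Z ^ i * X) ^ q) = 0 := by
      rw [S.symm hc0 hxq0, h3, neg_zero]
    rw [S.mul_right hx10 hxq0 (hB0 j), h2, zero_add, S.mul_right hc0 hxq0 (hB0 j), h4, zero_add,
      hx1, S.pow_left (hA0 i) (hB0 j), S.pow_left (hA0 i) hc0] at h1
    exact h1
  have hsA : ∑ i ∈ Finset.range N, S.β (1 - Z ^ i * X) c = 0 := by
    rw [← S.prod_left _ _ (fun i _ => hA0 i) hc0, tl_prod hN hZ, hkX1 c hc0]
  have hY10 : 1 - Y ^ N ≠ 0 := fun h => hY1 (sub_eq_zero.1 h).symm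
  have hsB : ∑ j ∈ Finset.range N, S.β c (1 - Z ^ j * Y) = 0 := by
    rw [← S.prod_right _ _ (fun i _ => hB0 i) hc0, tl_prod hN hZ, S.symm hc0 hY10, hkY1 c hc0,
      neg_zero]
  apply S.torsionFree q _ hq.ne'
  rw [Finset.smul_sum]
  have e1 : ∀ i ∈ Finset.range N, q • ∑ j ∈ Finset.range N,
      (if q * i + j ≡ k [MOD N] then S.β (1 - Z ^ i * X) (1 - Z ^ j * Y) else 0) =
      q • S.β (1 - Z ^ i * X) c + ∑ j ∈ Finset.range N,
        (if q * i + j ≡ k [MOD N] then S.β c (1 - Z ^ j * Y) else 0) := by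
    intro i hi
    obtain ⟨j0, hj0, h0⟩ := tl_cntj hN q k i
    have h1 : q • S.β (1 - Z ^ i * X) c = ∑ j ∈ Finset.range N,
        (if q * i + j ≡ k [MOD N] then q • S.β (1 - Z ^ i * X) c else 0) := by
      rw [Finset.sum_eq_single_of_mem j0 hj0]
      · rw [if_pos ((h0 j0 hj0).2 rfl)]
      · intro j hj hne
        rw [if_neg (fun h => hne ((h0 j hj).1 h))]
    rw [h1, ← Finset.sum_add_distrib, Finset.smul_sum]
    refine Finset.sum_congr rfl fun j hj => ?_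
    by_cases h : q * i + j ≡ k [MOD N]
    · rw [if_pos h, if_pos h, if_pos h, hrel i j h]
    · rw [if_neg h, if_neg h, if_neg h, smul_zero, add_zero]
  rw [Finset.sum_congr rfl e1, Finset.sum_add_distrib, ← Finset.smul_sum, hsA, smul_zero, zero_add,
    Finset.sum_comm]
  refine Eq.trans (Finset.sum_congr rfl fun j hj => ?_) hsB
  obtain ⟨i0, hi0, h0⟩ := tl_cnti hN hqN k j
  rw [Finset.sum_eq_single_of_mem i0 hi0]
  · rw [if_pos ((h0 i0 hi0).2 rfl)]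
  · intro i hi hne
    rw [if_neg (fun h => hne ((h0 i hi).1 h))]

end Pool.Agent.PSF
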