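import Pool.Agent.PSF.Exist
import Pool.Agent.PSF.Rad

/-!
# PSF: the symbol system of `ℓ^∞√K`
-/

namespace Pool.Agent.PSF

open Pool.Agent.Helper26

universe u

theorem natCast_ne_zero_of_prim {ℓ : ℕ} (hℓ : ℓ.Prime) {K : Type u} [Field K] {ζ : K}
    (hζ : IsPrimitiveRoot ζ ℓ) : (ℓ : K) ≠ 0 := by
  have : NeZero ℓ := ⟨hℓ.ne_zero⟩
  exact hζ.neZero'.out

theorem exists_symSys_rad {ℓ : ℕ} (hℓ : ℓ.Prime) {K : Type u} [Field K] (hK : (ℓ : K) ≠ 0) :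
    ∃ (V : Type u) (_ : AddCommGroup V) (S : SymSys ℓ (radClosure ℓ K) V),
      (∀ a b : radClosure ℓ K, a ≠ 0 → b ≠ 0 →
        (S.β a b = 0 ↔ ∀ (M : ℕ) (ζ : radClosure ℓ K), IsPrimitiveRoot ζ (ℓ ^ M) →
          IsSplit (ℓ ^ M) ζ a b)) ∧
      (∀ x : radClosure ℓ K, IsRadl ℓ K _ x → x ≠ 0 → ∀ b : radClosure ℓ K, b ≠ 0 →
        S.β x b = 0) ∧
      ∀ c : K, c ≠ 0 → ∀ b : radClosure ℓ K, b ≠ 0 →
        S.β (algebraMap K (radClosure ℓ K) c) b = 0 := by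
  have hL : (ℓ : radClosure ℓ K) ≠ 0 := by
    have h := (map_ne_zero (algebraMap K (radClosure ℓ K))).mpr hK
    rwa [map_natCast] at h
  obtain ⟨V, hV, S, hS⟩ := exists_symSys hℓ hL (rad_mu hℓ hK)
  refine ⟨V, hV, S, hS, fun x hx hx0 b hb => kill_rad S hℓ (rad_root hℓ) hx hx0 hb,
    fun c hc b hb => kill_rad S hℓ (rad_root hℓ) ⟨0, c, by rw [pow_zero, pow_one]⟩
      ((map_ne_zero _).mpr hc) hb⟩

end Pool.Agent.PSF
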