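import Pool.Agent.PSF.Sym
import Pool.Agent.PSF.ExtP

/-!
# PSF-Trace: the trace lemma

PLAN.  Put `T(z, w) = ∑ t < ℓ, β (g^t z) (g^t w)`; it is bimultiplicative in nonzero `z, w`.
`g^t` fixes `F`, and `g^t C = ζ^t C`.  Use the induction principle `hlin F C hC`.
1. Norms: for `w ∈ ext F C`, `w ≠ 0`, the product `N w = ∏ t < ℓ, g^t w` lies in `F` (and is nonzero):
   induction principle; `w ∈ F`: `w ^ ℓ`; `w = C - a`: `∏ (ζ^t C - a) = ± (C ^ ℓ - a ^ ℓ)`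
   (from `X ^ ℓ - y ^ ℓ = ∏ t < ℓ, (X - ζ ^ t y)`, `IsPrimitiveRoot.pow_sub_pow_eq_prod_sub_mul` or
   similar; reindex `t ↦ -t`); products and inverses.
2. `T(x, w) = β x (N w) = 0` for `x ∈ F` (`prod_right`, `hF`), and symmetrically `T(w, x) = 0`.
3. `T(C - a, C - b)`: if `a = b`, each term is `β y y = 0`; otherwise `sub_sub` gives
   `T = β (a - b) (N (C - b)) - β (a - b) (N (C - a)) = 0`.
4. General `z, w` by the induction principle twice (`P z := ∀ w ∈ ext F C, w ≠ 0 → T(z,w) = 0`).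
-/

namespace Pool.Agent.PSF

universe u v

variable {ℓ : ℕ} {K E : Type u} [Field K] [Field E] [Algebra K E] {V : Type v} [AddCommGroup V]

private lemma pow_fix (F : IntermediateField K E) (g : E ≃ₐ[K] E) (hgF : ∀ x ∈ F, g x = x)
    {x : E} (hx : x ∈ F) (t : ℕ) : (g ^ t) x = x := by
  induction t with
  | zero => rfl
  | succ t ih => rw [pow_succ, AlgEquiv.mul_apply, hgF x hx, ih]

private lemma pow_C (F : IntermediateField K E) (g : E ≃ₐ[K] E) (hgF : ∀ x ∈ F, g x = x)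
    {C ζ : E} (hζF : ζ ∈ F) (hgC : g C = ζ * C) (t : ℕ) : (g ^ t) C = ζ ^ t * C := by
  induction t with
  | zero => simp
  | succ t ih =>
    rw [pow_succ, AlgEquiv.mul_apply, hgC, map_mul, ih, pow_fix F g hgF hζF t]
    ring

private lemma pow_ne (g : E ≃ₐ[K] E) {x : E} (hx : x ≠ 0) (t : ℕ) : (g ^ t) x ≠ 0 := by
  intro h
  exact hx ((map_eq_zero_iff (g ^ t) (g ^ t).injective).mp h)

private lemma norm_mem (hℓ : ℓ.Prime) (hlin : LinGen ℓ K E)
    (F : IntermediateField K E) {C ζ : E} (hC : C ^ ℓ ∈ F) (hζF : ζ ∈ F)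
    (hζ : IsPrimitiveRoot ζ ℓ) (g : E ≃ₐ[K] E) (hgF : ∀ x ∈ F, g x = x) (hgC : g C = ζ * C)
    {w : E} (hw : w ∈ ext F C) (hw0 : w ≠ 0) :
    ∏ t ∈ Finset.range ℓ, (g ^ t) w ∈ F := by
  refine hlin F C hC (fun w => ∏ t ∈ Finset.range ℓ, (g ^ t) w ∈ F) ?_ ?_ ?_ ?_ w hw hw0
  · intro x hx _
    have h : ∏ t ∈ Finset.range ℓ, (g ^ t) x = x ^ ℓ := by
      rw [Finset.prod_congr rfl (fun t _ => pow_fix F g hgF hx t), Finset.prod_const,
        Finset.card_range]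
    show ∏ t ∈ Finset.range ℓ, (g ^ t) x ∈ F
    rw [h]
    exact pow_mem hx ℓ
  · intro a ha _
    show ∏ t ∈ Finset.range ℓ, (g ^ t) (C - a) ∈ F
    have h1 : ∀ t ∈ Finset.range ℓ, (g ^ t) (C - a) = (-1) * (a - ζ ^ t * C) := by
      intro t _
      rw [map_sub, pow_C F g hgF hζF hgC t, pow_fix F g hgF ha t]
      ring
    have h2 := congrArg (Polynomial.eval a) (X_pow_sub_C_eq_prod hζ hℓ.pos (rfl : C ^ ℓ = C ^ ℓ))
    rw [Polynomial.eval_prod] at h2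
    simp only [Polynomial.eval_sub, Polynomial.eval_pow, Polynomial.eval_X,
      Polynomial.eval_C] at h2
    rw [Finset.prod_congr rfl h1, Finset.prod_mul_distrib, ← h2]
    exact mul_mem (prod_mem fun _ _ => neg_mem (one_mem F)) (sub_mem (pow_mem ha ℓ) hC)
  · intro x y _ _ hx hy
    show ∏ t ∈ Finset.range ℓ, (g ^ t) (x * y) ∈ F
    simp only [map_mul, Finset.prod_mul_distrib]
    exact mul_mem hx hy
  · intro x _ hx
    show ∏ t ∈ Finset.range ℓ, (g ^ t) x⁻¹ ∈ F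
    simp only [map_inv₀, Finset.prod_inv_distrib]
    exact inv_mem hx

theorem trace_zero (S : SymSys ℓ E V) (hℓ : ℓ.Prime) (hlin : LinGen ℓ K E)
    (F : IntermediateField K E) {C ζ : E} (hC : C ^ ℓ ∈ F) (hζF : ζ ∈ F)
    (hζ : IsPrimitiveRoot ζ ℓ) (g : E ≃ₐ[K] E) (hgF : ∀ x ∈ F, g x = x) (hgC : g C = ζ * C)
    (hF : ∀ x ∈ F, ∀ y ∈ F, x ≠ 0 → y ≠ 0 → S.β x y = 0)
    {z w : E} (hz : z ∈ ext F C) (hw : w ∈ ext F C) (hz0 : z ≠ 0) (hw0 : w ≠ 0) :
    ∑ t ∈ Finset.range ℓ, S.β ((g ^ t) z) ((g ^ t) w) = 0 := by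
  have hN := fun {w : E} (hw : w ∈ ext F C) (hw0 : w ≠ 0) =>
    norm_mem hℓ hlin F hC hζF hζ g hgF hgC hw hw0
  have hN0 : ∀ {w : E}, w ≠ 0 → ∏ t ∈ Finset.range ℓ, (g ^ t) w ≠ 0 := fun {w} h =>
    Finset.prod_ne_zero_iff.mpr fun t _ => pow_ne g h t
  have hleft : ∀ x ∈ F, x ≠ 0 → ∀ w ∈ ext F C, w ≠ 0 →
      ∑ t ∈ Finset.range ℓ, S.β x ((g ^ t) w) = 0 := by
    intro x hx hx0 w hw hw0
    rw [← S.prod_right _ _ (fun t _ => pow_ne g hw0 t) hx0]
    exact hF x hx _ (hN hw hw0) hx0 (hN0 hw0)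
  have hright : ∀ x ∈ F, x ≠ 0 → ∀ w ∈ ext F C, w ≠ 0 →
      ∑ t ∈ Finset.range ℓ, S.β ((g ^ t) w) x = 0 := by
    intro x hx hx0 w hw hw0
    rw [← S.prod_left _ _ (fun t _ => pow_ne g hw0 t) hx0]
    exact hF _ (hN hw hw0) x hx (hN0 hw0) hx0
  have hCm : C ∈ ext F C := IntermediateField.subset_adjoin K _ (Set.mem_insert _ _)
  have hFm : ∀ x ∈ F, x ∈ ext F C := fun x hx =>
    IntermediateField.subset_adjoin K _ (Set.mem_insert_of_mem _ hx)
  refine hlin F C hC (fun z => ∀ w ∈ ext F C, w ≠ 0 →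
    ∑ t ∈ Finset.range ℓ, S.β ((g ^ t) z) ((g ^ t) w) = 0) ?_ ?_ ?_ ?_ z hz hz0 w hw hw0
  · intro x hx hx0 w hw hw0
    rw [← hleft x hx hx0 w hw hw0]
    exact Finset.sum_congr rfl fun t _ => by rw [pow_fix F g hgF hx t]
  · intro a ha ha0 w hw hw0
    refine hlin F C hC (fun w => ∑ t ∈ Finset.range ℓ, S.β ((g ^ t) (C - a)) ((g ^ t) w) = 0)
      ?_ ?_ ?_ ?_ w hw hw0
    · intro x hx hx0
      show ∑ t ∈ Finset.range ℓ, S.β ((g ^ t) (C - a)) ((g ^ t) x) = 0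
      rw [← hright x hx hx0 (C - a) (sub_mem hCm (hFm a ha)) ha0]
      exact Finset.sum_congr rfl fun t _ => by rw [pow_fix F g hgF hx t]
    · intro b hb hb0
      show ∑ t ∈ Finset.range ℓ, S.β ((g ^ t) (C - a)) ((g ^ t) (C - b)) = 0
      by_cases hab : a = b
      · subst hab
        exact Finset.sum_eq_zero fun t _ => S.self (pow_ne g ha0 t)
      · have hab0 : a - b ≠ 0 := sub_ne_zero.mpr hab
        have h1 := hleft (a - b) (sub_mem ha hb) hab0 (C - b) (sub_mem hCm (hFm b hb)) hb0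
        have h2 := hleft (a - b) (sub_mem ha hb) hab0 (C - a) (sub_mem hCm (hFm a ha)) ha0
        have h3 : ∀ t ∈ Finset.range ℓ, S.β ((g ^ t) (C - a)) ((g ^ t) (C - b)) =
            S.β (a - b) ((g ^ t) (C - b)) - S.β (a - b) ((g ^ t) (C - a)) := by
          intro t _
          have ea : (g ^ t) (C - a) = ζ ^ t * C - a := by
            rw [map_sub, pow_C F g hgF hζF hgC t, pow_fix F g hgF ha t]
          have eb : (g ^ t) (C - b) = ζ ^ t * C - b := by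
            rw [map_sub, pow_C F g hgF hζF hgC t, pow_fix F g hgF hb t]
          have na : ζ ^ t * C - a ≠ 0 := ea ▸ pow_ne g ha0 t
          have nb : ζ ^ t * C - b ≠ 0 := eb ▸ pow_ne g hb0 t
          rw [ea, eb]
          exact S.sub_sub na nb hab
        rw [Finset.sum_congr rfl h3, Finset.sum_sub_distrib, h1, h2, sub_zero]
    · intro x y hx0 hy0 hx hy
      show ∑ t ∈ Finset.range ℓ, S.β ((g ^ t) (C - a)) ((g ^ t) (x * y)) = 0
      have h3 : ∀ t ∈ Finset.range ℓ, S.β ((g ^ t) (C - a)) ((g ^ t) (x * y)) =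
          S.β ((g ^ t) (C - a)) ((g ^ t) x) + S.β ((g ^ t) (C - a)) ((g ^ t) y) := by
        intro t _
        rw [map_mul, S.mul_right (pow_ne g ha0 t) (pow_ne g hx0 t) (pow_ne g hy0 t)]
      rw [Finset.sum_congr rfl h3, Finset.sum_add_distrib, hx, hy, add_zero]
    · intro x hx0 hx
      show ∑ t ∈ Finset.range ℓ, S.β ((g ^ t) (C - a)) ((g ^ t) x⁻¹) = 0
      have h3 : ∀ t ∈ Finset.range ℓ, S.β ((g ^ t) (C - a)) ((g ^ t) x⁻¹) =
          - S.β ((g ^ t) (C - a)) ((g ^ t) x) := by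
        intro t _
        rw [map_inv₀, S.inv_right (pow_ne g ha0 t) (pow_ne g hx0 t)]
      rw [Finset.sum_congr rfl h3, Finset.sum_neg_distrib, hx, neg_zero]
  · intro x y hx0 hy0 hx hy w hw hw0
    have h3 : ∀ t ∈ Finset.range ℓ, S.β ((g ^ t) (x * y)) ((g ^ t) w) =
        S.β ((g ^ t) x) ((g ^ t) w) + S.β ((g ^ t) y) ((g ^ t) w) := by
      intro t _
      rw [map_mul, S.mul_left (pow_ne g hx0 t) (pow_ne g hy0 t) (pow_ne g hw0 t)]
    rw [Finset.sum_congr rfl h3, Finset.sum_add_distrib, hx w hw hw0, hy w hw hw0, add_zero]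
  · intro x hx0 hx w hw hw0
    have h3 : ∀ t ∈ Finset.range ℓ, S.β ((g ^ t) x⁻¹) ((g ^ t) w) =
        - S.β ((g ^ t) x) ((g ^ t) w) := by
      intro t _
      rw [map_inv₀, S.inv_left (pow_ne g hx0 t) (pow_ne g hw0 t)]
    rw [Finset.sum_congr rfl h3, Finset.sum_neg_distrib, hx w hw hw0, neg_zero]

end Pool.Agent.PSF
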