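import Mathlib

/-!
# PSF-Vdm: polynomials as combinations of polynomials in `q i + j`

PLAN.
1. Monomials `i ^ a * j ^ b`, `d = a + b`: choose `d + 1` distinct elements `q_0, …, q_d` of `Q`
   (`Set.Infinite.exists_subset_card_eq`).  The Vandermonde matrix over `ℚ` is invertible
   (`Matrix.det_vandermonde_ne_zero_iff`), so there are rationals `c_e` with
   `∑ e, c_e q_e ^ m = if m = a then 1 else 0` for `m ≤ d`.  By the binomial theorem
   `∑ e, c_e (q_e i + j) ^ d = (d choose a) i ^ a j ^ b`.  Clear denominators: a common denominator `N` of the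
   `c_e`, `Δ = N * (d choose a)`, `g q_e = C (N c_e) * X ^ d`.
2. `A.eval i * B.eval j` is a finite integral combination of monomials; induct on `A` and `B`
   (`Polynomial.induction_on'`), combining two representations `(Δ₁, s₁, g₁)`, `(Δ₂, s₂, g₂)` into
   `(Δ₁ Δ₂, s₁ ∪ s₂, Δ₂ g₁ 1_{s₁} + Δ₁ g₂ 1_{s₂})`.
-/

namespace Pool.Agent.PSF

open Polynomial

private def Rep (Q : Set ℕ) (F : ℤ → ℤ → ℤ) : Prop :=
  ∃ (D : ℤ) (s : Finset ℕ) (g : ℕ → ℤ[X]), D ≠ 0 ∧ (↑s : Set ℕ) ⊆ Q ∧
    ∀ i j : ℤ, D * F i j = ∑ q ∈ s, (g q).eval ((q : ℤ) * i + j)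

private lemma rep_zero (Q : Set ℕ) : Rep Q (fun _ _ => 0) :=
  ⟨1, ∅, fun _ => 0, one_ne_zero, by simp, by simp⟩

private lemma rep_single {Q : Set ℕ} {q : ℕ} (hq : q ∈ Q) (P : ℤ[X]) :
    Rep Q (fun i j => P.eval ((q : ℤ) * i + j)) :=
  ⟨1, {q}, fun _ => P, one_ne_zero, by simpa using hq, by simp⟩

private lemma rep_add {Q : Set ℕ} {F G : ℤ → ℤ → ℤ} (hF : Rep Q F) (hG : Rep Q G) :
    Rep Q (fun i j => F i j + G i j) := by
  classical
  obtain ⟨D, s, g, hD, hs, hg⟩ := hF
  obtain ⟨E, t, h, hE, ht, hh⟩ := hG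
  refine ⟨D * E, s ∪ t, fun q => C E * (if q ∈ s then g q else 0) +
    C D * (if q ∈ t then h q else 0), mul_ne_zero hD hE, ?_, fun i j => ?_⟩
  · intro q hq
    rw [Finset.coe_union] at hq
    rcases hq with hq | hq
    · exact hs hq
    · exact ht hq
  · simp only [eval_add, eval_mul, eval_C]
    rw [Finset.sum_add_distrib, ← Finset.mul_sum, ← Finset.mul_sum]
    have h1 : ∑ q ∈ s ∪ t, (if q ∈ s then g q else 0).eval ((q : ℤ) * i + j) =
        ∑ q ∈ s, (g q).eval ((q : ℤ) * i + j) := by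
      rw [← Finset.sum_subset (Finset.subset_union_left (s₁ := s) (s₂ := t))]
      · refine Finset.sum_congr rfl fun q hq => ?_
        rw [if_pos hq]
      · intro q _ hq
        rw [if_neg hq, eval_zero]
    have h2 : ∑ q ∈ s ∪ t, (if q ∈ t then h q else 0).eval ((q : ℤ) * i + j) =
        ∑ q ∈ t, (h q).eval ((q : ℤ) * i + j) := by
      rw [← Finset.sum_subset (Finset.subset_union_right (s₁ := s) (s₂ := t))]
      · refine Finset.sum_congr rfl fun q hq => ?_
        rw [if_pos hq]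
      · intro q _ hq
        rw [if_neg hq, eval_zero]
    rw [h1, h2, ← hg, ← hh]
    ring

private lemma rep_smul {Q : Set ℕ} {F : ℤ → ℤ → ℤ} (c : ℤ) (hF : Rep Q F) :
    Rep Q (fun i j => c * F i j) := by
  obtain ⟨D, s, g, hD, hs, hg⟩ := hF
  refine ⟨D, s, fun q => C c * g q, hD, hs, fun i j => ?_⟩
  simp only [eval_mul, eval_C]
  rw [← Finset.mul_sum, ← hg]
  ring

private lemma rep_of_mul {Q : Set ℕ} {F : ℤ → ℤ → ℤ} {c : ℤ} (hc : c ≠ 0)
    (hF : Rep Q (fun i j => c * F i j)) : Rep Q F := by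
  obtain ⟨D, s, g, hD, hs, hg⟩ := hF
  exact ⟨D * c, s, g, mul_ne_zero hD hc, hs, fun i j => by rw [← hg, mul_assoc]⟩

private lemma rep_sum {Q : Set ℕ} {ι : Type*} (t : Finset ι) (F : ι → ℤ → ℤ → ℤ)
    (hF : ∀ e ∈ t, Rep Q (F e)) : Rep Q (fun i j => ∑ e ∈ t, F e i j) := by
  classical
  induction t using Finset.induction_on with
  | empty => simpa using rep_zero Q
  | insert e t he ih =>
    have h1 := rep_add (hF e (Finset.mem_insert_self _ _))
      (ih fun x hx => hF x (Finset.mem_insert_of_mem hx))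
    simpa only [Finset.sum_insert he] using h1

private lemma rep_monomial {Q : Set ℕ} (hQ : Q.Infinite) (a b : ℕ) :
    Rep Q (fun i j => i ^ a * j ^ b) := by
  classical
  obtain ⟨d, hd⟩ : ∃ d, d = a + b := ⟨_, rfl⟩
  obtain ⟨v, hv⟩ : ∃ v : Fin (d + 1) → ℤ, v = fun (e : Fin (d + 1)) => ((hQ.natEmbedding Q (e : ℕ) : ℕ) : ℤ) :=
    ⟨_, rfl⟩
  have hinj : Function.Injective v := by
    intro e f hef
    rw [hv] at hef
    simp only at hef
    have h1 : (hQ.natEmbedding Q (e : ℕ) : ℕ) = (hQ.natEmbedding Q (f : ℕ) : ℕ) := by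
      exact_mod_cast hef
    have h2 := (hQ.natEmbedding Q).injective (Subtype.ext h1)
    exact Fin.ext h2
  have hdet : (Matrix.vandermonde v).det ≠ 0 := Matrix.det_vandermonde_ne_zero_iff.mpr hinj
  have hadj := Matrix.adjugate_mul (Matrix.vandermonde v)
  have ha : a < d + 1 := by omega
  obtain ⟨z, hz⟩ : ∃ z : Fin (d + 1) → ℤ,
      z = fun e => (Matrix.vandermonde v).adjugate ⟨a, ha⟩ e := ⟨_, rfl⟩
  have hsum : ∀ m : ℕ, m < d + 1 →
      ∑ e, z e * v e ^ m = if m = a then (Matrix.vandermonde v).det else 0 := by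
    intro m hm
    have h1 := congrFun (congrFun hadj ⟨a, ha⟩) ⟨m, hm⟩
    rw [Matrix.mul_apply] at h1
    simp only [Matrix.vandermonde_apply, Matrix.smul_apply, Matrix.one_apply, smul_eq_mul] at h1
    rw [hz, h1]
    by_cases hma : m = a
    · subst hma
      simp
    · rw [if_neg hma, if_neg (fun h => hma (by simpa using (Fin.ext_iff.mp h).symm)), mul_zero]
  have hchoose : ((d.choose a : ℕ) : ℤ) ≠ 0 := by
    have : 0 < d.choose a := Nat.choose_pos (by omega)
    exact_mod_cast this.ne'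
  have hrep : Rep Q (fun i j => ∑ e ∈ (Finset.univ : Finset (Fin (d + 1))),
      z e * ((X ^ d : ℤ[X]).eval (v e * i + j))) := by
    apply rep_sum
    intro e _
    apply rep_smul
    rw [hv]
    exact rep_single (hQ.natEmbedding Q (e : ℕ)).2 _
  have hkey : ∀ i j : ℤ, ∑ e ∈ (Finset.univ : Finset (Fin (d + 1))),
      z e * ((X ^ d : ℤ[X]).eval (v e * i + j)) =
      ((Matrix.vandermonde v).det * (d.choose a : ℕ)) * (i ^ a * j ^ b) := by
    intro i j
    simp only [eval_pow, eval_X]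
    have h1 : ∀ e, z e * (v e * i + j) ^ d = ∑ m ∈ Finset.range (d + 1),
        (z e * v e ^ m) * (i ^ m * j ^ (d - m) * (d.choose m : ℕ)) := by
      intro e
      rw [add_pow, Finset.mul_sum]
      refine Finset.sum_congr rfl fun m _ => ?_
      rw [mul_pow]
      ring
    simp only [h1]
    rw [Finset.sum_comm]
    have h2 : ∀ m ∈ Finset.range (d + 1), ∑ e, (z e * v e ^ m) *
        (i ^ m * j ^ (d - m) * (d.choose m : ℕ)) =
        if m = a then (Matrix.vandermonde v).det * (i ^ m * j ^ (d - m) * (d.choose m : ℕ))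
          else 0 := by
      intro m hm
      rw [← Finset.sum_mul, hsum m (Finset.mem_range.mp hm)]
      split_ifs <;> simp
    rw [Finset.sum_congr rfl h2, Finset.sum_ite_eq' , if_pos (Finset.mem_range.mpr ha)]
    have h3 : d - a = b := by omega
    rw [h3]
    ring
  have hrep2 : Rep Q (fun i j =>
      ((Matrix.vandermonde v).det * (d.choose a : ℕ)) * (i ^ a * j ^ b)) := by
    have h1 : (fun i j : ℤ => ∑ e ∈ (Finset.univ : Finset (Fin (d + 1))),
      z e * ((X ^ d : ℤ[X]).eval (v e * i + j))) = fun i j =>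
      ((Matrix.vandermonde v).det * (d.choose a : ℕ)) * (i ^ a * j ^ b) := by
      funext i j
      exact hkey i j
    rw [← h1]
    exact hrep
  exact rep_of_mul (mul_ne_zero hdet hchoose) hrep2

theorem vdm {Q : Set ℕ} (hQ : Q.Infinite) (A B : ℤ[X]) :
    ∃ (Δ : ℕ) (s : Finset ℕ) (g : ℕ → ℤ[X]), Δ ≠ 0 ∧ (↑s : Set ℕ) ⊆ Q ∧
      ∀ i j : ℤ, (Δ : ℤ) * (A.eval i * B.eval j) = ∑ q ∈ s, (g q).eval ((q : ℤ) * i + j) := by
  have h1 : Rep Q (fun i j => ∑ a ∈ Finset.range (A.natDegree + 1),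
      ∑ b ∈ Finset.range (B.natDegree + 1), (A.coeff a * B.coeff b) * (i ^ a * j ^ b)) := by
    apply rep_sum
    intro a _
    apply rep_sum
    intro b _
    exact rep_smul _ (rep_monomial hQ a b)
  obtain ⟨D, s, g, hD, hs, hg⟩ := h1
  refine ⟨(D * D).natAbs, s, fun q => C D * g q, ?_, hs, fun i j => ?_⟩
  · rw [Int.natAbs_ne_zero]
    exact mul_ne_zero hD hD
  · have h2 : (((D * D).natAbs : ℕ) : ℤ) = D * D :=
      Int.natAbs_of_nonneg (mul_self_nonneg D)
    have h3 : A.eval i * B.eval j = ∑ a ∈ Finset.range (A.natDegree + 1),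
        ∑ b ∈ Finset.range (B.natDegree + 1), (A.coeff a * B.coeff b) * (i ^ a * j ^ b) := by
      rw [eval_eq_sum_range, eval_eq_sum_range, Finset.sum_mul_sum]
      refine Finset.sum_congr rfl fun a _ => Finset.sum_congr rfl fun b _ => ?_
      ring
    rw [h2, h3, mul_assoc, hg i j, Finset.mul_sum]
    refine Finset.sum_congr rfl fun q _ => ?_
    simp only [eval_mul, eval_C]

end Pool.Agent.PSF
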